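import Pool.Agent.V11311.PD.P15
import Pool.Agent.H499R2.LT.B5
import Pool.Agent.H499R2.NDClass

/-! Predecessor densities, part 16: the final theorem. -/

set_option autoImplicit false

namespace Pool.Agent.V11311.PD

open Finset Filter Topology Pool.Agent.H320R2.PD

open Pool.Agent.Helper894.Collatz (T od)

open Pool.Agent.H499R2.ND (Td wc mem_wc Fd G nat_limit exp_neg_le)

/-- markov -/
theorem markov_block {y δ R : ℝ} (hy : 0 < y) (hδ : 0 < δ) (S : Finset ℕ)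
    (hS : ∀ a ∈ S, y < a ∧ (a : ℝ) ≤ 2 * y) (f : ℕ → ℝ) (hf : ∀ a ∈ S, δ * (1 / (a : ℝ)) ≤ f a)
    (hR : ∑ a ∈ S, f a ≤ R) : (S.card : ℝ) ≤ 2 * R / δ * y := by
  have h1 : (S.card : ℝ) * (δ * (1 / (2 * y))) ≤ R := by
    calc (S.card : ℝ) * (δ * (1 / (2 * y))) = ∑ a ∈ S, δ * (1 / (2 * y)) := by
          rw [sum_const, nsmul_eq_mul]
      _ ≤ ∑ a ∈ S, f a := by
          apply sum_le_sum
          intro a ha
          refine le_trans ?_ (hf a ha)
          apply mul_le_mul_of_nonneg_left _ hδ.le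
          have := hS a ha
          exact one_div_le_one_div_of_le (by linarith) this.2
      _ ≤ R := hR
  have h2 : (S.card : ℝ) * (δ * (1 / (2 * y))) = (S.card : ℝ) * δ / (2 * y) := by ring
  rw [h2, div_le_iff₀ (by positivity)] at h1
  rw [div_mul_eq_mul_div, le_div_iff₀ hδ]
  linarith

/-- the L1 estimate over a block -/
theorem block_L1 (B : ℕ) : ∃ C : ℝ, 0 < C ∧ ∀ D : ℕ → ℝ,
    (∀ a : ℕ, 0 < a → Tendsto (Fd (Pr a)) atTop (𝓝 (D a / 3))) → ∀ m : ℕ, 1 ≤ m →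
    ∀ᶠ y : ℝ in atTop, ∀ S : Finset ℕ, (∀ a ∈ S, a ∈ Gd (1 / 10) y) →
      ∑ a ∈ S, |a * D a - 2 / Real.log (4 / 3) * (3 ^ m * pN (4 * m) m a)| ≤ C / (m : ℝ) ^ B * y := by
  obtain ⟨C, hC, hb⟩ := block B
  refine ⟨4 * (C + 1) + 60 * (B.factorial * 2 ^ B), by positivity, ?_⟩
  intro D hD m hm
  have hmR : (1 : ℝ) ≤ m := by exact_mod_cast hm
  have hM0 : (0 : ℝ) < (m : ℝ) ^ B := by positivity
  have hbl := hb D hD m hm (1 / (m : ℝ) ^ B) (by positivity)
  have e3 : ∀ᶠ y : ℝ in atTop, max 1 (m : ℝ) ≤ Real.log y :=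
    Real.tendsto_log_atTop.eventually_ge_atTop _
  have e4 : ∀ᶠ y : ℝ in atTop, (3 : ℝ) ^ m ≤ y := eventually_ge_atTop _
  filter_upwards [hbl, e3, e4, eventually_ge_atTop 4] with y h1 h3 h4 h5
  intro S hS
  classical
  have hy0 : 0 < y := by linarith
  have hL1 : 1 ≤ Real.log y := (le_max_left _ _).trans h3
  have hL2 : (m : ℝ) ≤ Real.log y := (le_max_right _ _).trans h3
  have hL0 : 0 < Real.log y := by linarith
  have hc0 : 0 < Real.log (4 / 3) := Real.log_pos (by norm_num)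
  have hc1 := c43_low
  set c := Real.log (4 / 3) with hc
  set Q : ℕ → ℝ := fun a => 2 / c * ((1 / (a : ℝ)) * (3 ^ m * cW (cp y) m m a)) with hQ
  obtain ⟨hcp1, _⟩ := cp_bounds (y := y) hL1
  have hcap : 4 * m ≤ cp y := by
    have : (4 * (m : ℝ)) ≤ cp y := by linarith
    exact_mod_cast this
  have hblk : ∀ a ∈ S, y < a ∧ (a : ℝ) ≤ 2 * y := fun a ha => ⟨(hS a ha).1, (hS a ha).2.1⟩
  have hsumQ : ∀ S' : Finset ℕ, ∑ a ∈ S', Q a = 2 / c * Hm y m S' := by
    intro S'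
    simp only [hQ]
    rw [← mul_sum]
    rfl
  -- the sum of the absolute values
  have hDQ : ∑ a ∈ S, |D a - Q a| ≤ 2 * (C / (m : ℝ) ^ B + 1 / (m : ℝ) ^ B) := by
    rw [← sum_filter_add_sum_filter_not S (fun a => 0 ≤ D a - Q a)]
    have b1 := h1 (S.filter (fun a => 0 ≤ D a - Q a)) (fun a ha => hS a (mem_filter.1 ha).1)
    have b2 := h1 (S.filter (fun a => ¬ 0 ≤ D a - Q a)) (fun a ha => hS a (mem_filter.1 ha).1)
    rw [← hsumQ, ← sum_sub_distrib] at b1 b2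
    have c1 : ∑ a ∈ S.filter (fun a => 0 ≤ D a - Q a), |D a - Q a|
        = ∑ a ∈ S.filter (fun a => 0 ≤ D a - Q a), (D a - Q a) := by
      apply sum_congr rfl
      intro a ha
      exact abs_of_nonneg (mem_filter.1 ha).2
    have c2 : ∑ a ∈ S.filter (fun a => ¬ 0 ≤ D a - Q a), |D a - Q a|
        = - ∑ a ∈ S.filter (fun a => ¬ 0 ≤ D a - Q a), (D a - Q a) := by
      rw [← sum_neg_distrib]
      apply sum_congr rfl
      intro a ha
      exact abs_of_neg (not_le.1 (mem_filter.1 ha).2)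
    rw [c1, c2]
    have d1 := (le_abs_self _).trans b1
    have d2 := (neg_le_abs _).trans b2
    linarith
  have hQp := cW_pN_block hy0 S hblk m (cp y) hm hcap h4
  have hexp := exp_neg_le B (by norm_num : (0 : ℝ) < 2) (by linarith : (0 : ℝ) < m)
  have hterm : ∀ a ∈ S, |a * D a - 2 / c * (3 ^ m * pN (4 * m) m a)|
      ≤ 2 * y * |D a - Q a| + 2 * y * (2 / c * ((1 / (a : ℝ)) * (3 ^ m * |cW (cp y) m m a - pN (4 * m) m a|))) := by
    intro a ha
    obtain ⟨ha1, ha2⟩ := hblk a ha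
    have haR : (0 : ℝ) < a := by linarith
    have e1 : a * D a - 2 / c * (3 ^ m * pN (4 * m) m a)
        = a * (D a - Q a) + a * (2 / c * ((1 / (a : ℝ)) * (3 ^ m * (cW (cp y) m m a - pN (4 * m) m a)))) := by
      simp only [hQ]
      field_simp
      ring
    rw [e1]
    refine (abs_add_le _ _).trans ?_
    rw [abs_mul, abs_mul, abs_of_pos haR]
    apply add_le_add
    · exact mul_le_mul_of_nonneg_right ha2 (abs_nonneg _)
    · rw [abs_mul, abs_mul, abs_mul, abs_of_pos (by positivity : 0 < 2 / c), abs_of_pos (by positivity : (0 : ℝ) < 3 ^ m),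
        abs_of_pos (by positivity : (0 : ℝ) < 1 / a)]
      exact mul_le_mul_of_nonneg_right ha2 (by positivity)
  refine (sum_le_sum hterm).trans ?_
  rw [sum_add_distrib, ← mul_sum, ← mul_sum, ← mul_sum]
  have g1 : 2 * y * ∑ a ∈ S, |D a - Q a| ≤ 2 * y * (2 * (C / (m : ℝ) ^ B + 1 / (m : ℝ) ^ B)) :=
    mul_le_mul_of_nonneg_left hDQ (by positivity)
  have g2 : 2 * y * (2 / c * ∑ a ∈ S, (1 / (a : ℝ)) * (3 ^ m * |cW (cp y) m m a - pN (4 * m) m a|))
      ≤ 2 * y * (7.5 * (4 * (B.factorial * 2 ^ B / (m : ℝ) ^ B))) := by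
    apply mul_le_mul_of_nonneg_left _ (by positivity)
    have h6 : 2 / c ≤ 7.5 := by rw [div_le_iff₀ hc0]; linarith
    have h7 : ∑ a ∈ S, (1 / (a : ℝ)) * (3 ^ m * |cW (cp y) m m a - pN (4 * m) m a|)
        ≤ 4 * (B.factorial * 2 ^ B / (m : ℝ) ^ B) := by linarith
    apply mul_le_mul h6 h7 _ (by norm_num)
    apply sum_nonneg
    intro a _
    positivity
  have hfin : (4 * (C + 1) + 60 * (B.factorial * 2 ^ B)) / (m : ℝ) ^ B * y
      = 2 * y * (2 * (C / (m : ℝ) ^ B + 1 / (m : ℝ) ^ B)) + 2 * y * (7.5 * (4 * (B.factorial * 2 ^ B / (m : ℝ) ^ B))) := by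
    ring
  rw [hfin]
  linarith

/-- from blocks to initial intervals -/
theorem dyadic {P : ℕ → Prop} {κ y0 : ℝ} (hκ : 0 ≤ κ) (hy0 : 1 ≤ y0)
    (h : ∀ y : ℝ, y0 ≤ y → ∀ S : Finset ℕ, (∀ a ∈ S, (y < a ∧ (a : ℝ) ≤ 2 * y) ∧ P a) → (S.card : ℝ) ≤ κ * y) :
    ∀ n : ℕ, ∀ x : ℝ, 0 ≤ x → x ≤ 2 ^ n * y0 → ∀ S : Finset ℕ, (∀ a ∈ S, (1 ≤ a ∧ (a : ℝ) ≤ x) ∧ P a) →
      (S.card : ℝ) ≤ κ * x + 2 * y0 := by
  have triv : ∀ x : ℝ, 0 ≤ x → ∀ S : Finset ℕ, (∀ a ∈ S, (1 ≤ a ∧ (a : ℝ) ≤ x) ∧ P a) → (S.card : ℝ) ≤ x := by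
    intro x hx S hS
    have h1 : S ⊆ Icc 1 ⌊x⌋₊ := by
      intro a ha
      rw [mem_Icc]
      exact ⟨(hS a ha).1.1, Nat.le_floor (hS a ha).1.2⟩
    have h2 := card_le_card h1
    rw [Nat.card_Icc, Nat.add_sub_cancel] at h2
    have h3 : (S.card : ℝ) ≤ ⌊x⌋₊ := by exact_mod_cast h2
    exact h3.trans (Nat.floor_le hx)
  intro n
  induction n with
  | zero =>
    intro x hx hx1 S hS
    have := triv x hx S hS
    have h2 : 0 ≤ κ * x := by positivity
    simp at hx1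
    linarith
  | succ n ih =>
    intro x hx hx1 S hS
    rcases le_or_gt x (2 * y0) with h2 | h2
    · have := triv x hx S hS
      have h3 : 0 ≤ κ * x := by positivity
      linarith
    · classical
      have h3 : S.card = (S.filter (fun a : ℕ => x / 2 < a)).card + (S.filter (fun a : ℕ => ¬ x / 2 < a)).card :=
        (card_filter_add_card_filter_not _).symm
      have h4 := h (x / 2) (by linarith) (S.filter (fun a : ℕ => x / 2 < a)) (fun a ha => by
        rw [mem_filter] at ha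
        exact ⟨⟨ha.2, by linarith [(hS a ha.1).1.2]⟩, (hS a ha.1).2⟩)
      have h5 := ih (x / 2) (by linarith) (by rw [pow_succ] at hx1; linarith)
        (S.filter (fun a : ℕ => ¬ x / 2 < a)) (fun a ha => by
        rw [mem_filter] at ha
        exact ⟨⟨(hS a ha.1).1.1, by linarith [ha.2]⟩, (hS a ha.1).2⟩)
      have h6 : (S.card : ℝ) = (S.filter (fun a : ℕ => x / 2 < a)).card + (S.filter (fun a : ℕ => ¬ x / 2 < a)).card := by
        exact_mod_cast h3
      rw [h6]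
      linarith

/-- from blocks to initial intervals, for sums -/
theorem dyadic_sum {P : ℕ → Prop} {f : ℕ → ℝ} (hf : ∀ a, 0 ≤ f a) {κ y0 : ℝ} (hκ : 0 ≤ κ) (hy0 : 1 ≤ y0)
    (h : ∀ y : ℝ, y0 ≤ y → ∀ S : Finset ℕ, (∀ a ∈ S, (y < a ∧ (a : ℝ) ≤ 2 * y) ∧ P a) → ∑ a ∈ S, f a ≤ κ * y) :
    ∀ n : ℕ, ∀ x : ℝ, 0 ≤ x → x ≤ 2 ^ n * y0 → ∀ S : Finset ℕ, (∀ a ∈ S, (1 ≤ a ∧ (a : ℝ) ≤ x) ∧ P a) →
      ∑ a ∈ S, f a ≤ κ * x + ∑ a ∈ Icc 1 ⌊2 * y0⌋₊, f a := by
  have triv : ∀ x : ℝ, 0 ≤ x → x ≤ 2 * y0 → ∀ S : Finset ℕ, (∀ a ∈ S, (1 ≤ a ∧ (a : ℝ) ≤ x) ∧ P a) →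
      ∑ a ∈ S, f a ≤ ∑ a ∈ Icc 1 ⌊2 * y0⌋₊, f a := by
    intro x hx hx2 S hS
    apply sum_le_sum_of_subset_of_nonneg
    · intro a ha
      rw [mem_Icc]
      exact ⟨(hS a ha).1.1, Nat.le_floor ((hS a ha).1.2.trans hx2)⟩
    · intro a _ _
      exact hf a
  intro n
  induction n with
  | zero =>
    intro x hx hx1 S hS
    have := triv x hx (by simp at hx1; linarith) S hS
    have h2 : 0 ≤ κ * x := by positivity
    linarith
  | succ n ih =>
    intro x hx hx1 S hS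
    rcases le_or_gt x (2 * y0) with h2 | h2
    · have := triv x hx h2 S hS
      have h3 : 0 ≤ κ * x := by positivity
      linarith
    · classical
      rw [← sum_filter_add_sum_filter_not S (fun a : ℕ => x / 2 < a)]
      have h4 := h (x / 2) (by linarith) (S.filter (fun a : ℕ => x / 2 < a)) (fun a ha => by
        rw [mem_filter] at ha
        exact ⟨⟨ha.2, by linarith [(hS a ha.1).1.2]⟩, (hS a ha.1).2⟩)
      have h5 := ih (x / 2) (by linarith) (by rw [pow_succ] at hx1; linarith)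
        (S.filter (fun a : ℕ => ¬ x / 2 < a)) (fun a ha => by
        rw [mem_filter] at ha
        exact ⟨⟨(hS a ha.1).1.1, by linarith [ha.2]⟩, (hS a ha.1).2⟩)
      linarith

/-- the good integers -/
def Gs : Set ℕ := {a : ℕ | Typ (1 / 10) (Real.sqrt (a / 2)) a ∧
  ∀ b : ℕ, 0 < b → (b : ℝ) ≤ Real.sqrt a → ∀ j : ℕ, T^[j] b ≠ a}

theorem Gs_sub {y : ℝ} {a : ℕ} (h1 : y < a) (h2 : (a : ℝ) ≤ 2 * y) (h : a ∈ Gs) : a ∈ Gd (1 / 10) y := by
  refine ⟨h1, h2, h.1.mono (Real.sqrt_le_sqrt (by linarith)), fun b hb hby => h.2 b hb ?_⟩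
  exact hby.trans (Real.sqrt_le_sqrt h1.le)

/-- almost all integers of a block are in `Gs` -/
theorem Gs_bad (A : ℝ) (hA : 0 ≤ A) : ∀ᶠ y : ℝ in atTop,
    ∀ S : Finset ℕ, (∀ a ∈ S, (y < a ∧ (a : ℝ) ≤ 2 * y) ∧ a ∉ Gs) →
    (S.card : ℝ) ≤ 6 * (y / Real.log y ^ A) := by
  have h2 : Tendsto (fun y : ℝ => 2 * y) atTop atTop := tendsto_id.const_mul_atTop (by norm_num)
  have e1 := h2.eventually (typ_card (1 / 10) A (by norm_num) hA)
  have e2 : ∀ᶠ y : ℝ in atTop, ‖Real.log y ^ (A + 2)‖ ≤ 1 * ‖y ^ (1 / 2 : ℝ)‖ :=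
    (isLittleO_log_rpow_rpow_atTop (A + 2) (by norm_num : (0 : ℝ) < 1 / 2)).bound one_pos
  have e3 : ∀ᶠ y : ℝ in atTop, 18 ≤ Real.log y := Real.tendsto_log_atTop.eventually_ge_atTop 18
  filter_upwards [e1, e2, e3, eventually_ge_atTop 8] with y h1 h3 h4 h5
  intro S hS
  classical
  have hy0 : 0 < y := by linarith
  have hlog : 0 < Real.log y := by linarith
  rw [Real.norm_of_nonneg (by positivity), Real.norm_of_nonneg (by positivity), one_mul] at h3
  obtain ⟨J, hJ⟩ : ∃ J : ℕ, J = ⌈16 * Real.log y⌉₊ := ⟨_, rfl⟩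
  have hJ1 : 16 * Real.log y ≤ J := by rw [hJ]; exact Nat.le_ceil _
  have hJ2 : (J : ℝ) ≤ 17 * Real.log y := by
    rw [hJ]
    have := Nat.ceil_lt_add_one (by positivity : 0 ≤ 16 * Real.log y)
    linarith
  set S1 := S.filter fun a : ℕ => ¬ Typ (1 / 10) (Real.sqrt (a / 2)) a with hS1
  set S2 := S.filter fun a : ℕ => Typ (1 / 10) (Real.sqrt (a / 2)) a with hS2
  have hcard : S1.card + S2.card = S.card := by
    rw [hS1, hS2, add_comm]
    exact card_filter_add_card_filter_not (fun a : ℕ => Typ (1 / 10) (Real.sqrt (a / 2)) a)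
  have hq : ∀ a : ℕ, y < a → (2 * y) ^ (1 / 4 : ℝ) ≤ Real.sqrt (a / 2) := by
    intro a ha
    rw [Real.sqrt_eq_rpow]
    have h6 : 2 * y ≤ (y / 2) ^ (2 : ℝ) := by
      rw [show (y / 2) ^ (2 : ℝ) = (y / 2) ^ (2 : ℕ) by norm_cast]; nlinarith
    calc (2 * y) ^ (1 / 4 : ℝ) ≤ ((y / 2) ^ (2 : ℝ)) ^ (1 / 4 : ℝ) :=
          Real.rpow_le_rpow (by positivity) h6 (by norm_num)
      _ = (y / 2) ^ (1 / 2 : ℝ) := by rw [← Real.rpow_mul (by positivity)]; norm_num
      _ ≤ _ := Real.rpow_le_rpow (by positivity) (by linarith) (by norm_num)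
  have c1 : (S1.card : ℝ) ≤ 4 * (y / Real.log y ^ A) := by
    have := h1 S1 (fun n hn => by
      rw [hS1, mem_filter] at hn
      obtain ⟨⟨a1, a2⟩, a3⟩ := hS n hn.1
      refine ⟨?_, a2, fun h => hn.2 (h.mono (hq n a1))⟩
      have : (0 : ℝ) < n := by linarith
      exact_mod_cast this)
    refine this.trans ?_
    have h7 : Real.log y ^ A ≤ Real.log (2 * y) ^ A :=
      Real.rpow_le_rpow hlog.le (Real.log_le_log hy0 (by linarith)) hA
    calc 2 * (2 * y / Real.log (2 * y) ^ A) ≤ 2 * (2 * y / Real.log y ^ A) := by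
          apply mul_le_mul_of_nonneg_left _ (by norm_num)
          exact div_le_div_of_nonneg_left (by positivity) (by positivity) h7
      _ = _ := by ring
  have c2 : (S2.card : ℝ) ≤ 2 * (y / Real.log y ^ A) := by
    have hsq : Real.sqrt (2 * y) < y := by
      rw [Real.sqrt_lt' hy0]
      nlinarith
    have := reached_card (Real.sqrt_nonneg (2 * y)) (J := J) S2 (fun a ha => by
        rw [hS2, mem_filter] at ha
        linarith [(hS a ha.1).1.1])
      (fun a ha => by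
        rw [hS2, mem_filter] at ha
        obtain ⟨⟨a1, a2⟩, a3⟩ := hS a ha.1
        have ha0 : 0 < a := by
          have : (0 : ℝ) < a := by linarith
          exact_mod_cast this
        obtain ⟨m0, b1, b2, _⟩ := ha.2.time ha0 le_rfl
        refine ⟨m0, ?_, b2.trans (Real.sqrt_le_sqrt (by linarith))⟩
        have h6 : Real.log a ≤ Real.log 2 + Real.log y := by
          rw [← Real.log_mul (by norm_num) hy0.ne']
          exact Real.log_le_log (by exact_mod_cast ha0) a2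
        have h7 : Real.log 2 ≤ Real.log y := Real.log_le_log (by norm_num) (by linarith)
        have : (m0 : ℝ) ≤ J := by linarith
        exact_mod_cast this)
      (fun a ha => by
        rw [hS2, mem_filter] at ha
        obtain ⟨⟨a1, a2⟩, a3⟩ := hS a ha.1
        by_contra hcon
        push Not at hcon
        exact a3 ⟨ha.2, fun b hb hbY j hj => hcon b hb (hbY.trans (Real.sqrt_le_sqrt a2)) j hj⟩)
    refine this.trans ?_
    rw [mul_div_assoc', le_div_iff₀ (by positivity)]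
    have h8 : Real.log y ^ A * (17 * Real.log y) ≤ Real.sqrt y := by
      rw [Real.sqrt_eq_rpow]
      refine le_trans ?_ h3
      rw [Real.rpow_add hlog]
      apply mul_le_mul_of_nonneg_left _ (by positivity)
      rw [show Real.log y ^ (2 : ℝ) = Real.log y ^ (2 : ℕ) by norm_cast]
      nlinarith
    have h9 : Real.sqrt (2 * y) ≤ 2 * Real.sqrt y := by
      rw [Real.sqrt_le_left (by positivity), mul_pow, Real.sq_sqrt hy0.le]
      linarith
    calc Real.sqrt (2 * y) * J * Real.log y ^ A ≤ 2 * Real.sqrt y * (17 * Real.log y) * Real.log y ^ A := by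
          apply mul_le_mul_of_nonneg_right _ (by positivity)
          exact mul_le_mul h9 hJ2 (by positivity) (by positivity)
      _ = 2 * Real.sqrt y * (Real.log y ^ A * (17 * Real.log y)) := by ring
      _ ≤ 2 * Real.sqrt y * Real.sqrt y := mul_le_mul_of_nonneg_left h8 (by positivity)
      _ = 2 * y := by rw [mul_assoc, Real.mul_self_sqrt hy0.le]
  have : (S.card : ℝ) = S1.card + S2.card := by exact_mod_cast hcard.symm
  rw [this]
  linarith

/-- the complement of `Gs` is small -/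
theorem Gs_compl (A : ℕ) : ∀ᶠ x : ℝ in atTop, ∀ S : Finset ℕ, (∀ a ∈ S, (1 ≤ a ∧ (a : ℝ) ≤ x) ∧ a ∉ Gs) →
    (S.card : ℝ) ≤ x / Real.log x ^ A := by
  obtain ⟨y1, hy1⟩ := eventually_atTop.1 (Gs_bad ((A + 1 : ℕ) : ℝ) (Nat.cast_nonneg _))
  have hsq : Tendsto (fun x : ℝ => Real.sqrt x) atTop atTop := Real.tendsto_sqrt_atTop
  have e1 := hsq.eventually_ge_atTop (max y1 2)
  have e2 : ∀ᶠ x : ℝ in atTop, ‖Real.log x ^ ((A : ℝ))‖ ≤ (1 / 4) * ‖x ^ (1 / 2 : ℝ)‖ :=
    (isLittleO_log_rpow_rpow_atTop (A : ℝ) (by norm_num : (0 : ℝ) < 1 / 2)).bound (by norm_num)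
  have e3 : ∀ᶠ x : ℝ in atTop, (12 * 2 ^ (A + 1) : ℝ) ≤ Real.log x := Real.tendsto_log_atTop.eventually_ge_atTop _
  filter_upwards [e1, e2, e3, eventually_ge_atTop 1] with x h1 h2 h3 h4
  intro S hS
  have hx0 : 0 < x := by linarith
  have h2A : (1 : ℝ) ≤ 2 ^ (A + 1) := one_le_pow₀ (by norm_num)
  have hlog : 0 < Real.log x := by linarith
  rw [Real.norm_of_nonneg (by positivity), Real.norm_of_nonneg (by positivity), ← Real.sqrt_eq_rpow,
    Real.rpow_natCast] at h2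
  have hq2 : 2 ≤ Real.sqrt x := (le_max_right _ _).trans h1
  have hqy : y1 ≤ Real.sqrt x := (le_max_left _ _).trans h1
  have hlq : Real.log (Real.sqrt x) = Real.log x / 2 := Real.log_sqrt hx0.le
  obtain ⟨n, hn⟩ := pow_unbounded_of_one_lt x (by norm_num : (1 : ℝ) < 2)
  have hκ0 : 0 ≤ 6 / (Real.log x / 2) ^ (A + 1) := by positivity
  have := dyadic (P := fun a => a ∉ Gs) (κ := 6 / (Real.log x / 2) ^ (A + 1)) (y0 := Real.sqrt x) hκ0
    (by linarith) (by
      intro y hy S hS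
      have h5 := hy1 y (hqy.trans hy) S hS
      rw [Real.rpow_natCast] at h5
      refine h5.trans ?_
      have h6 : Real.log x / 2 ≤ Real.log y := by
        rw [← hlq]; exact Real.log_le_log (by linarith) hy
      have h7 : (Real.log x / 2) ^ (A + 1) ≤ Real.log y ^ (A + 1) := pow_le_pow_left₀ (by positivity) h6 _
      have hy0 : 0 < y := by linarith
      calc 6 * (y / Real.log y ^ (A + 1)) ≤ 6 * (y / (Real.log x / 2) ^ (A + 1)) := by
            apply mul_le_mul_of_nonneg_left _ (by norm_num)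
            exact div_le_div_of_nonneg_left hy0.le (by positivity) h7
        _ = _ := by ring) n x hx0.le (by
      have : (2 : ℝ) ^ n ≤ 2 ^ n * Real.sqrt x := le_mul_of_one_le_right (by positivity) (by linarith)
      linarith) S hS
  refine this.trans ?_
  rw [le_div_iff₀ (by positivity), add_mul]
  have g1 : 6 / (Real.log x / 2) ^ (A + 1) * x * Real.log x ^ A ≤ x / 2 := by
    have g2 : 6 / (Real.log x / 2) ^ (A + 1) * x * Real.log x ^ A = (6 * 2 ^ (A + 1) / Real.log x) * x := by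
      rw [div_pow, pow_succ (Real.log x)]
      field_simp
    rw [g2]
    have g3 : 6 * 2 ^ (A + 1) / Real.log x ≤ 1 / 2 := by
      rw [div_le_iff₀ hlog]; linarith
    have := mul_le_mul_of_nonneg_right g3 hx0.le
    linarith
  have g4 : 2 * Real.sqrt x * Real.log x ^ A ≤ x / 2 := by
    have := mul_le_mul_of_nonneg_left h2 (by positivity : 0 ≤ 2 * Real.sqrt x)
    have g5 : 2 * Real.sqrt x * (1 / 4 * Real.sqrt x) = (Real.sqrt x * Real.sqrt x) / 2 := by ring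
    rw [g5, Real.mul_self_sqrt hx0.le] at this
    exact this
  linarith

/-- THE L1 ASYMPTOTICS -/
theorem asymp_L1 (B : ℕ) : ∃ C : ℝ, 0 < C ∧ ∀ D : ℕ → ℝ,
    (∀ a : ℕ, 0 < a → Tendsto (Fd (Pr a)) atTop (𝓝 (D a / 3))) → ∀ m : ℕ, 1 ≤ m →
    ∀ᶠ x : ℝ in atTop, ∀ S : Finset ℕ, (∀ a ∈ S, (1 ≤ a ∧ (a : ℝ) ≤ x) ∧ a ∈ Gs) →
      ∑ a ∈ S, |a * D a - 2 / Real.log (4 / 3) * (3 ^ m * pN (4 * m) m a)| ≤ C / (m : ℝ) ^ B * x := by
  obtain ⟨C, hC, h⟩ := block_L1 B
  refine ⟨2 * C, by positivity, ?_⟩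
  intro D hD m hm
  have hmR : (1 : ℝ) ≤ m := by exact_mod_cast hm
  obtain ⟨y1, hy1⟩ := eventually_atTop.1 (h D hD m hm)
  set κ := C / (m : ℝ) ^ B with hκ
  have hκ0 : 0 < κ := by positivity
  set y0 := max y1 1 with hy0
  have hy01 : 1 ≤ y0 := le_max_right _ _
  set f : ℕ → ℝ := fun a => |a * D a - 2 / Real.log (4 / 3) * (3 ^ m * pN (4 * m) m a)| with hf
  set M := ∑ a ∈ Icc 1 ⌊2 * y0⌋₊, f a with hM
  filter_upwards [eventually_ge_atTop (M / κ), eventually_ge_atTop 0] with x hx hx0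
  intro S hS
  obtain ⟨n, hn⟩ := pow_unbounded_of_one_lt x (by norm_num : (1 : ℝ) < 2)
  have h1 := dyadic_sum (P := fun a : ℕ => a ∈ Gs) (f := f) (fun a => abs_nonneg _)
    hκ0.le hy01 (fun y hy S hS => hy1 y ((le_max_left _ _).trans hy) S
      (fun a ha => Gs_sub (hS a ha).1.1 (hS a ha).1.2 (hS a ha).2)) n x hx0 (by
      have : (2 : ℝ) ^ n ≤ 2 ^ n * y0 := le_mul_of_one_le_right (by positivity) hy01
      linarith) S hS
  rw [div_le_iff₀ hκ0] at hx
  have h2 : 2 * C / (m : ℝ) ^ B * x = κ * x + κ * x := by rw [hκ]; ring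
  rw [h2]
  linarith

/-- existence of the densities of the predecessor sets -/
theorem dens_exists (a : ℕ) : ∃ l : ℝ, Tendsto (fun X : ℝ => G (Pr a) X / X) atTop (𝓝 l) := by
  apply Pool.Agent.H499R2.LT.density_AI (d := 1) odd_one isCoprime_one_left
    (Pool.Agent.H499R2.LT.RF_FC 1 {(a : ℤ)}) (Pool.Agent.H499R2.LT.RF_SpW odd_one isCoprime_one_left {(a : ℤ)})
  intro x hx
  apply Pr_step
  rintro rfl
  exact hx (Pool.Agent.H499R2.LT.RF_sub 1 (mem_singleton_self _))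

theorem Fd_lim {S : Set ℤ} {l : ℝ} (h : Tendsto (fun X : ℝ => G S X / X) atTop (𝓝 l)) :
    Tendsto (Fd S) atTop (𝓝 (l / 3)) := by
  have h1 : Tendsto (fun t : ℝ => G S (2 * Real.exp t) / (2 * Real.exp t)) atTop (𝓝 l) :=
    h.comp (Real.tendsto_exp_atTop.const_mul_atTop (by norm_num))
  have h2 : Tendsto (fun t : ℝ => G S (Real.exp t) / Real.exp t) atTop (𝓝 l) := h.comp Real.tendsto_exp_atTop
  have h3 := (h1.const_mul (2 / 3)).sub (h2.const_mul (1 / 3))
  have h4 : 2 / 3 * l - 1 / 3 * l = l / 3 := by ring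
  rw [h4] at h3
  refine h3.congr fun t => ?_
  have he := Real.exp_pos t
  unfold Pool.Agent.H499R2.ND.Fd
  field_simp

end Pool.Agent.V11311.PD
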