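import Pool.Agent.H499R2.LT.B1
import Pool.Agent.H499R2.LT.A
import Pool.Agent.H499R2.LT.B3

/-! Predecessor densities, part 1: sets which are invariant above a height are equidistributed mod 3
above a slightly larger height, with constants independent of the height. -/

set_option autoImplicit false

namespace Pool.Agent.V11311.PD

open Pool.Agent.H320R2.PD Finset Filter Topology

open Pool.Agent.H499R2.ND hiding La Ea Me FC

open Pool.Agent.H499R2.CZ Pool.Agent.H499R2.LT Pool.Agent.H499R2.LT.B1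

/-- the integers at most `Y` -/
def Rg (Y : ℝ) : Set ℤ := {x : ℤ | (x : ℝ) ≤ Y}

theorem AI_iter {Y : ℝ} {S : Set ℤ} (hS : AI 1 (Rg Y) S) (i : ℕ) : ∀ M : ℤ,
    (∀ j < i, Y < (((Td 1)^[j] M : ℤ) : ℝ)) → (M ∈ S ↔ (Td 1)^[i] M ∈ S) := by
  induction i with
  | zero => intro M _; rfl
  | succ i ih =>
    intro M h
    rw [ih M (fun j hj => h j (by omega)), Function.iterate_succ_apply']
    exact hS _ (by
      intro hc
      have := h i (by omega)
      exact absurd hc (not_le.2 this))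

theorem Td_ge_half {x : ℤ} (hx : 0 ≤ x) : (x : ℝ) / 2 ≤ ((Td 1 x : ℤ) : ℝ) ∧ 0 ≤ Td 1 x := by
  unfold Td
  split_ifs with h
  · have h1 : 2 * (x / 2) = x := by omega
    have h2 : (2 : ℝ) * ((x / 2 : ℤ) : ℝ) = x := by exact_mod_cast h1
    exact ⟨by linarith, by omega⟩
  · have h1 : x ≤ 2 * ((3 * x + 1) / 2) := by omega
    have h2 : (x : ℝ) ≤ 2 * (((3 * x + 1) / 2 : ℤ) : ℝ) := by exact_mod_cast h1
    exact ⟨by linarith, by omega⟩

theorem Td_iter_ge (j : ℕ) : ∀ {x : ℤ}, 0 ≤ x → (x : ℝ) / 2 ^ j ≤ (((Td 1)^[j] x : ℤ) : ℝ) ∧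
    0 ≤ (Td 1)^[j] x := by
  induction j with
  | zero => intro x hx; simpa using hx
  | succ j ih =>
    intro x hx
    obtain ⟨h1, h2⟩ := Td_ge_half hx
    obtain ⟨h3, h4⟩ := ih h2
    rw [Function.iterate_succ_apply]
    refine ⟨le_trans ?_ h3, h4⟩
    rw [pow_succ, mul_comm, ← div_div]
    exact div_le_div_of_nonneg_right h1 (by positivity)

/-- membership is preserved along the words of one stage -/
theorem AI_word {Y : ℝ} {S : Set ℤ} (hS : AI 1 (Rg Y) S) {A : ℝ} (hA : 0 < A) {Tm : ℕ}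
    (hY : Y * 2 ^ Tm < A) {w : List ℕ} (hw : ∀ a ∈ w, 1 ≤ a) (hsum : w.sum ≤ Tm) {M x : ℤ}
    (hM : Odd M) (hx : Odd x) (hAM : A ≤ (M : ℝ)) (hV : Vw 1 w M x) : M ∈ S ↔ x ∈ S := by
  obtain ⟨h1, -⟩ := word_od (d := 1) odd_one hw hM hx hV
  rw [← h1]
  apply AI_iter hS
  intro j hj
  have hM0 : (0 : ℝ) < M := by linarith
  have hM0' : 0 ≤ M := by
    have : (0 : ℤ) < M := by exact_mod_cast hM0
    omega
  obtain ⟨h2, -⟩ := Td_iter_ge j hM0'
  refine lt_of_lt_of_le ?_ h2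
  rw [lt_div_iff₀ (by positivity)]
  have h3 : (2 : ℝ) ^ j ≤ 2 ^ Tm := pow_le_pow_right₀ (by norm_num) (by omega)
  rcases le_or_gt 0 Y with h4 | h4
  · have := mul_le_mul_of_nonneg_left h3 h4
    linarith
  · have : Y * 2 ^ j < 0 := mul_neg_of_neg_of_pos h4 (by positivity)
    linarith

theorem AI_compl {d : ℤ} {R S : Set ℤ} (hS : AI d R S) : AI d R Sᶜ := by
  intro x hx
  rw [Set.mem_compl_iff, Set.mem_compl_iff, hS x hx]

theorem Err_mono (d : ℤ) {A0 A : ℝ} (hA0 : 0 < A0) (h : A0 ≤ A) (k m m' : ℕ) :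
    Err d A k m m' ≤ Err d A0 k m m' := by
  unfold Err
  have hδnn : 0 ≤ ∑ T ∈ range (k * (3 * k) + 1), dev (FWT (3 * k) k T) wwt (fun w => (Wo w : ℤ)) (k + m) m' :=
    sum_nonneg fun _ _ => sum_nonneg fun _ _ => abs_nonneg _
  have h1 : (2 * 3 ^ m / A : ℝ) ≤ 2 * 3 ^ m / A0 :=
    div_le_div_of_nonneg_left (by positivity) hA0 h
  have h2 : (2 : ℝ) ^ (41 * k / 20) * (2 * 3 ^ m / A) ≤ 2 ^ (41 * k / 20) * (2 * 3 ^ m / A0) :=
    mul_le_mul_of_nonneg_left h1 (by positivity)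
  have h3 := mul_le_mul_of_nonneg_right (add_le_add_right h2 1) hδnn
  have h4 : (1 + (|(d : ℝ)| + 2) * 2 ^ (41 * k / 20)) * (2 * 3 ^ m / A)
      ≤ (1 + (|(d : ℝ)| + 2) * 2 ^ (41 * k / 20)) * (2 * 3 ^ m / A0) :=
    mul_le_mul_of_nonneg_left h1 (by positivity)
  linarith

theorem PB_empty (A : ℝ) (m : ℕ) : PB ∅ A m 0 := by
  intro u v _
  have : cls (∅ : Set ℤ) A (2 * A) m u v = ∅ := by
    rw [Finset.eq_empty_iff_forall_notMem]
    intro x hx
    rw [mem_cls] at hx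
    exact hx.2.2.1
  rw [this]
  simp

/-- EQUIDISTRIBUTION of the odd elements in the classes mod `3^m` -/
theorem equi_odd (B : ℕ) : ∃ C : ℝ, 0 < C ∧ ∀ (Y : ℝ) (S : Set ℤ), AI 1 (Rg Y) S → ∀ A : ℝ, 0 < A →
    26000 ≤ Real.log A → Y < Real.exp (0.97 * Real.log A) → ∀ m : ℕ, m ≤ 1 → ∀ c c' : ℤ,
      ((cls S A (2 * A) m 1 c).card : ℝ)
        ≤ (cls S A (2 * A) m 1 c').card + C / (Real.log A) ^ B * (A / (2 * 3 ^ m)) := by
  obtain ⟨C, hC, herr⟩ := err_bound B 1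
  refine ⟨3 * (C * 26 ^ B), by positivity, ?_⟩
  intro Y S hS A hA ht hY m hm c c'
  set t := Real.log A with htdef
  have htpos : 0 < t := by linarith
  have hexpA : Real.exp t = A := Real.exp_log hA
  obtain ⟨k, hk⟩ : ∃ k : ℕ, k = ⌊t / 50⌋₊ := ⟨_, rfl⟩
  have hk1 : (k : ℝ) ≤ t / 50 := by rw [hk]; exact Nat.floor_le (by linarith)
  have hk2 : t / 50 - 1 ≤ k := by rw [hk]; linarith [Nat.lt_floor_add_one (t / 50)]
  have hkR : (500 : ℝ) ≤ k := by linarith
  have hk1N : 1 ≤ k := by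
    have : (1 : ℝ) ≤ k := by linarith
    exact_mod_cast this
  set A0 := Real.exp (2 * (k : ℝ) + 1) with hA0
  have hA0pos : 0 < A0 := Real.exp_pos _
  have hlogA0 : Real.log A0 = 2 * (k : ℝ) + 1 := Real.log_exp _
  have hA0A : A0 ≤ A := by
    rw [hA0, ← hexpA]
    apply Real.exp_le_exp.2
    linarith
  obtain ⟨m', hm'⟩ : ∃ m' : ℕ, m' = ⌊Real.sqrt (0.8 * (2 * (k : ℝ) + 1))⌋₊ := ⟨_, rfl⟩
  have hm'sq : (m' : ℝ) ^ 2 ≤ 0.8 * (2 * (k : ℝ) + 1) := by
    have h1 : (m' : ℝ) ≤ Real.sqrt (0.8 * (2 * (k : ℝ) + 1)) := by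
      rw [hm']; exact Nat.floor_le (Real.sqrt_nonneg _)
    calc (m' : ℝ) ^ 2 ≤ (Real.sqrt (0.8 * (2 * (k : ℝ) + 1))) ^ 2 :=
          pow_le_pow_left₀ (Nat.cast_nonneg _) h1 2
      _ = _ := Real.sq_sqrt (by positivity)
  have hm'k : m' ≤ k := by
    have : (m' : ℝ) ≤ k := by
      have h0 : (0 : ℝ) ≤ m' := Nat.cast_nonneg _
      by_contra hcon
      push Not at hcon
      nlinarith
    exact_mod_cast this
  have hmR : (m : ℝ) ≤ 1 := by exact_mod_cast hm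
  have hE0 := herr A0 hA0pos (by rw [hlogA0]; linarith) k m m' (by
      rw [hlogA0]
      have h0 : (0 : ℝ) ≤ m := Nat.cast_nonneg _
      nlinarith) (by
      rw [hlogA0]
      symm
      rw [Nat.floor_eq_iff (by positivity)]
      constructor <;> linarith) (by rw [hlogA0]; exact hm')
  have hE : Err 1 A k m m' ≤ C * 26 ^ B / t ^ B := by
    refine (Err_mono 1 hA0pos hA0A k m m').trans (hE0.trans ?_)
    rw [hlogA0]
    have h1 : t / 26 ≤ 2 * (k : ℝ) + 1 := by linarith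
    have h2 : (t / 26) ^ B ≤ (2 * (k : ℝ) + 1) ^ B := pow_le_pow_left₀ (by positivity) h1 B
    calc C / (2 * (k : ℝ) + 1) ^ B ≤ C / (t / 26) ^ B :=
          div_le_div_of_nonneg_left hC.le (by positivity) h2
      _ = _ := by rw [div_pow]; field_simp
  have hYr : 0 < A / (2 * 3 ^ m) := by positivity
  -- the path condition
  have hpow := pow_tm_le (t := t / 25) (by positivity) (k := k) (by linarith)
  have hYA : Y * 2 ^ (41 * k / 20) < A := by
    rcases le_or_gt Y 0 with h0 | h0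
    · have : Y * 2 ^ (41 * k / 20) ≤ 0 := mul_nonpos_of_nonpos_of_nonneg h0 (by positivity)
      linarith
    · calc Y * 2 ^ (41 * k / 20) < Real.exp (0.97 * t) * 2 ^ (41 * k / 20) :=
            mul_lt_mul_of_pos_right hY (by positivity)
        _ ≤ Real.exp (0.97 * t) * Real.exp (0.7106 * (t / 25)) :=
            mul_le_mul_of_nonneg_left hpow (Real.exp_pos _).le
        _ = Real.exp (0.97 * t + 0.7106 * (t / 25)) := by rw [Real.exp_add]
        _ ≤ A := by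
            rw [← hexpA]
            apply Real.exp_le_exp.2
            linarith
  have hlen : ∀ w ∈ GW (3 * k) k ((39 * k + 19) / 20) (41 * k / 20), (∀ a ∈ w, 1 ≤ a) ∧
      w.sum ≤ 41 * k / 20 := by
    intro w hw
    unfold GW at hw; rw [mem_filter] at hw
    exact ⟨(FW_props hw.1).2, hw.2.2⟩
  have h1 := starG' (d := 1) odd_one isCoprime_one_left (S := S) (fun _ : ℕ => S ∪ ∅) hA
    (fun w hw M x hM hx hAM _ hMS hV => by
      rw [Set.union_empty]
      exact (AI_word hS hA hYA (hlen w hw).1 (hlen w hw).2 hM hx hAM hV).1 hMS) hk1N hm'k (m := m) c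
  have h2 := starG' (d := 1) odd_one isCoprime_one_left (S := Sᶜ) (fun _ : ℕ => Sᶜ ∪ ∅) hA
    (fun w hw M x hM hx hAM _ hMS hV => by
      rw [Set.union_empty]
      exact (AI_word (AI_compl hS) hA hYA (hlen w hw).1 (hlen w hw).2 hM hx hAM hV).1 hMS)
    hk1N hm'k (m := m) c'
  have h3 := MnG_add 1 (fun _ : ℕ => S) ∅ hA (m := m) hm'k (le_refl (0 : ℝ)) (fun T _ _ => PB_empty _ _)
  have h4 := cls_compl S A (2 * A) m 1 c'
  have h5 := le_cls_univ A (2 * A) m isCoprime_one_left c'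
  rw [show 2 * A - A = A by ring] at h5
  -- `1 + 2^Tm ≤ Err * Y`
  have h6 : 1 + 2 ^ (41 * k / 20) ≤ Err 1 A k m m' * (A / (2 * 3 ^ m)) := by
    unfold Err
    set G := GW (3 * k) k ((39 * k + 19) / 20) (41 * k / 20) with hG
    set δ := ∑ T ∈ range (k * (3 * k) + 1), dev (FWT (3 * k) k T) wwt (fun w => (Wo w : ℤ)) (k + m) m'
      with hδ
    set X := (2 : ℝ) ^ (41 * k / 20)
    set Y := A / (2 * 3 ^ m) with hYdef
    set Z := 2 * 3 ^ m / A with hZ
    set μ := ∑ w ∈ G, wwt w with hμ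
    have hfac : Y * Z = 1 := by rw [hYdef, hZ]; field_simp
    have : ((1 + X * Z) * δ + (1 - μ) + (1 + (|((1 : ℤ) : ℝ)| + 2) * X) * Z) * Y
        = (Y + X * (Y * Z)) * δ + Y * (1 - μ) + (1 + (|((1 : ℤ) : ℝ)| + 2) * X) * (Y * Z) := by ring
    rw [this, hfac]
    have hX : 0 < X := by positivity
    have hδnn : 0 ≤ δ := sum_nonneg fun _ _ => sum_nonneg fun _ _ => abs_nonneg _
    have hμ1 : μ ≤ 1 := by
      refine le_trans ?_ (sum_wwt_le (3 * k) k)
      rw [hμ, hG]; unfold GW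
      apply sum_le_sum_of_subset_of_nonneg (filter_subset _ _)
      intro w _ _; unfold wwt; positivity
    have e1 : 0 ≤ (Y + X * 1) * δ := by positivity
    have e2 : 0 ≤ Y * (1 - μ) := mul_nonneg hYr.le (by linarith)
    have e3 : 0 ≤ |((1 : ℤ) : ℝ)| * X := by positivity
    nlinarith
  have h7 : Err 1 A k m m' * (A / (2 * 3 ^ m)) ≤ C * 26 ^ B / t ^ B * (A / (2 * 3 ^ m)) :=
    mul_le_mul_of_nonneg_right hE hYr.le
  have h8 : (3 * (C * 26 ^ B)) / t ^ B * (A / (2 * 3 ^ m))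
      = 3 * (C * 26 ^ B / t ^ B * (A / (2 * 3 ^ m))) := by ring
  rw [h8]
  linarith

end Pool.Agent.V11311.PD
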