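import Pool.Agent.V11311.PD.P9

/-! Predecessor densities, part 10: upper bound for the logarithmic sum over a window. -/

set_option autoImplicit false

namespace Pool.Agent.V11311.PD

open Finset Filter Topology Pool.Agent.H320R2.PD

open Pool.Agent.Helper894.Collatz (T od)

open Pool.Agent.H377R2 (iter_pos)

open Pool.Agent.H319R2.Lln (mu mu_lower mu_upper mu_eq)

open scoped Classical in
theorem atyp_sum (ε : ℝ) (hε : 0 < ε) (A : ℕ) : ∀ᶠ y : ℝ in atTop, ∀ X1 X2 : ℝ, y ≤ X1 →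
    X2 ≤ y ^ (3 / 2 : ℝ) →
    ∑ x ∈ (Ico ⌈X1⌉₊ ⌈X2⌉₊).filter (fun x => ¬ Typ ε (Real.sqrt y) x), (1 : ℝ) / x ≤ 1 / Real.log y ^ A := by
  have e1 := (eventually_forall_ge_atTop.2 (typ_card ε ((A + 2 : ℕ) : ℝ) hε (Nat.cast_nonneg _)))
  have e2 : ∀ᶠ y : ℝ in atTop, 20 ≤ Real.log y := Real.tendsto_log_atTop.eventually_ge_atTop 20
  filter_upwards [e1, e2, eventually_ge_atTop 16] with y h1 h2 h3
  intro X1 X2 hX1 hX2
  have hy0 : 0 < y := by linarith
  set L := Real.log y with hL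
  have hL0 : 0 < L := by linarith
  set F := (Ico ⌈X1⌉₊ ⌈X2⌉₊).filter (fun x => ¬ Typ ε (Real.sqrt y) x) with hF
  have hFx : ∀ x ∈ F, X1 ≤ (x : ℝ) ∧ (x : ℝ) < X2 ∧ ¬ Typ ε (Real.sqrt y) x := by
    intro x hx
    rw [hF, mem_filter, mem_Ico] at hx
    exact ⟨(Nat.le_ceil X1).trans (by exact_mod_cast hx.1.1), Nat.lt_ceil.1 hx.1.2, hx.2⟩
  obtain ⟨N, hN⟩ : ∃ N : ℕ, N = ⌈4 * L⌉₊ := ⟨_, rfl⟩
  have hN1 : 4 * L ≤ N := by rw [hN]; exact Nat.le_ceil _
  have hN2 : (N : ℝ) ≤ 5 * L := by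
    rw [hN]
    have := Nat.ceil_lt_add_one (by positivity : 0 ≤ 4 * L)
    linarith
  have hl2 := Real.log_two_gt_d9
  have hmaps : ∀ x ∈ F, Nat.log 2 x ∈ range N := by
    intro x hx
    obtain ⟨a1, a2, _⟩ := hFx x hx
    have hxR : (0 : ℝ) < x := by linarith
    have hx0 : x ≠ 0 := by
      have : 0 < x := by exact_mod_cast hxR
      omega
    rw [mem_range]
    have h4 : 2 ^ Nat.log 2 x ≤ x := Nat.pow_log_le_self 2 hx0
    have h5 : (2 : ℝ) ^ Nat.log 2 x ≤ x := by exact_mod_cast h4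
    have h6 : (Nat.log 2 x : ℝ) * Real.log 2 ≤ 3 / 2 * L := by
      rw [← Real.log_pow, hL, ← Real.log_rpow hy0]
      exact Real.log_le_log (by positivity) (h5.trans (a2.le.trans hX2))
    have h7 : (Nat.log 2 x : ℝ) < N := by nlinarith
    exact_mod_cast h7
  rw [← sum_fiberwise_of_maps_to hmaps]
  have hblock : ∀ i ∈ range N, ∑ x ∈ F.filter (fun x => Nat.log 2 x = i), (1 : ℝ) / x ≤ 4 / L ^ (A + 2) := by
    intro i _
    rcases (F.filter (fun x => Nat.log 2 x = i)).eq_empty_or_nonempty with h0 | ⟨x0, hx0⟩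
    · rw [h0, sum_empty]; positivity
    have hxi : ∀ x ∈ F.filter (fun x => Nat.log 2 x = i), (2 : ℝ) ^ i ≤ x ∧ (x : ℝ) < 2 ^ (i + 1) := by
      intro x hx
      rw [mem_filter] at hx
      obtain ⟨a1, a2, _⟩ := hFx x hx.1
      have hxR : (0 : ℝ) < x := by linarith
      have hx0 : x ≠ 0 := by
        have : 0 < x := by exact_mod_cast hxR
        omega
      have h4 : 2 ^ Nat.log 2 x ≤ x := Nat.pow_log_le_self 2 hx0
      have h5 : x < 2 ^ (Nat.log 2 x + 1) := Nat.lt_pow_succ_log_self (by norm_num) x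
      rw [hx.2] at h4 h5
      exact ⟨by exact_mod_cast h4, by exact_mod_cast h5⟩
    set X : ℝ := 2 ^ (i + 1) with hX
    have hyX : y ≤ X := by
      have := (hxi x0 hx0).2
      have h4 := (hFx x0 (mem_filter.1 hx0).1).1
      linarith
    have hXup : X ≤ 2 * y ^ (3 / 2 : ℝ) := by
      have := (hxi x0 hx0).1
      have h4 := (hFx x0 (mem_filter.1 hx0).1).2.1
      rw [hX, pow_succ]; linarith
    have hX4 : X ^ (1 / 4 : ℝ) ≤ Real.sqrt y := by
      rw [Real.sqrt_eq_rpow]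
      have h6 : 2 * y ^ (3 / 2 : ℝ) ≤ y ^ (2 : ℝ) := by
        have h7 : y ^ (2 : ℝ) = y ^ (1 / 2 : ℝ) * y ^ (3 / 2 : ℝ) := by
          rw [← Real.rpow_add hy0]; norm_num
        rw [h7]
        apply mul_le_mul_of_nonneg_right _ (by positivity)
        rw [← Real.sqrt_eq_rpow]
        apply Real.le_sqrt_of_sq_le
        linarith
      calc X ^ (1 / 4 : ℝ) ≤ (y ^ (2 : ℝ)) ^ (1 / 4 : ℝ) :=
            Real.rpow_le_rpow (by positivity) (hXup.trans h6) (by norm_num)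
        _ = y ^ (1 / 2 : ℝ) := by rw [← Real.rpow_mul hy0.le]; norm_num
    have hc := h1 X hyX (F.filter (fun x => Nat.log 2 x = i)) (fun n hn => by
      have h4 := hxi n hn
      have h5 := hFx n (mem_filter.1 hn).1
      refine ⟨?_, h4.2.le, fun h => h5.2.2 (h.mono hX4)⟩
      have : (0 : ℝ) < n := by linarith
      exact_mod_cast this)
    rw [Real.rpow_natCast] at hc
    have hlX : L ≤ Real.log X := Real.log_le_log hy0 hyX
    calc ∑ x ∈ F.filter (fun x => Nat.log 2 x = i), (1 : ℝ) / x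
        ≤ ∑ x ∈ F.filter (fun x => Nat.log 2 x = i), (1 : ℝ) / 2 ^ i := by
          apply sum_le_sum
          intro x hx
          exact one_div_le_one_div_of_le (by positivity) (hxi x hx).1
      _ = (F.filter (fun x => Nat.log 2 x = i)).card * (1 / 2 ^ i) := by
          rw [sum_const, nsmul_eq_mul]
      _ ≤ 2 * (X / Real.log X ^ (A + 2)) * (1 / 2 ^ i) :=
          mul_le_mul_of_nonneg_right hc (by positivity)
      _ = 4 / Real.log X ^ (A + 2) := by rw [hX, pow_succ]; field_simp; ring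
      _ ≤ 4 / L ^ (A + 2) := by
          apply div_le_div_of_nonneg_left (by norm_num) (by positivity)
          exact pow_le_pow_left₀ hL0.le hlX _
  refine (sum_le_sum hblock).trans ?_
  rw [sum_const, card_range, nsmul_eq_mul]
  calc (N : ℝ) * (4 / L ^ (A + 2)) ≤ (5 * L) * (4 / L ^ (A + 2)) :=
        mul_le_mul_of_nonneg_right hN2 (by positivity)
    _ = 20 * L / (L ^ A * L ^ 2) := by rw [pow_add]; ring
    _ ≤ 1 / L ^ A := by
        rw [div_le_div_iff₀ (by positivity) (by positivity)]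
        have h5 : 0 < L ^ A := by positivity
        have h6 : 20 * L ≤ L ^ 2 := by nlinarith
        have h7 := mul_le_mul_of_nonneg_right h6 h5.le
        linarith

open scoped Classical in
/-- logarithmic sum of the predecessors of the elements of `S` in a window -/
noncomputable def WN (S : Finset ℕ) (X1 X2 : ℝ) : ℝ :=
  ∑ a ∈ S, ∑ x ∈ (Ico ⌈X1⌉₊ ⌈X2⌉₊).filter (fun x => Vis x a), (1 : ℝ) / x

/-- the cap on the letters -/
noncomputable def cp (y : ℝ) : ℕ := ⌈10 * Real.log y⌉₊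

/-- the average of the normalised masses -/
noncomputable def Hm (y : ℝ) (m : ℕ) (S : Finset ℕ) : ℝ := ∑ a ∈ S, (1 / (a : ℝ)) * (3 ^ m * cW (cp y) m m a)

theorem cp_bounds {y : ℝ} (h : 1 ≤ Real.log y) : 10 * Real.log y ≤ cp y ∧ (cp y : ℝ) ≤ 11 * Real.log y := by
  unfold cp
  refine ⟨Nat.le_ceil _, ?_⟩
  have := Nat.ceil_lt_add_one (by positivity : 0 ≤ 10 * Real.log y)
  linarith

/-- elementary facts for large `y` -/
theorem large_y (ε : ℝ) (hε : 0 < ε) (κ : ℝ) (hκ : 0 < κ) : ∀ᶠ y : ℝ in atTop,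
    4 ≤ y ∧ 20 * Real.log y ≤ Real.sqrt y ∧ (1 + 1 / Real.sqrt y) ^ cp y ≤ 1 + ε ∧
    2 * (cp y : ℝ) * (1 / 2) ^ cp y ≤ κ ∧ 17 * Real.log y * (1 / Real.log y ^ 2) ≤ ε := by
  have e1 : ∀ᶠ y : ℝ in atTop, ‖Real.log y‖ ≤ min (1 / 20) (min (ε / 22) (1 / 22)) * ‖y ^ (1 / 2 : ℝ)‖ := by
    have := (isLittleO_log_rpow_atTop (by norm_num : (0 : ℝ) < 1 / 2)).bound
      (c := min (1 / 20) (min (ε / 22) (1 / 22))) (by positivity)
    exact this
  have hcpt : Tendsto cp atTop atTop := by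
    unfold cp
    exact tendsto_nat_ceil_atTop.comp (Real.tendsto_log_atTop.const_mul_atTop (by norm_num))
  have e2 : ∀ᶠ y : ℝ in atTop, 2 * (cp y : ℝ) * (1 / 2) ^ cp y ≤ κ := by
    have h1 := tendsto_self_mul_const_pow_of_lt_one (by norm_num : (0 : ℝ) ≤ 1 / 2) (by norm_num)
    have h2 := (h1.const_mul 2).comp hcpt
    rw [mul_zero] at h2
    have h3 := h2.eventually (ge_mem_nhds hκ)
    filter_upwards [h3] with y hy
    simp only [Function.comp] at hy
    linarith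
  have e3 : ∀ᶠ y : ℝ in atTop, max 1 (17 / ε) ≤ Real.log y := Real.tendsto_log_atTop.eventually_ge_atTop _
  filter_upwards [e1, e2, e3, eventually_ge_atTop 4] with y h1 h2 h3 h4
  have hy0 : 0 < y := by linarith
  have hl1 : 1 ≤ Real.log y := (le_max_left _ _).trans h3
  have hl17 : 17 / ε ≤ Real.log y := (le_max_right _ _).trans h3
  rw [Real.norm_of_nonneg (by linarith), Real.norm_of_nonneg (by positivity), ← Real.sqrt_eq_rpow] at h1
  set q := Real.sqrt y with hq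
  have hq0 : 0 < q := Real.sqrt_pos.2 hy0
  have f1 : Real.log y ≤ 1 / 20 * q := h1.trans (mul_le_mul_of_nonneg_right (min_le_left _ _) hq0.le)
  have f2 : Real.log y ≤ ε / 22 * q := h1.trans (mul_le_mul_of_nonneg_right
    ((min_le_right _ _).trans (min_le_left _ _)) hq0.le)
  have f3 : Real.log y ≤ 1 / 22 * q := h1.trans (mul_le_mul_of_nonneg_right
    ((min_le_right _ _).trans (min_le_right _ _)) hq0.le)
  obtain ⟨c1, c2⟩ := cp_bounds hl1
  refine ⟨h4, by linarith, ?_, h2, ?_⟩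
  · have g1 : (cp y : ℝ) / q ≤ ε / 2 := by rw [div_le_iff₀ hq0]; linarith
    have g2 : (cp y : ℝ) / q ≤ 1 / 2 := by rw [div_le_iff₀ hq0]; linarith
    have g0 : 0 ≤ (cp y : ℝ) / q := by positivity
    have g3 : (1 + 1 / q) ^ cp y ≤ Real.exp ((cp y : ℝ) / q) := by
      rw [show (cp y : ℝ) / q = cp y * (1 / q) by ring, Real.exp_nat_mul]
      apply pow_le_pow_left₀ (by positivity)
      have := Real.add_one_le_exp (1 / q)
      linarith
    refine g3.trans ?_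
    have g4 := Real.exp_bound_div_one_sub_of_interval g0 (by linarith)
    refine g4.trans ?_
    rw [div_le_iff₀ (by linarith)]
    nlinarith
  · have hlpos : 0 < Real.log y := by linarith
    rw [mul_one_div, div_le_iff₀ (by positivity)]
    rw [div_le_iff₀ hε] at hl17
    nlinarith

/-- THE UPPER BOUND -/
theorem WN_upper (B : ℕ) : ∃ C : ℝ, 0 < C ∧ ∀ ε : ℝ, 0 < ε → ε ≤ 1 / 100 → ∀ m : ℕ, 1 ≤ m → ∀ᶠ y : ℝ in atTop,
    ∀ S : Finset ℕ, (∀ a ∈ S, a ∈ Gd (1 / 10) y) → ∀ l1 l2 : ℝ, 1.04 * Real.log y ≤ l1 → l1 ≤ l2 →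
    l2 ≤ 1.16 * Real.log y →
    WN S (Real.exp l1) (Real.exp l2) ≤
      2 * (1 + ε) * ((l2 - l1 + 5 * ε * Real.log y) / Real.log (4 / 3)) * (Hm y m S + C / (m : ℝ) ^ B) + ε := by
  obtain ⟨C, hC, hch⟩ := chain B
  refine ⟨2 * C, by positivity, ?_⟩
  intro ε hε hε1 m hm
  have hmR : (1 : ℝ) ≤ m := by exact_mod_cast hm
  have e3 : ∀ᶠ y : ℝ in atTop, max (100 / ε) (100 * (m : ℝ)) ≤ Real.log y :=
    Real.tendsto_log_atTop.eventually_ge_atTop _
  filter_upwards [large_y ε hε (C / (m : ℝ) ^ B) (by positivity), atyp_sum ε hε 2, e3] with y h1 h2 h3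
  intro S hS l1 l2 hl1 hl12 hl2
  classical
  obtain ⟨hy4, hsq, hη, hcp2, hJ⟩ := h1
  have hy0 : 0 < y := by linarith
  set L := Real.log y with hL
  have hL1 : 100 / ε ≤ L := (le_max_left _ _).trans h3
  have hL2 : 100 * (m : ℝ) ≤ L := (le_max_right _ _).trans h3
  have hL100 : 100 ≤ L := by linarith
  have hL0 : 0 < L := by linarith
  have hεL : 100 ≤ ε * L := by rw [div_le_iff₀ hε] at hL1; linarith
  obtain ⟨hcp1, hcp1'⟩ := cp_bounds (y := y) (by linarith)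
  have hc0 : 0 < Real.log (4 / 3) := Real.log_pos (by norm_num)
  have hc1 := c43_low
  have hc2 := c43_up
  have hexpy : Real.exp L = y := Real.exp_log hy0
  have hyX1 : y ≤ Real.exp l1 := by
    rw [← hexpy]; apply Real.exp_le_exp.2; linarith
  -- split
  have hsplit : WN S (Real.exp l1) (Real.exp l2)
      = ∑ a ∈ S, ∑ x ∈ (Ico ⌈Real.exp l1⌉₊ ⌈Real.exp l2⌉₊).filter (fun x => Vis x a ∧ Typ ε (Real.sqrt y) x), (1 : ℝ) / x
        + ∑ a ∈ S, ∑ x ∈ (Ico ⌈Real.exp l1⌉₊ ⌈Real.exp l2⌉₊).filter (fun x => Vis x a ∧ ¬ Typ ε (Real.sqrt y) x), (1 : ℝ) / x := by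
    unfold WN
    rw [← sum_add_distrib]
    apply sum_congr rfl
    intro a _
    rw [← sum_filter_add_sum_filter_not ((Ico ⌈Real.exp l1⌉₊ ⌈Real.exp l2⌉₊).filter (fun x => Vis x a))
      (fun x => Typ ε (Real.sqrt y) x), filter_filter, filter_filter]
  -- atypical part
  obtain ⟨J, hJ0⟩ : ∃ J : ℕ, J = ⌈16 * L⌉₊ := ⟨_, rfl⟩
  have hJ1 : 16 * L ≤ J := by rw [hJ0]; exact Nat.le_ceil _
  have hJ2 : (J : ℝ) ≤ 17 * L := by
    rw [hJ0]
    have := Nat.ceil_lt_add_one (by positivity : 0 ≤ 16 * L)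
    linarith
  have hnice := Gd_nice (ε := 1 / 10) le_rfl (by linarith : (2 : ℝ) ≤ y) hJ1
  have hat : ∑ a ∈ S, ∑ x ∈ (Ico ⌈Real.exp l1⌉₊ ⌈Real.exp l2⌉₊).filter
      (fun x => Vis x a ∧ ¬ Typ ε (Real.sqrt y) x), (1 : ℝ) / x ≤ ε := by
    have g1 : ∑ a ∈ S, ∑ x ∈ (Ico ⌈Real.exp l1⌉₊ ⌈Real.exp l2⌉₊).filter
        (fun x => Vis x a ∧ ¬ Typ ε (Real.sqrt y) x), (1 : ℝ) / x
        = ∑ x ∈ (Ico ⌈Real.exp l1⌉₊ ⌈Real.exp l2⌉₊).filter (fun x => ¬ Typ ε (Real.sqrt y) x),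
          ((S.filter fun a => Vis x a).card : ℝ) * (1 / x) := by
      have g2 : ∀ a ∈ S, ∑ x ∈ (Ico ⌈Real.exp l1⌉₊ ⌈Real.exp l2⌉₊).filter
          (fun x => Vis x a ∧ ¬ Typ ε (Real.sqrt y) x), (1 : ℝ) / x
          = ∑ x ∈ (Ico ⌈Real.exp l1⌉₊ ⌈Real.exp l2⌉₊).filter (fun x => ¬ Typ ε (Real.sqrt y) x),
            if Vis x a then (1 : ℝ) / x else 0 := by
        intro a _
        rw [← sum_filter, filter_filter]
        apply sum_congr _ (fun _ _ => rfl)
        ext x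
        rw [mem_filter, mem_filter]
        tauto
      rw [sum_congr rfl g2, sum_comm]
      apply sum_congr rfl
      intro x _
      rw [← sum_filter, sum_const, nsmul_eq_mul]
    rw [g1]
    have g3 : ∀ x : ℕ, ((S.filter fun a => Vis x a).card : ℝ) ≤ 17 * L := by
      intro x
      have := visits hnice (S.filter fun a => Vis x a) (fun a ha => hS a (mem_filter.1 ha).1)
        (fun a ha => by
          have := (hS a (mem_filter.1 ha).1).1
          have : (0 : ℝ) < a := by linarith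
          exact_mod_cast this) x (fun a ha => (mem_filter.1 ha).2)
      have h4 : ((S.filter fun a => Vis x a).card : ℝ) ≤ J := by exact_mod_cast this
      linarith
    calc ∑ x ∈ (Ico ⌈Real.exp l1⌉₊ ⌈Real.exp l2⌉₊).filter (fun x => ¬ Typ ε (Real.sqrt y) x),
          ((S.filter fun a => Vis x a).card : ℝ) * (1 / x)
        ≤ ∑ x ∈ (Ico ⌈Real.exp l1⌉₊ ⌈Real.exp l2⌉₊).filter (fun x => ¬ Typ ε (Real.sqrt y) x),
          17 * L * (1 / x) := sum_le_sum fun x _ => mul_le_mul_of_nonneg_right (g3 x) (by positivity)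
      _ = 17 * L * ∑ x ∈ (Ico ⌈Real.exp l1⌉₊ ⌈Real.exp l2⌉₊).filter (fun x => ¬ Typ ε (Real.sqrt y) x),
          (1 : ℝ) / x := by rw [mul_sum]
      _ ≤ 17 * L * (1 / L ^ 2) := by
          apply mul_le_mul_of_nonneg_left _ (by positivity)
          apply h2 (Real.exp l1) (Real.exp l2) hyX1
          rw [Real.rpow_def_of_pos hy0]
          apply Real.exp_le_exp.2
          rw [← hL]; linarith
      _ ≤ ε := hJ
  -- typical part
  set K := KS (cp y) (Real.log (Real.exp l1) - Real.log y - 2 - 2 * ε * Real.log (Real.exp l2))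
    (Real.log (Real.exp l2) - Real.log y + 2 + 2 * ε * Real.log (Real.exp l2)) with hK
  have hty : ∑ a ∈ S, ∑ x ∈ (Ico ⌈Real.exp l1⌉₊ ⌈Real.exp l2⌉₊).filter
      (fun x => Vis x a ∧ Typ ε (Real.sqrt y) x), (1 : ℝ) / x
      ≤ (1 + ε) * (2 * ∑ k ∈ K, ∑ a ∈ S, (1 / (a : ℝ)) * (3 ^ k * cW (cp y) k k a)) := by
    have g1 : ∀ a ∈ S, ∑ x ∈ (Ico ⌈Real.exp l1⌉₊ ⌈Real.exp l2⌉₊).filter
        (fun x => Vis x a ∧ Typ ε (Real.sqrt y) x), (1 : ℝ) / x
        ≤ (1 + ε) * (2 * ((1 / (a : ℝ)) * ∑ k ∈ K, 3 ^ k * cW (cp y) k k a)) := by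
      intro a ha
      apply upper_one hε.le (by linarith) hy4 (hS a ha) (Real.one_le_exp (by linarith)) _ _ hη
      · rw [Real.log_exp]; linarith
      · rw [Real.log_exp]; linarith
    refine (sum_le_sum g1).trans (le_of_eq ?_)
    rw [← mul_sum, ← mul_sum]
    congr 2
    rw [sum_comm]
    apply sum_congr rfl
    intro a _
    rw [mul_sum]
  rw [Real.log_exp, Real.log_exp, ← hL] at hK
  have hblockk : ∀ a ∈ S, y < a ∧ (a : ℝ) ≤ 2 * y := fun a ha => ⟨(hS a ha).1, (hS a ha).2.1⟩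
  have hεl : ε * l2 ≤ ε * (1.16 * L) := mul_le_mul_of_nonneg_left hl2 hε.le
  have hεL' : ε * L ≤ 0.01 * L := mul_le_mul_of_nonneg_right (by linarith) hL0.le
  have hk : ∀ k ∈ K, ∑ a ∈ S, (1 / (a : ℝ)) * (3 ^ k * cW (cp y) k k a) ≤ Hm y m S + 2 * C / (m : ℝ) ^ B := by
    intro k hkK
    rw [hK, mem_KS] at hkK
    obtain ⟨k1, k2, k3⟩ := hkK
    have hkR : (0 : ℝ) ≤ k := Nat.cast_nonneg k
    have hkup : (k : ℝ) ≤ 0.8 * L := by
      have : 0.284 * (k : ℝ) ≤ Real.log (4 / 3) * k := mul_le_mul_of_nonneg_right hc1 hkR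
      linarith
    have hklow : (m : ℝ) ≤ k := by
      have : Real.log (4 / 3) * k ≤ 0.289 * k := mul_le_mul_of_nonneg_right hc2 hkR
      linarith
    have hmk : m ≤ k := by exact_mod_cast hklow
    have h3k : (3 : ℝ) ^ k ≤ y := by
      rw [← hexpy, show (3 : ℝ) ^ k = Real.exp (k * Real.log 3) by
        rw [Real.exp_nat_mul, Real.exp_log (by norm_num)]]
      apply Real.exp_le_exp.2
      have h5 : Real.log 3 ≤ 1.12 := by
        have := Pool.Agent.H319R2.Lln.log3_upper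
        have := Real.log_two_lt_d9
        linarith
      nlinarith
    have h3kcp : 3 * k ≤ cp y := by
      have : (3 * (k : ℝ)) ≤ cp y := by linarith
      exact_mod_cast this
    have h6 := hch y hy0 S hblockk (cp y) m k hm hmk h3kcp h3k
    have h7 : ∑ a ∈ S, (1 / (a : ℝ)) * (3 ^ k * cW (cp y) k k a)
        ≤ Hm y m S + ∑ a ∈ S, (1 / (a : ℝ)) * |3 ^ k * cW (cp y) k k a - 3 ^ m * cW (cp y) m m a| := by
      unfold Hm
      rw [← sum_add_distrib]
      apply sum_le_sum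
      intro a _
      rw [← mul_add]
      apply mul_le_mul_of_nonneg_left _ (by positivity)
      have := le_abs_self (3 ^ k * cW (cp y) k k a - 3 ^ m * cW (cp y) m m a)
      linarith
    refine h7.trans ?_
    apply add_le_add_right
    refine h6.trans ?_
    have h8 : (1 : ℝ) / m ≤ 1 := by rw [div_le_one (by linarith)]; exact hmR
    have h9 : 0 ≤ (1 : ℝ) / k := by positivity
    have h10 : 0 < C / (m : ℝ) ^ B := by positivity
    have h11 : 2 * (k : ℝ) * (1 / 2) ^ cp y ≤ C / (m : ℝ) ^ B := by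
      refine le_trans ?_ hcp2
      have : (k : ℝ) ≤ cp y := by exact_mod_cast k1
      have h12 : (0 : ℝ) < (1 / 2) ^ cp y := by positivity
      nlinarith
    have h13 : C / (m : ℝ) ^ B * (1 + 1 / (m : ℝ) - 1 / (k : ℝ)) ≤ C / (m : ℝ) ^ B * 2 :=
      mul_le_mul_of_nonneg_left (by linarith) h10.le
    have h14 : 2 * C / (m : ℝ) ^ B = 2 * (C / (m : ℝ) ^ B) := by ring
    rw [h14]
    linarith
  have hHnn : 0 ≤ Hm y m S := by
    unfold Hm
    apply sum_nonneg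
    intro a _
    have := cW_nonneg (cp y) m m a
    positivity
  have hKc : (K.card : ℝ) ≤ (l2 - l1 + 5 * ε * L) / Real.log (4 / 3) := by
    have h5 : 0 ≤ ε * l2 := mul_nonneg hε.le (by linarith)
    rw [hK]
    refine (KS_card_le (cp y) (by nlinarith)).trans ?_
    rw [le_div_iff₀ hc0, add_mul, div_mul_cancel₀ _ hc0.ne']
    nlinarith
  have hsum : ∑ k ∈ K, ∑ a ∈ S, (1 / (a : ℝ)) * (3 ^ k * cW (cp y) k k a)
      ≤ ((l2 - l1 + 5 * ε * L) / Real.log (4 / 3)) * (Hm y m S + 2 * C / (m : ℝ) ^ B) := by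
    refine (sum_le_sum hk).trans ?_
    rw [sum_const, nsmul_eq_mul]
    exact mul_le_mul_of_nonneg_right hKc (by positivity)
  rw [hsplit]
  have hfin : (1 + ε) * (2 * ∑ k ∈ K, ∑ a ∈ S, (1 / (a : ℝ)) * (3 ^ k * cW (cp y) k k a))
      ≤ 2 * (1 + ε) * ((l2 - l1 + 5 * ε * L) / Real.log (4 / 3)) * (Hm y m S + 2 * C / (m : ℝ) ^ B) := by
    calc (1 + ε) * (2 * ∑ k ∈ K, ∑ a ∈ S, (1 / (a : ℝ)) * (3 ^ k * cW (cp y) k k a))
        ≤ (1 + ε) * (2 * (((l2 - l1 + 5 * ε * L) / Real.log (4 / 3)) * (Hm y m S + 2 * C / (m : ℝ) ^ B))) := by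
          apply mul_le_mul_of_nonneg_left _ (by linarith)
          linarith
      _ = _ := by ring
  linarith

end Pool.Agent.V11311.PD
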