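import Pool.Agent.V11311.PD.P10

/-! Predecessor densities, part 11: lower bound for the logarithmic sum over a window. -/

set_option autoImplicit false

namespace Pool.Agent.V11311.PD

open Finset Filter Topology Pool.Agent.H320R2.PD

open Pool.Agent.Helper894.Collatz (T od)

open Pool.Agent.H377R2 (iter_pos)

open Pool.Agent.H319R2.Lln (mu mu_lower mu_upper mu_eq)

/-- good elements are not periodic -/
theorem Gd_aper {ε y : ℝ} (hy : 4 ≤ y) {a : ℕ} (ha : a ∈ Gd ε y) {j : ℕ} (hj : 0 < j) : T^[j] a ≠ a := by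
  intro h
  obtain ⟨a1, a2, ⟨m0, b1, _⟩, a4⟩ := ha
  have haN : 0 < a := by
    have : (0 : ℝ) < a := by linarith
    exact_mod_cast this
  have hper : ∀ n : ℕ, T^[n * j] a = a := by
    intro n
    induction n with
    | zero => simp
    | succ n ih =>
      rw [show (n + 1) * j = n * j + j by ring, Function.iterate_add_apply, h, ih]
  apply a4 (T^[m0] a) (iter_pos haN m0) b1 (m0 * j - m0)
  rw [← Function.iterate_add_apply]
  have : m0 ≤ m0 * j := Nat.le_mul_of_pos_right m0 hj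
  rw [Nat.sub_add_cancel this, hper]

theorem Gd_low {ε y : ℝ} {a x j : ℕ} (ha : a ∈ Gd ε y) (hx : 0 < x) (hj : T^[j] x = a) {i : ℕ} (hi : i ≤ j) :
    Real.sqrt y < ((T^[i] x : ℕ) : ℝ) := by
  by_contra hcon
  push Not at hcon
  apply ha.2.2.2 (T^[i] x) (iter_pos hx i) hcon (j - i)
  rw [← Function.iterate_add_apply, Nat.sub_add_cancel hi, hj]

theorem pow_two_nat {e e' A B : ℕ} (h : 2 ^ e * A = 2 ^ e' * B) (hA : A % 2 = 1) (hB : B % 2 = 1) :
    e = e' ∧ A = B := by
  have key : ∀ {e e' A B : ℕ}, 2 ^ e * A = 2 ^ e' * B → A % 2 = 1 → B % 2 = 1 → e ≤ e' → e = e' ∧ A = B := by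
    intro e e' A B h hA hB hle
    obtain ⟨t, rfl⟩ := Nat.exists_eq_add_of_le hle
    rw [pow_add, mul_assoc] at h
    have h1 := Nat.eq_of_mul_eq_mul_left (by positivity) h
    rcases Nat.eq_zero_or_pos t with rfl | ht
    · simp at h1; exact ⟨rfl, h1⟩
    · exfalso
      obtain ⟨t', rfl⟩ : ∃ t', t = t' + 1 := ⟨t - 1, by omega⟩
      have : 2 ^ (t' + 1) * B = 2 * (2 ^ t' * B) := by ring
      omega
  rcases le_total e e' with hle | hle
  · exact key h hA hB hle
  · obtain ⟨h2, h3⟩ := key h.symm hB hA hle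
    exact ⟨h2.symm, h3.symm⟩

theorem sum_inj {α β : Type*} (A : Finset α) (Bs : Finset β) (g : α → ℝ) (h : β → ℝ) (r : β → α)
    (hg : ∀ x ∈ A, 0 ≤ g x) (hr : ∀ p ∈ Bs, r p ∈ A) (hi : Set.InjOn r (Bs : Set β))
    (hh : ∀ p ∈ Bs, h p ≤ g (r p)) : ∑ p ∈ Bs, h p ≤ ∑ x ∈ A, g x := by
  classical
  calc ∑ p ∈ Bs, h p ≤ ∑ p ∈ Bs, g (r p) := sum_le_sum hh
    _ = ∑ x ∈ Bs.image r, g x := by rw [sum_image hi]
    _ ≤ ∑ x ∈ A, g x := by
        apply sum_le_sum_of_subset_of_nonneg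
        · intro x hx
          rw [mem_image] at hx
          obtain ⟨p, hp, rfl⟩ := hx
          exact hr p hp
        · intro x hx _
          exact hg x hx

theorem KS_card_ge (cap : ℕ) {α β : ℝ} (hα : 0 ≤ α) (hαβ : α ≤ β) (hβ : β ≤ Real.log (4 / 3) * cap) :
    (β - α) / Real.log (4 / 3) - 1 ≤ ((KS cap α β).card : ℝ) := by
  have hc : 0 < Real.log (4 / 3) := Real.log_pos (by norm_num)
  set c := Real.log (4 / 3) with hcdef
  have hsub : Icc ⌈α / c⌉₊ ⌊β / c⌋₊ ⊆ KS cap α β := by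
    intro k hk
    rw [mem_Icc] at hk
    rw [mem_KS, ← hcdef]
    have h1 : α / c ≤ k := Nat.ceil_le.1 hk.1
    have h2 : (k : ℝ) ≤ β / c := by
      have := Nat.floor_le (div_nonneg (hα.trans hαβ) hc.le : 0 ≤ β / c)
      have h3 : (k : ℝ) ≤ (⌊β / c⌋₊ : ℝ) := by exact_mod_cast hk.2
      linarith
    rw [div_le_iff₀ hc] at h1
    rw [le_div_iff₀ hc] at h2
    refine ⟨?_, by linarith, by linarith⟩
    have : (k : ℝ) ≤ cap := by nlinarith
    exact_mod_cast this
  have h1 := card_le_card hsub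
  rw [Nat.card_Icc] at h1
  have h2 : (⌈α / c⌉₊ : ℝ) < α / c + 1 := Nat.ceil_lt_add_one (div_nonneg hα hc.le)
  have h3 : β / c < ⌊β / c⌋₊ + 1 := Nat.lt_floor_add_one _
  have h4 : ((⌊β / c⌋₊ + 1 : ℕ) : ℝ) - (⌈α / c⌉₊ : ℝ) ≤ ((⌊β / c⌋₊ + 1 - ⌈α / c⌉₊ : ℕ) : ℝ) := by
    rw [sub_le_iff_le_add]
    exact_mod_cast (le_tsub_add : ⌊β / c⌋₊ + 1 ≤ ⌊β / c⌋₊ + 1 - ⌈α / c⌉₊ + ⌈α / c⌉₊)
  have h5 : ((⌊β / c⌋₊ + 1 - ⌈α / c⌉₊ : ℕ) : ℝ) ≤ ((KS cap α β).card : ℝ) := by exact_mod_cast h1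
  push_cast at h4
  rw [sub_div]
  linarith

open scoped Classical in
/-- mass of the valid words of typical size -/
noncomputable def cT (ε : ℝ) (cap k : ℕ) (a : ℤ) : ℝ :=
  ∑ w ∈ FW cap k, if Vd k a w ∧ ¬ (ε * k ≤ |(w.sum : ℝ) - 2 * k|) then wwt w else 0

open scoped Classical in
/-- lower bound for one good element -/
theorem lower_one {ε ε' y : ℝ} (hε0 : 0 < ε) (hε : ε ≤ 1 / 100) (hy : 4 ≤ y) (hL : 100 / ε ^ 2 ≤ Real.log y)
    {a : ℕ} (ha : a ∈ Gd ε' y)
    {l1 l2 : ℝ} (hl1 : 1.04 * Real.log y ≤ l1) (hl2 : l2 ≤ 1.16 * Real.log y)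
    (hη : (1 + 1 / Real.sqrt y) ^ cp y ≤ 1 + ε) :
    (1 - ε) * (2 * ((1 / (a : ℝ)) * ∑ k ∈ KS (cp y) (l1 - Real.log y + 2 * ε * Real.log y)
          (l2 - Real.log y - 2 * ε * Real.log y), 3 ^ k * cT ε (cp y) k a))
      ≤ ∑ x ∈ (Ico ⌈Real.exp l1⌉₊ ⌈Real.exp l2⌉₊).filter (fun x => Vis x a), (1 : ℝ) / x := by
  set L := Real.log y with hLdef
  set K := KS (cp y) (l1 - L + 2 * ε * L) (l2 - L - 2 * ε * L) with hK
  have haR : (0 : ℝ) < a := by linarith [ha.1]
  have haN : 0 < a := by exact_mod_cast haR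
  have hsq : 0 < Real.sqrt y := Real.sqrt_pos.2 (by linarith)
  have hε2 : ε ^ 2 ≤ ε := by nlinarith
  have hL' : 100 ≤ L * ε ^ 2 := by rwa [div_le_iff₀ (by positivity)] at hL
  have hL100 : 10000 ≤ L := by
    have : ε ^ 2 ≤ 1 / 10000 := by nlinarith
    nlinarith
  have hL0 : 0 < L := by linarith
  have hεL : 100 ≤ ε * (ε * L) := by nlinarith
  have hεL1 : 100 ≤ ε * L := by nlinarith
  obtain ⟨hcp1, hcp1'⟩ := cp_bounds (y := y) (by rw [← hLdef]; linarith)
  rw [← hLdef] at hcp1 hcp1'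
  obtain ⟨J0, hJ0⟩ : ∃ J0 : ℕ, J0 = ⌈1 / ε⌉₊ := ⟨_, rfl⟩
  have hJ1 : 1 / ε ≤ J0 := by rw [hJ0]; exact Nat.le_ceil _
  have hJ2 : (J0 : ℝ) ≤ 0.02 * (ε * L) := by
    rw [hJ0]
    have h1 := Nat.ceil_lt_add_one (by positivity : 0 ≤ 1 / ε)
    have h2 : 1 / ε ≤ 0.01 * (ε * L) := by
      rw [div_le_iff₀ hε0]; nlinarith
    linarith
  have hla : L ≤ Real.log a := Real.log_le_log (by linarith) ha.1.le
  have hla2 : Real.log a ≤ Real.log 2 + L := by
    rw [hLdef, ← Real.log_mul (by norm_num) (by linarith)]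
    exact Real.log_le_log haR ha.2.1
  have hl2g := Real.log_two_gt_d9
  have hl2u := Real.log_two_lt_d9
  have hc1 := c43_low
  have hc2 := c43_up
  have hc43 : Real.log (4 / 3) = 2 * Real.log 2 - Real.log 3 := by
    rw [Real.log_div (by norm_num) (by norm_num), show (4 : ℝ) = 2 ^ 2 by norm_num, Real.log_pow]
    push_cast; ring
  set WD := K.biUnion fun k => (FW (cp y) k).filter fun w =>
    Vd k a w ∧ ¬ (ε * k ≤ |(w.sum : ℝ) - 2 * k|) with hWD
  -- data of a word
  have hdata : ∀ w ∈ WD, ∃ x : ℕ, (2 ^ w.sum * a - Wo w) / 3 ^ w.length = x ∧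
      3 ^ w.length * x + Wo w = 2 ^ w.sum * a ∧ 0 < x ∧ T^[w.sum] x = a ∧ od w.sum x = w.length ∧
      x % 2 = 1 ∧ l1 ≤ Real.log x ∧ Real.log x + 0.02 * (ε * L) * Real.log 2 < l2 ∧ (∀ e ∈ w, 1 ≤ e) := by
    intro w hw
    rw [hWD, mem_biUnion] at hw
    obtain ⟨k, hk, hw⟩ := hw
    rw [mem_filter] at hw
    obtain ⟨hwF, hV, hty⟩ := hw
    obtain ⟨hlen, hlet⟩ := mem_FW.1 hwF
    have hlet1 : ∀ e ∈ w, 1 ≤ e := fun e he => (hlet e he).1
    rw [hK, mem_KS] at hk
    obtain ⟨k1, k2, k3⟩ := hk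
    have hkR : (0 : ℝ) ≤ k := Nat.cast_nonneg k
    have hkup : (k : ℝ) ≤ 0.6 * L := by
      have : 0.284 * (k : ℝ) ≤ Real.log (4 / 3) * k := mul_le_mul_of_nonneg_right hc1 hkR
      nlinarith
    have hkpos : 0 < k := by
      rcases Nat.eq_zero_or_pos k with h | h
      · exfalso
        rw [h] at k2
        simp at k2
        nlinarith
      · exact h
    rw [← hlen] at hV
    obtain ⟨x, x1, x2, x3, x4, x5⟩ := path hlet1 a haN hV
    have hne : w ≠ [] := by
      rintro rfl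
      simp at hlen
      omega
    have hxR : (0 : ℝ) < x := by exact_mod_cast x2
    push Not at hty
    obtain ⟨t1, t2⟩ := abs_lt.1 hty
    have hεk : ε * k ≤ ε * (0.6 * L) := mul_le_mul_of_nonneg_left hkup hε0.le
    have hsumcap : w.sum ≤ cp y := by
      have : (w.sum : ℝ) ≤ cp y := by nlinarith
      exact_mod_cast this
    -- sizes
    have u1 : (3 : ℝ) ^ w.length * x ≤ 2 ^ w.sum * a := by
      have : 3 ^ w.length * x ≤ 2 ^ w.sum * a := by omega
      exact_mod_cast this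
    have u2 : (w.length : ℝ) * Real.log 3 + Real.log x ≤ w.sum * Real.log 2 + Real.log a := by
      have := Real.log_le_log (by positivity) u1
      rwa [Real.log_mul (by positivity) hxR.ne', Real.log_mul (by positivity) haR.ne', Real.log_pow,
        Real.log_pow] at this
    have u3 := growth hsq w.sum x (fun i hi => (Gd_low ha x2 x3 hi.le).le)
    rw [x3, x4] at u3
    have u4 : (1 + 1 / Real.sqrt y) ^ w.sum ≤ Real.exp 1 := by
      have h1 : (1 + 1 / Real.sqrt y) ^ w.sum ≤ (1 + 1 / Real.sqrt y) ^ cp y :=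
        pow_le_pow_right₀ (by have : 0 < 1 / Real.sqrt y := by positivity
                              linarith) hsumcap
      have := Real.add_one_le_exp (1 : ℝ)
      linarith
    have u5 : w.sum * Real.log 2 + Real.log a ≤ w.length * Real.log 3 + Real.log x + 1 := by
      have h1 : (2 : ℝ) ^ w.sum * a ≤ 3 ^ w.length * x * Real.exp 1 :=
        u3.trans (mul_le_mul_of_nonneg_left u4 (by positivity))
      have := Real.log_le_log (by positivity) h1
      rwa [Real.log_mul (by positivity) haR.ne', Real.log_mul (by positivity) (by positivity),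
        Real.log_mul (by positivity) hxR.ne', Real.log_pow, Real.log_pow, Real.log_exp] at this
    rw [hlen] at u2 u5
    have v1 : (w.sum : ℝ) * Real.log 2 ≤ (2 * k + ε * k) * Real.log 2 :=
      mul_le_mul_of_nonneg_right (by linarith) (by linarith)
    have v2 : (2 * (k : ℝ) - ε * k) * Real.log 2 ≤ w.sum * Real.log 2 :=
      mul_le_mul_of_nonneg_right (by linarith) (by linarith)
    have v3 : ε * k * Real.log 2 ≤ ε * (0.6 * L) * 0.7 := by
      apply mul_le_mul hεk (by linarith) (by linarith) (by positivity)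
    rw [hc43] at k2 k3
    refine ⟨x, ?_, x1, x2, x3, x4, x5 hne, ?_, ?_, hlet1⟩
    · have h6 : 2 ^ w.sum * a - Wo w = 3 ^ w.length * x := by omega
      rw [h6, Nat.mul_div_cancel_left _ (by positivity)]
    · nlinarith
    · nlinarith
  have hbd := sum_inj ((Ico ⌈Real.exp l1⌉₊ ⌈Real.exp l2⌉₊).filter (fun x => Vis x a))
    (WD ×ˢ range J0) (fun x => (1 : ℝ) / x)
    (fun p : List ℕ × ℕ => 3 ^ p.1.length / (2 ^ p.1.sum * a) * (1 / 2) ^ p.2)
    (fun p : List ℕ × ℕ => 2 ^ p.2 * ((2 ^ p.1.sum * a - Wo p.1) / 3 ^ p.1.length))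
    (fun x _ => by positivity) (by
      rintro ⟨w, j0⟩ hp
      rw [mem_product] at hp
      obtain ⟨hw, hj0⟩ := hp
      simp only at hw hj0 ⊢
      rw [mem_range] at hj0
      obtain ⟨x, d0, d1, d2, d3, d4, d5, d6, d7, _⟩ := hdata w hw
      rw [d0]
      have hxR : (0 : ℝ) < x := by exact_mod_cast d2
      have hj0R : (j0 : ℝ) ≤ 0.02 * (ε * L) := by
        have : (j0 : ℝ) ≤ J0 := by exact_mod_cast hj0.le
        linarith
      rw [mem_filter, mem_Ico]
      refine ⟨⟨?_, ?_⟩, ?_⟩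
      · apply Nat.ceil_le.2
        have h1 : Real.exp l1 ≤ x := by
          rw [← Real.exp_log hxR]; exact Real.exp_le_exp.2 d6
        have h2 : (1 : ℝ) ≤ 2 ^ j0 := one_le_pow₀ (by norm_num)
        push_cast
        nlinarith
      · apply Nat.lt_ceil.2
        push_cast
        have h1 : (2 : ℝ) ^ j0 * x = Real.exp (j0 * Real.log 2 + Real.log x) := by
          rw [Real.exp_add, Real.exp_log hxR, Real.exp_nat_mul, Real.exp_log (by norm_num)]
        rw [h1]
        apply Real.exp_lt_exp.2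
        have : (j0 : ℝ) * Real.log 2 ≤ 0.02 * (ε * L) * Real.log 2 :=
          mul_le_mul_of_nonneg_right hj0R (by linarith)
        linarith
      · refine ⟨w.sum + j0, ?_⟩
        rw [Function.iterate_add_apply, T_two_pow, d3]) (by
      rintro ⟨w, j0⟩ hp ⟨w', j0'⟩ hp' heq
      rw [mem_coe, mem_product] at hp hp'
      obtain ⟨x, d0, d1, d2, d3, d4, d5, _, _, d8⟩ := hdata w hp.1
      obtain ⟨x', d0', d1', d2', d3', d4', d5', _, _, d8'⟩ := hdata w' hp'.1
      simp only at heq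
      rw [d0, d0'] at heq
      obtain ⟨hj, hxx⟩ := pow_two_nat heq d5 d5'
      subst hxx
      have hsum : w.sum = w'.sum := by
        rcases lt_trichotomy w.sum w'.sum with h | h | h
        · exfalso
          apply Gd_aper hy ha (j := w'.sum - w.sum) (by omega)
          rw [← d3, ← Function.iterate_add_apply, Nat.sub_add_cancel h.le, d3', d3]
        · exact h
        · exfalso
          apply Gd_aper hy ha (j := w.sum - w'.sum) (by omega)
          rw [← d3', ← Function.iterate_add_apply, Nat.sub_add_cancel h.le, d3, d3']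
      have hlen : w.length = w'.length := by rw [← d4, ← d4', hsum]
      have hWo : Wo w = Wo w' := by rw [hsum, hlen] at d1; omega
      rw [Wo_inj w w' d8 d8' hlen hsum hWo, hj]) (by
      rintro ⟨w, j0⟩ hp
      rw [mem_product] at hp
      obtain ⟨hw, hj0⟩ := hp
      simp only at hw hj0 ⊢
      obtain ⟨x, d0, d1, d2, d3, d4, d5, d6, d7, _⟩ := hdata w hw
      rw [d0]
      have hxR : (0 : ℝ) < x := by exact_mod_cast d2
      have u1 : (3 : ℝ) ^ w.length * x ≤ 2 ^ w.sum * a := by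
        have : 3 ^ w.length * x ≤ 2 ^ w.sum * a := by omega
        exact_mod_cast this
      push_cast
      rw [one_div, inv_pow, ← div_eq_mul_inv, div_div, div_le_div_iff₀ (by positivity) (by positivity)]
      have h2 : (0 : ℝ) < 2 ^ j0 := by positivity
      nlinarith)
  refine le_trans ?_ hbd
  rw [sum_product]
  have hgeo : ∀ w : List ℕ, (1 - ε) * (2 * ((1 / (a : ℝ)) * (3 ^ w.length * wwt w)))
      ≤ ∑ j0 ∈ range J0, 3 ^ w.length / (2 ^ w.sum * (a : ℝ)) * (1 / 2) ^ j0 := by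
    intro w
    rw [← mul_sum]
    have h9 : 2 * (1 - ε) ≤ ∑ i ∈ range J0, (1 / 2 : ℝ) ^ i := by
      have := geom_sum_eq (by norm_num : (1 / 2 : ℝ) ≠ 1) J0
      rw [this]
      have h1 : (1 / 2 : ℝ) ^ J0 ≤ ε := by
        have h2 : (J0 : ℝ) ≤ 2 ^ J0 := by exact_mod_cast Nat.lt_two_pow_self.le
        rw [one_div, inv_pow, inv_le_comm₀ (by positivity) hε0]
        rw [one_div] at hJ1
        linarith
      rw [le_div_iff_of_neg (by norm_num)]
      linarith
    have h10 : 3 ^ w.length / (2 ^ w.sum * (a : ℝ)) = (1 / (a : ℝ)) * (3 ^ w.length * wwt w) := by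
      unfold wwt
      rw [one_div, one_div, inv_pow]
      field_simp
    rw [h10]
    have h11 : 0 ≤ (1 / (a : ℝ)) * (3 ^ w.length * wwt w) := by
      have := wwt_pos w
      positivity
    calc (1 - ε) * (2 * ((1 / (a : ℝ)) * (3 ^ w.length * wwt w)))
        = (1 / (a : ℝ)) * (3 ^ w.length * wwt w) * (2 * (1 - ε)) := by ring
      _ ≤ _ := mul_le_mul_of_nonneg_left h9 h11
  refine le_trans ?_ (sum_le_sum fun w _ => hgeo w)
  rw [← mul_sum, ← mul_sum, ← mul_sum]
  apply mul_le_mul_of_nonneg_left _ (by linarith)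
  apply mul_le_mul_of_nonneg_left _ (by norm_num)
  apply mul_le_mul_of_nonneg_left _ (by positivity)
  rw [hWD, sum_biUnion]
  · apply sum_le_sum
    intro k _
    unfold cT
    rw [sum_filter, mul_sum]
    apply sum_le_sum
    intro w hw
    rw [(mem_FW.1 hw).1]
    split_ifs
    · exact le_rfl
    · simp
  · intro k _ k' _ hkk
    rw [Function.onFun, Finset.disjoint_left]
    intro w hw hw'
    rw [mem_filter] at hw hw'
    apply hkk
    rw [← (mem_FW.1 hw.1).1, (mem_FW.1 hw'.1).1]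

end Pool.Agent.V11311.PD
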