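import Pool.Agent.V11311.PD.P11

/-! Predecessor densities, part 12: lower bound for the logarithmic sum over a window, averaged. -/

set_option autoImplicit false

namespace Pool.Agent.V11311.PD

open Finset Filter Topology Pool.Agent.H320R2.PD

open scoped Classical in
theorem atyp_words {y : ℝ} (hy : 0 < y) (S : Finset ℕ) (hS : ∀ a ∈ S, y < a ∧ (a : ℝ) ≤ 2 * y) (cap k : ℕ)
    (hk : (3 : ℝ) ^ k ≤ y) (P : List ℕ → Prop) :
    ∑ a ∈ S, (1 / (a : ℝ)) * (3 ^ k * ∑ w ∈ FW cap k, if Vd k a w ∧ P w then wwt w else 0)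
      ≤ 2 * ∑ w ∈ (FW cap k).filter P, wwt w := by
  have h1 : ∑ a ∈ S, (1 / (a : ℝ)) * (3 ^ k * ∑ w ∈ FW cap k, if Vd k a w ∧ P w then wwt w else 0)
      = ∑ w ∈ (FW cap k).filter P, (3 ^ k * wwt w) * ∑ a ∈ S.filter (fun a : ℕ => Vd k a w), (1 / (a : ℝ)) := by
    have h2 : ∀ a ∈ S, (1 / (a : ℝ)) * (3 ^ k * ∑ w ∈ FW cap k, if Vd k a w ∧ P w then wwt w else 0)
        = ∑ w ∈ (FW cap k).filter P, if Vd k a w then (3 ^ k * wwt w) * (1 / (a : ℝ)) else 0 := by
      intro a _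
      rw [sum_filter, mul_sum, mul_sum]
      apply sum_congr rfl
      intro w _
      by_cases hV : Vd k a w <;> by_cases hP : P w <;> simp [hV, hP]
      ring
    rw [sum_congr rfl h2, sum_comm]
    apply sum_congr rfl
    intro w _
    rw [← sum_filter, mul_sum]
  rw [h1, mul_sum]
  apply sum_le_sum
  intro w _
  have h3 : ∑ a ∈ S.filter (fun a : ℕ => Vd k a w), (1 / (a : ℝ)) ≤ 2 / 3 ^ k := by
    calc ∑ a ∈ S.filter (fun a : ℕ => Vd k a w), (1 / (a : ℝ))
        ≤ ∑ a ∈ S.filter (fun a : ℕ => Vd k a w), (1 / y) := by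
          apply sum_le_sum
          intro a ha
          exact one_div_le_one_div_of_le hy (hS a (mem_filter.1 ha).1).1.le
      _ = (S.filter (fun a : ℕ => Vd k a w)).card * (1 / y) := by rw [sum_const, nsmul_eq_mul]
      _ ≤ (y / 3 ^ k + 1) * (1 / y) := by
          apply mul_le_mul_of_nonneg_right _ (by positivity)
          apply class_card hy.le S hS k w.sum (Wo w) _ (filter_subset _ _)
          intro a ha
          have := (mem_filter.1 ha).2
          unfold Vd at this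
          rw [← dvd_neg, neg_sub]
          exact this
      _ ≤ (2 * (y / 3 ^ k)) * (1 / y) := by
          apply mul_le_mul_of_nonneg_right _ (by positivity)
          have : 1 ≤ y / 3 ^ k := by rw [le_div_iff₀ (by positivity)]; linarith
          linarith
      _ = 2 / 3 ^ k := by field_simp
  have hw := wwt_pos w
  calc (3 ^ k * wwt w) * ∑ a ∈ S.filter (fun a : ℕ => Vd k a w), (1 / (a : ℝ))
      ≤ (3 ^ k * wwt w) * (2 / 3 ^ k) := mul_le_mul_of_nonneg_left h3 (by positivity)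
    _ = 2 * wwt w := by field_simp

/-- THE LOWER BOUND -/
theorem WN_lower (B : ℕ) : ∃ C : ℝ, 0 < C ∧ ∀ ε : ℝ, 0 < ε → ε ≤ 1 / 100 → ∀ m : ℕ, 1 ≤ m → ∀ᶠ y : ℝ in atTop,
    ∀ S : Finset ℕ, (∀ a ∈ S, a ∈ Gd (1 / 10) y) → ∀ l1 l2 : ℝ, 1.04 * Real.log y ≤ l1 →
    l2 ≤ 1.16 * Real.log y → 5 * ε * Real.log y ≤ l2 - l1 →
      2 * (1 - ε) * ((l2 - l1 - 5 * ε * Real.log y) / Real.log (4 / 3)) * (Hm y m S - C / (m : ℝ) ^ B)
        ≤ WN S (Real.exp l1) (Real.exp l2) := by
  obtain ⟨C, hC, hch⟩ := chain B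
  refine ⟨3 * C, by positivity, ?_⟩
  intro ε hε hε1 m hm
  have hmR : (1 : ℝ) ≤ m := by exact_mod_cast hm
  have e3 : ∀ᶠ y : ℝ in atTop, max (100 / ε ^ 2) (100 * (m : ℝ)) ≤ Real.log y :=
    Real.tendsto_log_atTop.eventually_ge_atTop _
  have e4 : ∀ᶠ y : ℝ in atTop, 4 * Real.exp (-(ε ^ 2 / 320 * Real.log y)) ≤ C / (m : ℝ) ^ B := by
    have h1 : Tendsto (fun y : ℝ => 4 * Real.exp (-(ε ^ 2 / 320 * Real.log y))) atTop (𝓝 (4 * 0)) := by
      apply Tendsto.const_mul
      apply Real.tendsto_exp_neg_atTop_nhds_zero.comp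
      exact Real.tendsto_log_atTop.const_mul_atTop (by positivity)
    rw [mul_zero] at h1
    exact h1.eventually (ge_mem_nhds (by positivity))
  filter_upwards [large_y ε hε (C / (m : ℝ) ^ B) (by positivity), e3, e4] with y h1 h3 h4
  intro S hS l1 l2 hl1 hl2 hl12
  classical
  obtain ⟨hy4, hsq, hη, hcp2, hJ⟩ := h1
  have hy0 : 0 < y := by linarith
  set L := Real.log y with hL
  have hL1 : 100 / ε ^ 2 ≤ L := (le_max_left _ _).trans h3
  have hL2 : 100 * (m : ℝ) ≤ L := (le_max_right _ _).trans h3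
  have hL100 : 100 ≤ L := by linarith
  have hL0 : 0 < L := by linarith
  have hεL0 : 100 ≤ L * ε ^ 2 := by rwa [div_le_iff₀ (by positivity)] at hL1
  have hεL : 100 ≤ ε * L := by nlinarith
  obtain ⟨hcp1, hcp1'⟩ := cp_bounds (y := y) (by linarith)
  rw [← hL] at hcp1 hcp1'
  have hc0 : 0 < Real.log (4 / 3) := Real.log_pos (by norm_num)
  have hc1 := c43_low
  have hc2 := c43_up
  have hexpy : Real.exp L = y := Real.exp_log hy0
  set K := KS (cp y) (l1 - L + 2 * ε * L) (l2 - L - 2 * ε * L) with hK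
  have hblockk : ∀ a ∈ S, y < a ∧ (a : ℝ) ≤ 2 * y := fun a ha => ⟨(hS a ha).1, (hS a ha).2.1⟩
  have hεL' : ε * L ≤ 0.01 * L := mul_le_mul_of_nonneg_right (by linarith) hL0.le
  have hWN : (1 - ε) * (2 * ∑ k ∈ K, ∑ a ∈ S, (1 / (a : ℝ)) * (3 ^ k * cT ε (cp y) k a))
      ≤ WN S (Real.exp l1) (Real.exp l2) := by
    have g1 : ∀ a ∈ S, (1 - ε) * (2 * ((1 / (a : ℝ)) * ∑ k ∈ K, 3 ^ k * cT ε (cp y) k a))
        ≤ ∑ x ∈ (Ico ⌈Real.exp l1⌉₊ ⌈Real.exp l2⌉₊).filter (fun x => Vis x a), (1 : ℝ) / x := by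
      intro a ha
      exact lower_one hε hε1 hy4 hL1 (hS a ha) hl1 hl2 hη
    refine le_trans (le_of_eq ?_) (sum_le_sum g1)
    rw [← mul_sum, ← mul_sum]
    congr 2
    rw [sum_comm]
    apply sum_congr rfl
    intro a _
    rw [mul_sum]
  have hk : ∀ k ∈ K, Hm y m S - 3 * C / (m : ℝ) ^ B - C / (m : ℝ) ^ B + C / (m : ℝ) ^ B
      ≤ ∑ a ∈ S, (1 / (a : ℝ)) * (3 ^ k * cT ε (cp y) k a) := by
    intro k hkK
    rw [hK, mem_KS] at hkK
    obtain ⟨k1, k2, k3⟩ := hkK
    have hkR : (0 : ℝ) ≤ k := Nat.cast_nonneg k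
    have hkup : (k : ℝ) ≤ 0.8 * L := by
      have : 0.284 * (k : ℝ) ≤ Real.log (4 / 3) * k := mul_le_mul_of_nonneg_right hc1 hkR
      linarith
    have hklow : 0.1 * L ≤ k := by
      have : Real.log (4 / 3) * k ≤ 0.289 * k := mul_le_mul_of_nonneg_right hc2 hkR
      nlinarith
    have hmk : m ≤ k := by
      have : (m : ℝ) ≤ k := by linarith
      exact_mod_cast this
    have h3k : (3 : ℝ) ^ k ≤ y := by
      rw [← hexpy, show (3 : ℝ) ^ k = Real.exp (k * Real.log 3) by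
        rw [Real.exp_nat_mul, Real.exp_log (by norm_num)]]
      apply Real.exp_le_exp.2
      have h5 : Real.log 3 ≤ 1.12 := by
        have := Pool.Agent.H319R2.Lln.log3_upper
        have := Real.log_two_lt_d9
        linarith
      nlinarith
    have h3kcp : 3 * k ≤ cp y := by
      have : (3 * (k : ℝ)) ≤ cp y := by linarith
      exact_mod_cast this
    have h6 := hch y hy0 S hblockk (cp y) m k hm hmk h3kcp h3k
    have h7 : Hm y m S - ∑ a ∈ S, (1 / (a : ℝ)) * |3 ^ k * cW (cp y) k k a - 3 ^ m * cW (cp y) m m a|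
        ≤ ∑ a ∈ S, (1 / (a : ℝ)) * (3 ^ k * cW (cp y) k k a) := by
      unfold Hm
      rw [← sum_sub_distrib]
      apply sum_le_sum
      intro a _
      rw [← mul_sub]
      apply mul_le_mul_of_nonneg_left _ (by positivity)
      have := neg_le_abs (3 ^ k * cW (cp y) k k a - 3 ^ m * cW (cp y) m m a)
      linarith
    have h8 : (1 : ℝ) / m ≤ 1 := by rw [div_le_one (by linarith)]; exact hmR
    have h9 : 0 ≤ (1 : ℝ) / k := by positivity
    have h10 : 0 < C / (m : ℝ) ^ B := by positivity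
    have h11 : 2 * (k : ℝ) * (1 / 2) ^ cp y ≤ C / (m : ℝ) ^ B := by
      refine le_trans ?_ hcp2
      have : (k : ℝ) ≤ cp y := by exact_mod_cast k1
      have h12 : (0 : ℝ) < (1 / 2) ^ cp y := by positivity
      nlinarith
    have h13 : C / (m : ℝ) ^ B * (1 + 1 / (m : ℝ) - 1 / (k : ℝ)) ≤ C / (m : ℝ) ^ B * 2 :=
      mul_le_mul_of_nonneg_left (by linarith) h10.le
    -- atypical words
    have h14 : ∑ a ∈ S, (1 / (a : ℝ)) * (3 ^ k * cW (cp y) k k a)
        = ∑ a ∈ S, (1 / (a : ℝ)) * (3 ^ k * cT ε (cp y) k a)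
          + ∑ a ∈ S, (1 / (a : ℝ)) * (3 ^ k * ∑ w ∈ FW (cp y) k,
              if Vd k a w ∧ ε * k ≤ |(w.sum : ℝ) - 2 * k| then wwt w else 0) := by
      rw [← sum_add_distrib]
      apply sum_congr rfl
      intro a _
      rw [← mul_add, ← mul_add]
      congr 2
      unfold cW cT
      rw [← sum_add_distrib]
      apply sum_congr rfl
      intro w _
      by_cases hV : Vd k a w <;> by_cases hP : ε * k ≤ |(w.sum : ℝ) - 2 * k| <;>
        simp only [hV, hP, true_and, false_and, not_true_eq_false, not_false_eq_true, if_true, if_false,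
          add_zero, zero_add]
    have h15 := atyp_words hy0 S hblockk (cp y) k h3k (fun w => ε * k ≤ |(w.sum : ℝ) - 2 * k|)
    have h16 := Pool.Agent.H320R2.PD.tail (cp y) k hε (by linarith)
    have h17 : Real.exp (-(ε ^ 2 * k / 32)) ≤ Real.exp (-(ε ^ 2 / 320 * L)) := by
      apply Real.exp_le_exp.2
      have := mul_le_mul_of_nonneg_left hklow (by positivity : 0 ≤ ε ^ 2)
      linarith
    have h18 : 3 * C / (m : ℝ) ^ B = 3 * (C / (m : ℝ) ^ B) := by ring
    rw [h18]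
    linarith
  have hKc : (l2 - l1 - 5 * ε * L) / Real.log (4 / 3) ≤ (K.card : ℝ) := by
    rw [hK]
    refine le_trans ?_ (KS_card_ge (cp y) (by nlinarith) (by nlinarith) (by nlinarith))
    rw [div_sub_one hc0.ne']
    apply div_le_div_of_nonneg_right _ hc0.le
    linarith
  rcases le_or_gt (Hm y m S - 3 * C / (m : ℝ) ^ B) 0 with hneg | hpos
  · have hW0 : 0 ≤ WN S (Real.exp l1) (Real.exp l2) := by
      unfold WN
      apply sum_nonneg
      intro a _
      apply sum_nonneg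
      intro x _
      positivity
    refine le_trans ?_ hW0
    apply mul_nonpos_of_nonneg_of_nonpos _ hneg
    apply mul_nonneg (by linarith)
    exact div_nonneg (by linarith) hc0.le
  · have hsum : (K.card : ℝ) * (Hm y m S - 3 * C / (m : ℝ) ^ B)
        ≤ ∑ k ∈ K, ∑ a ∈ S, (1 / (a : ℝ)) * (3 ^ k * cT ε (cp y) k a) := by
      rw [← nsmul_eq_mul, ← sum_const]
      apply sum_le_sum
      intro k hkK
      have := hk k hkK
      linarith
    refine le_trans ?_ hWN
    calc 2 * (1 - ε) * ((l2 - l1 - 5 * ε * L) / Real.log (4 / 3)) * (Hm y m S - 3 * C / (m : ℝ) ^ B)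
        ≤ 2 * (1 - ε) * (K.card : ℝ) * (Hm y m S - 3 * C / (m : ℝ) ^ B) := by
          apply mul_le_mul_of_nonneg_right _ hpos.le
          exact mul_le_mul_of_nonneg_left hKc (by linarith)
      _ = (1 - ε) * (2 * ((K.card : ℝ) * (Hm y m S - 3 * C / (m : ℝ) ^ B))) := by ring
      _ ≤ _ := by
          apply mul_le_mul_of_nonneg_left _ (by linarith)
          linarith

end Pool.Agent.V11311.PD
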