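import Pool.Agent.V11311.PD.P4

/-! Predecessor densities, part 5: the total density of the predecessors in terms of logarithmic sums
over one window. -/

set_option autoImplicit false

namespace Pool.Agent.V11311.PD

open Pool.Agent.H320R2.PD Finset Filter Topology MeasureTheory

open Pool.Agent.H499R2.ND hiding La Ea Me FC

open Pool.Agent.H499R2.CZ Pool.Agent.H499R2.LT Pool.Agent.H499R2.HL

theorem II_cont {F : ℝ → ℝ} (hF : Measurable F) {M : ℝ} (h0 : ∀ t, 0 ≤ F t) (h1 : ∀ t, F t ≤ M) :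
    Continuous (II F) := by
  have hi := intbl hF h0 h1
  set P : ℝ → ℝ := fun t => ∫ u in (0 : ℝ)..t, F u with hP
  have hPc : Continuous P := intervalIntegral.continuous_primitive hi 0
  have hII : II F = fun t => (P t - P (t - Real.log 2)) - (P (t + Real.log (3 / 2)) - P t) := by
    funext t
    unfold II
    simp only [hP]
    rw [intervalIntegral.integral_interval_sub_left (hi _ _) (hi _ _),
      intervalIntegral.integral_interval_sub_left (hi _ _) (hi _ _)]
  rw [hII]
  exact (hPc.sub (hPc.comp (continuous_id.sub continuous_const))).sub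
    ((hPc.comp (continuous_id.add continuous_const)).sub hPc)

/-- total logarithmic sum of the predecessors over a window -/
noncomputable def WS (S1 : Finset ℤ) (X1 X2 : ℝ) : ℝ := ∑ a ∈ S1, LSm (Pr a) X1 X2

theorem flux (B : ℕ) : ∃ K : ℝ, 0 < K ∧ ∀ (S1 : Finset ℤ) (Y : ℝ) (N : ℕ), (∀ a ∈ S1, (a : ℝ) ≤ Y) →
    (∀ x : ℤ, 0 < x → fc S1 x ≤ N) → ∀ D : ℤ → ℝ,
    (∀ a ∈ S1, Tendsto (Fd (Pr a)) atTop (𝓝 (D a / 3))) → ∀ t1 t2 : ℝ, 27000 ≤ t1 → t1 ≤ t2 →
    Y < Real.exp (0.96 * t1) →
    (t2 - t1) * (Real.log (4 / 3) * ∑ a ∈ S1, D a) ≤ Real.log (4 / 3) * WS S1 (Real.exp t1) (2 * Real.exp t2)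
        + WS S1 (Real.exp (t1 - 1)) (2 * Real.exp (t1 + 1)) + (t2 - t1) * (N * (K / t1 ^ B)) ∧
    Real.log (4 / 3) * WS S1 (2 * Real.exp t1) (Real.exp t2)
        - WS S1 (Real.exp (t2 - 1)) (2 * Real.exp (t2 + 1)) - (t2 - t1) * (N * (K / t1 ^ B))
      ≤ (t2 - t1) * (Real.log (4 / 3) * ∑ a ∈ S1, D a) := by
  obtain ⟨K, hK, h⟩ := cons_unif B
  refine ⟨3 * K, by positivity, ?_⟩
  intro S1 Y N hY hN D hD t1 t2 ht h12 hYt
  set F := FF N (Lv S1) with hF
  have hF1 := FF_meas N (Lv S1)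
  have hF2 := FF_nonneg N (Lv S1)
  have hF3 := FF_le N (Lv S1)
  have hl : Tendsto F atTop (𝓝 (∑ a ∈ S1, D a / 3)) := by
    have := tendsto_finsetSum S1 (fun a ha => hD a ha)
    refine this.congr fun t => ?_
    rw [hF, FF_eq S1 hN t]
  set l := ∑ a ∈ S1, D a / 3 with hldef
  have hl3 : ∑ a ∈ S1, D a = 3 * l := by rw [hldef, ← sum_div]; ring
  have ht1pos : 0 < t1 := by linarith
  have herr : ∀ t : ℝ, t1 ≤ t → |II F t - Real.log (4 / 3) * l| ≤ N * (K / t1 ^ B) := by
    intro t htt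
    refine (h Y N (Lv S1) (fun i _ => Lv_AI hY i) t (by linarith) (lt_of_lt_of_le hYt
      (Real.exp_le_exp.2 (by linarith))) l hl).trans ?_
    apply mul_le_mul_of_nonneg_left _ (Nat.cast_nonneg N)
    apply div_le_div_of_nonneg_left hK.le (by positivity)
    exact pow_le_pow_left₀ ht1pos.le htt B
  have hIc := II_cont hF1 hF2 hF3
  set e := (N : ℝ) * (K / t1 ^ B) with he
  have hlow : (t2 - t1) * (Real.log (4 / 3) * l - e) ≤ ∫ t in t1..t2, II F t := by
    have := intervalIntegral.integral_mono_on (μ := volume) h12 intervalIntegrable_const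
      (hIc.intervalIntegrable t1 t2) (f := fun _ => Real.log (4 / 3) * l - e) (fun u hu => by
        have := (abs_le.1 (herr u hu.1)).1
        linarith)
    rwa [intervalIntegral.integral_const, smul_eq_mul] at this
  have hup : (∫ t in t1..t2, II F t) ≤ (t2 - t1) * (Real.log (4 / 3) * l + e) := by
    have := intervalIntegral.integral_mono_on (μ := volume) h12 (hIc.intervalIntegrable t1 t2)
      intervalIntegrable_const (g := fun _ => Real.log (4 / 3) * l + e) (fun u hu => by
        have := (abs_le.1 (herr u hu.1)).2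
        linarith)
    rwa [intervalIntegral.integral_const, smul_eq_mul] at this
  obtain ⟨a1, a2⟩ := II_average hF1 hF2 hF3 h12
  -- integrals as sums over the elements of S1
  have hsum : ∀ a b : ℝ, ∫ u in a..b, F u = ∑ c ∈ S1, ∫ u in a..b, Fd (Pr c) u := by
    intro a b
    rw [← intervalIntegral.integral_finsetSum (fun c _ => intble (Fd_meas (Pr c)) (Fd_nonneg (Pr c))
      (Fd_le_one (Pr c)) a b)]
    apply intervalIntegral.integral_congr
    intro u _
    simp only
    rw [hF, FF_eq S1 hN u]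
  have hle : ∀ a b : ℝ, a ≤ b → ∫ u in a..b, F u ≤ (1 / 3) * WS S1 (Real.exp a) (2 * Real.exp b) := by
    intro a b hab
    rw [hsum]
    unfold WS
    rw [mul_sum]
    exact sum_le_sum fun c _ => Fd_integral_le (Pr c) hab
  have hge : ∀ a b : ℝ, a ≤ b → (1 / 3) * WS S1 (2 * Real.exp a) (Real.exp b) ≤ ∫ u in a..b, F u := by
    intro a b hab
    rw [hsum]
    unfold WS
    rw [mul_sum]
    exact sum_le_sum fun c _ => le_Fd_integral (Pr c) hab
  have hlog : 0 < Real.log (4 / 3) := Real.log_pos (by norm_num)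
  have b1 := hle t1 t2 h12
  have b2 := hle (t1 - 1) (t1 + 1) (by linarith)
  have b3 := hge t1 t2 h12
  have b4 := hle (t2 - 1) (t2 + 1) (by linarith)
  have c1 := mul_le_mul_of_nonneg_left b1 hlog.le
  have c3 := mul_le_mul_of_nonneg_left b3 hlog.le
  rw [hl3]
  have he3 : (N : ℝ) * (3 * K / t1 ^ B) = 3 * e := by rw [he]; ring
  rw [he3]
  constructor
  · nlinarith
  · nlinarith

end Pool.Agent.V11311.PD
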