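import Pool.Agent.V11311.PD.P12
import Pool.Agent.V11311.PD.P5

/-! Predecessor densities, part 13: the sum of the densities over a set of good elements of a block. -/

set_option autoImplicit false

namespace Pool.Agent.V11311.PD

open Finset Filter Topology Pool.Agent.H320R2.PD

open Pool.Agent.Helper894.Collatz (T od)

open Pool.Agent.H499R2.ND (Td wc mem_wc Fd)

theorem Td_nat (x : ℕ) : Td 1 (x : ℤ) = (T x : ℕ) := by
  unfold Td T
  split_ifs <;> omega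

theorem Td_iter_nat (j : ℕ) (x : ℕ) : (Td 1)^[j] (x : ℤ) = ((T^[j] x : ℕ) : ℤ) := by
  induction j generalizing x with
  | zero => rfl
  | succ j ih => rw [Function.iterate_succ_apply, Td_nat, ih, Function.iterate_succ_apply]

theorem Pr_nat (x a : ℕ) : (x : ℤ) ∈ Pr a ↔ Vis x a := by
  unfold Pr Vis
  rw [Set.mem_ofPred_eq]
  apply exists_congr
  intro j
  rw [Td_iter_nat]
  exact Nat.cast_inj

open scoped Classical in
theorem LSm_nat (a : ℕ) {X1 : ℝ} (hX1 : 0 < X1) (X2 : ℝ) : LSm (Pr a) X1 X2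
    = ∑ x ∈ (Ico ⌈X1⌉₊ ⌈X2⌉₊).filter (fun x => Vis x a), (1 : ℝ) / x := by
  unfold LSm
  symm
  apply sum_nbij (fun x : ℕ => (x : ℤ))
  · intro x hx
    rw [mem_filter, mem_Ico] at hx
    rw [wc_one]
    refine ⟨⟨?_, ?_⟩, (Pr_nat x a).2 hx.2⟩
    · exact_mod_cast Nat.ceil_le.1 hx.1.1
    · exact_mod_cast Nat.lt_ceil.1 hx.1.2
  · intro x _ x' _ h
    simpa using h
  · intro x hx
    have hx := mem_coe.1 hx
    rw [wc_one] at hx
    have hx0 : (0 : ℝ) < x := by linarith [hx.1.1]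
    have hx0' : 0 ≤ x := by
      have : 0 < x := by exact_mod_cast hx0
      omega
    obtain ⟨n, rfl⟩ := Int.eq_ofNat_of_zero_le hx0'
    refine ⟨n, ?_, rfl⟩
    rw [mem_coe, mem_filter, mem_Ico]
    refine ⟨⟨?_, ?_⟩, (Pr_nat n a).1 hx.2⟩
    · exact Nat.ceil_le.2 (by exact_mod_cast hx.1.1)
    · exact Nat.lt_ceil.2 (by exact_mod_cast hx.1.2)
  · intro x _
    simp

theorem WS_nat (S : Finset ℕ) {X1 : ℝ} (hX1 : 0 < X1) (X2 : ℝ) :
    WS (S.image (fun a : ℕ => (a : ℤ))) X1 X2 = WN S X1 X2 := by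
  classical
  unfold WS WN
  rw [sum_image (fun a _ b _ h => by simpa using h)]
  apply sum_congr rfl
  intro a _
  exact LSm_nat a hX1 X2

theorem fc_nat {Y : ℝ} {J : ℕ} {G : Set ℕ} (hG : Nice2 Y J G) (S : Finset ℕ) (hS : ∀ a ∈ S, a ∈ G)
    (hpos : ∀ a ∈ S, 0 < a) (x : ℤ) (hx : 0 < x) : fc (S.image (fun a : ℕ => (a : ℤ))) x ≤ J := by
  classical
  obtain ⟨n, rfl⟩ := Int.eq_ofNat_of_zero_le hx.le
  unfold fc
  have h1 : (S.image (fun a : ℕ => (a : ℤ))).filter (fun a => (n : ℤ) ∈ Pr a)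
      = (S.filter (fun a => Vis n a)).image (fun a : ℕ => (a : ℤ)) := by
    ext z
    rw [mem_filter, mem_image, mem_image]
    constructor
    · rintro ⟨⟨a, ha, rfl⟩, h⟩
      exact ⟨a, mem_filter.2 ⟨ha, (Pr_nat n a).1 h⟩, rfl⟩
    · rintro ⟨a, ha, rfl⟩
      rw [mem_filter] at ha
      exact ⟨⟨a, ha.1, rfl⟩, (Pr_nat n a).2 ha.2⟩
  have h2 : ((S.image (fun a : ℕ => (a : ℤ))).filter (fun a => (n : ℤ) ∈ Pr a)).card ≤ J := by
    rw [h1]
    refine card_image_le.trans ?_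
    exact visits hG _ (fun a ha => hS a (mem_filter.1 ha).1) (fun a ha => hpos a (mem_filter.1 ha).1) n
      (fun a ha => (mem_filter.1 ha).2)
  convert h2

theorem two_exp (t : ℝ) : 2 * Real.exp t = Real.exp (t + Real.log 2) := by
  rw [Real.exp_add, Real.exp_log (by norm_num), mul_comm]


/-- a short window -/
theorem comb_short {L ε c l2 W Hu Q l : ℝ} (hε0 : 0 < ε) (hε1 : ε ≤ 1 / 100) (hεL : 100 ≤ ε * L)
    (hc1 : 0.284 ≤ c) (hl2 : l2 ≤ 0.7) (hHu0 : 0 ≤ Hu) (hHu : Hu ≤ Q) (hQ : 2 ≤ Q)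
    (hw : W ≤ 2 * (1 + ε) * ((l + 1 + l2 - (l - 1) + 5 * ε * L) / c) * Hu + ε) :
    W ≤ 60 * ((ε * L) * Q) := by
  have hc0 : 0 < c := by linarith
  have h6 : (l + 1 + l2 - (l - 1) + 5 * ε * L) / c ≤ 18 * (ε * L) := by
    rw [div_le_iff₀ hc0]
    have h0 : 18 * (ε * L) * 0.284 ≤ 18 * (ε * L) * c := mul_le_mul_of_nonneg_left hc1 (by linarith)
    linarith
  have h7 : 2 * (1 + ε) * ((l + 1 + l2 - (l - 1) + 5 * ε * L) / c) * Hu ≤ 2 * (1 + ε) * (18 * (ε * L)) * Q := by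
    apply mul_le_mul _ hHu hHu0 (by positivity)
    exact mul_le_mul_of_nonneg_left h6 (by linarith)
  have h8 : 0 ≤ (ε * L) * Q := by positivity
  have h9 : ε ≤ (ε * L) * Q := by nlinarith
  have h10 : ε * ((ε * L) * Q) ≤ 1 / 100 * ((ε * L) * Q) := mul_le_mul_of_nonneg_right hε1 h8
  have h11 : 2 * (1 + ε) * (18 * (ε * L)) * Q = 36 * ((ε * L) * Q) + 36 * (ε * ((ε * L) * Q)) := by ring
  linarith

theorem comb_long {L ε c l2 W Hu Q : ℝ} (hε0 : 0 < ε) (hε1 : ε ≤ 1 / 100) (hεL : 100 ≤ ε * L)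
    (hc1 : 0.284 ≤ c) (hc2 : c ≤ 1) (hl2 : l2 ≤ 0.7) (hHu0 : 0 ≤ Hu) (hHu : Hu ≤ Q) (hQ : 2 ≤ Q)
    (hw : W ≤ 2 * (1 + ε) * ((1.15 * L + l2 - 1.05 * L + 5 * ε * L) / c) * Hu + ε) :
    c * W ≤ (0.1 * L) * (2 * Hu) + 16 * ((ε * L) * Q) := by
  have hc0 : 0 < c := by linarith
  have h5 := mul_le_mul_of_nonneg_left hw hc0.le
  have h6 : c * (2 * (1 + ε) * ((1.15 * L + l2 - 1.05 * L + 5 * ε * L) / c) * Hu + ε)
      = 2 * (1 + ε) * (1.15 * L + l2 - 1.05 * L + 5 * ε * L) * Hu + c * ε := by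
    field_simp
  rw [h6] at h5
  have h7 : 2 * (1 + ε) * (1.15 * L + l2 - 1.05 * L + 5 * ε * L) * Hu
      ≤ 2 * (1 + ε) * (0.1 * L + 6 * ε * L) * Hu := by
    apply mul_le_mul_of_nonneg_right _ hHu0
    apply mul_le_mul_of_nonneg_left _ (by linarith)
    linarith
  have h8 : c * ε ≤ 1 * ε := mul_le_mul_of_nonneg_right hc2 hε0.le
  have h0 : 0 ≤ (ε * L) * Q := by positivity
  have h9 : ε ≤ (ε * L) * Q := by nlinarith
  have g2 : 2 * (1 + ε) * (0.1 * L + 6 * ε * L) * Hu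
      = (0.1 * L) * (2 * Hu) + (ε * L) * ((12.2 + 12 * ε) * Hu) := by ring
  have g3 : (12.2 + 12 * ε) * Hu ≤ 13 * Q := by
    apply mul_le_mul _ hHu hHu0 (by norm_num)
    linarith
  have g4 := mul_le_mul_of_nonneg_left g3 (by linarith : 0 ≤ ε * L)
  linarith

theorem comb_low {L ε c l2 W Hl Q : ℝ} (hε0 : 0 < ε) (hε1 : ε ≤ 1 / 100) (hεL : 100 ≤ ε * L)
    (hc1 : 0.284 ≤ c) (hl20 : 0 ≤ l2) (hl2 : l2 ≤ 0.7) (hHl : |Hl| ≤ Q) (hQ : 2 ≤ Q)
    (hw : 2 * (1 - ε) * ((1.15 * L - (1.05 * L + l2) - 5 * ε * L) / c) * Hl ≤ W) :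
    (0.1 * L) * (2 * Hl) - 16 * ((ε * L) * Q) ≤ c * W := by
  have hc0 : 0 < c := by linarith
  have h5 := mul_le_mul_of_nonneg_left hw hc0.le
  have h6 : c * (2 * (1 - ε) * ((1.15 * L - (1.05 * L + l2) - 5 * ε * L) / c) * Hl)
      = 2 * (1 - ε) * (1.15 * L - (1.05 * L + l2) - 5 * ε * L) * Hl := by
    field_simp
  rw [h6] at h5
  refine le_trans ?_ h5
  have h7 : 2 * (1 - ε) * (1.15 * L - (1.05 * L + l2) - 5 * ε * L) * Hl
      = (0.1 * L) * (2 * Hl) - (0.2 * (ε * L) + 2 * (1 - ε) * (l2 + 5 * (ε * L))) * Hl := by ring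
  rw [h7]
  have h8 : |(0.2 * (ε * L) + 2 * (1 - ε) * (l2 + 5 * (ε * L))) * Hl| ≤ (16 * (ε * L)) * Q := by
    rw [abs_mul]
    apply mul_le_mul _ hHl (abs_nonneg _) (by positivity)
    have h9 : 0 ≤ (1 - ε) * (l2 + 5 * (ε * L)) := mul_nonneg (by linarith) (by linarith)
    rw [abs_of_nonneg (by linarith)]
    have h10 : (1 - ε) * (l2 + 5 * (ε * L)) ≤ 1 * (l2 + 5 * (ε * L)) :=
      mul_le_mul_of_nonneg_right (by linarith) (by linarith)
    linarith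
  have h11 := le_abs_self ((0.2 * (ε * L) + 2 * (1 - ε) * (l2 + 5 * (ε * L))) * Hl)
  linarith

theorem comb_fin {L ε c Q H a b A B' η Ds E W1 W2 W3 W4 : ℝ} (hL0 : 0 < L) (hη : 0 < η) (hc1 : 0.284 ≤ c)
    (hεη : ε * (20000 * Q) ≤ η) (hE : E ≤ η / 2) (ha0 : 0 ≤ a) (hb0 : 0 ≤ b) (haA : a = A)
    (hbB : b = B') (f1 : 0.1 * L * (c * Ds) ≤ c * W1 + W2 + 0.1 * L * E)
    (f2 : c * W3 - W4 - 0.1 * L * E ≤ 0.1 * L * (c * Ds))
    (v1 : c * W1 ≤ (0.1 * L) * (2 * (H + a)) + 16 * ((ε * L) * Q)) (v2 : W2 ≤ 60 * ((ε * L) * Q))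
    (v3 : (0.1 * L) * (2 * (H - b)) - 16 * ((ε * L) * Q) ≤ c * W3) (v4 : W4 ≤ 60 * ((ε * L) * Q))
    (hQ0 : 0 ≤ ε * Q) : |Ds - 2 / c * H| ≤ 8 * (A + B') + η * 8 := by
  subst haA hbB
  have hc0 : 0 < c := by linarith
  have hLp : (0 : ℝ) < 0.1 * L := by positivity
  have g7 : 0.1 * L * E ≤ 0.1 * L * (η / 2) := mul_le_mul_of_nonneg_left hE hLp.le
  have hup : (0.1 * L) * (c * Ds) ≤ (0.1 * L) * (2 * (H + a) + 760 * (ε * Q) + η / 2) := by linarith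
  have hlow : (0.1 * L) * (2 * (H - b) - 760 * (ε * Q) - η / 2) ≤ (0.1 * L) * (c * Ds) := by linarith
  have hup' := le_of_mul_le_mul_left hup hLp
  have hlow' := le_of_mul_le_mul_left hlow hLp
  have hdiv : Ds - 2 / c * H = (c * Ds - 2 * H) / c := by field_simp
  rw [hdiv, abs_div, abs_of_pos hc0, div_le_iff₀ hc0, abs_le]
  have hm1 : 0.284 * (8 * (a + b) + η * 8) ≤ (8 * (a + b) + η * 8) * c := by
    rw [mul_comm]
    exact mul_le_mul_of_nonneg_left hc1 (by positivity)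
  constructor <;> linarith

/-- THE BLOCK ESTIMATE -/
theorem block (B : ℕ) : ∃ C : ℝ, 0 < C ∧ ∀ D : ℕ → ℝ,
    (∀ a : ℕ, 0 < a → Tendsto (Fd (Pr a)) atTop (𝓝 (D a / 3))) → ∀ m : ℕ, 1 ≤ m → ∀ η : ℝ, 0 < η →
    ∀ᶠ y : ℝ in atTop, ∀ S : Finset ℕ, (∀ a ∈ S, a ∈ Gd (1 / 10) y) →
      |∑ a ∈ S, D a - 2 / Real.log (4 / 3) * Hm y m S| ≤ C / (m : ℝ) ^ B + η := by
  obtain ⟨CU, hCU, hU⟩ := WN_upper B
  obtain ⟨CL, hCL, hLo⟩ := WN_lower B
  obtain ⟨K, hK, hflux⟩ := flux 2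
  refine ⟨8 * (CU + CL), by positivity, ?_⟩
  intro D hD m hm η0 hη0
  obtain ⟨η, hη, hηη⟩ : ∃ η : ℝ, 0 < η ∧ η * 8 = η0 := ⟨η0 / 8, by positivity, by ring⟩
  have hmR : (1 : ℝ) ≤ m := by exact_mod_cast hm
  set ε : ℝ := min (1 / 100) (η / (20000 * (2 + CU + CL))) with hεdef
  have hε0 : 0 < ε := by positivity
  have hε1 : ε ≤ 1 / 100 := min_le_left _ _
  have hεη : ε * (20000 * (2 + CU + CL)) ≤ η := by
    have : ε ≤ η / (20000 * (2 + CU + CL)) := min_le_right _ _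
    rwa [le_div_iff₀ (by positivity)] at this
  have e3 : ∀ᶠ y : ℝ in atTop, max (max 27000 (100 * (m : ℝ))) (max (100 / ε) (40 * K / η)) ≤ Real.log y :=
    Real.tendsto_log_atTop.eventually_ge_atTop _
  have e4 : ∀ᶠ y : ℝ in atTop, (3 : ℝ) ^ m ≤ y := eventually_ge_atTop _
  filter_upwards [hU ε hε0 hε1 m hm, hLo ε hε0 hε1 m hm, e3, e4, eventually_ge_atTop 4] with y hU1 hL1 h3 h4 hy4
  clear hU hLo
  intro S hS
  classical
  have hy0 : 0 < y := by linarith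
  obtain ⟨L, hL⟩ : ∃ L : ℝ, L = Real.log y := ⟨_, rfl⟩
  rw [← hL] at h3 hU1 hL1
  have hLa : 27000 ≤ L := (le_max_left _ _).trans ((le_max_left _ _).trans h3)
  have hLc : 100 / ε ≤ L := (le_max_left _ _).trans ((le_max_right _ _).trans h3)
  have hLd : 40 * K / η ≤ L := (le_max_right _ _).trans ((le_max_right _ _).trans h3)
  have hL0 : 0 < L := by linarith
  have hεL : 100 ≤ ε * L := by rw [div_le_iff₀ hε0] at hLc; linarith
  have hKη : 40 * K ≤ η * L := by rw [div_le_iff₀ hη] at hLd; linarith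
  have hc1 := c43_low
  have hc2 := c43_up
  have hl2g := Real.log_two_gt_d9
  have hl2u := Real.log_two_lt_d9
  have hεL1 : ε * L ≤ 1 / 100 * L := mul_le_mul_of_nonneg_right hε1 hL0.le
  obtain ⟨J, hJ0⟩ : ∃ J : ℕ, J = ⌈16 * L⌉₊ := ⟨_, rfl⟩
  have hJ1 : 16 * L ≤ J := by rw [hJ0]; exact Nat.le_ceil _
  have hJ2 : (J : ℝ) ≤ 17 * L := by
    rw [hJ0]
    have := Nat.ceil_lt_add_one (by positivity : 0 ≤ 16 * L)
    linarith
  have hnice := Gd_nice (ε := 1 / 10) le_rfl (by linarith : (2 : ℝ) ≤ y) (by rw [← hL]; exact hJ1)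
  have hpos : ∀ a ∈ S, 0 < a := by
    intro a ha
    have := (hS a ha).1
    have : (0 : ℝ) < a := by linarith
    exact_mod_cast this
  have hblock : ∀ a ∈ S, y < a ∧ (a : ℝ) ≤ 2 * y := fun a ha => ⟨(hS a ha).1, (hS a ha).2.1⟩
  obtain ⟨f1, f2⟩ := hflux (S.image (fun a : ℕ => (a : ℤ))) (2 * y) J (by
      intro a ha
      rw [mem_image] at ha
      obtain ⟨n, hn, rfl⟩ := ha
      have := (hblock n hn).2
      exact_mod_cast this)
    (fun x hx => fc_nat hnice S hS hpos x hx) (fun z => D z.toNat) (by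
      intro a ha
      rw [mem_image] at ha
      obtain ⟨n, hn, rfl⟩ := ha
      simp only [Int.toNat_natCast]
      exact hD n (hpos n hn)) (1.05 * L) (1.15 * L) (by linarith) (by linarith) (by
      rw [show 2 * y = Real.exp (Real.log 2 + L) by
        rw [hL, Real.exp_add, Real.exp_log (by norm_num), Real.exp_log hy0]]
      apply Real.exp_lt_exp.2
      linarith)
  clear hflux
  have hDs : ∑ a ∈ S.image (fun a : ℕ => (a : ℤ)), D a.toNat = ∑ a ∈ S, D a := by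
    rw [sum_image (fun a _ b _ h => by simpa using h)]
    simp
  rw [hDs, WS_nat S (Real.exp_pos _), WS_nat S (Real.exp_pos _), two_exp, two_exp] at f1
  rw [hDs, WS_nat S (by positivity), WS_nat S (Real.exp_pos _), two_exp, two_exp] at f2
  have hH0 : 0 ≤ Hm y m S := by
    unfold Hm
    apply sum_nonneg
    intro a _
    have := cW_nonneg (cp y) m m a
    positivity
  have hH2 : Hm y m S ≤ 2 := cW_mass hy0 S hblock (cp y) m h4
  have hM1 : 1 ≤ (m : ℝ) ^ B := one_le_pow₀ hmR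
  have hU1' : 0 < CU / (m : ℝ) ^ B := by positivity
  have hU2' : CU / (m : ℝ) ^ B ≤ CU := div_le_self hCU.le hM1
  have hL1' : 0 < CL / (m : ℝ) ^ B := by positivity
  have hL2' : CL / (m : ℝ) ^ B ≤ CL := div_le_self hCL.le hM1
  -- the four window estimates
  have w1 := hU1 S hS (1.05 * L) (1.15 * L + Real.log 2) (by linarith) (by linarith) (by linarith)
  have w2 := hU1 S hS (1.05 * L - 1) (1.05 * L + 1 + Real.log 2) (by linarith) (by linarith) (by linarith)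
  have w3 := hL1 S hS (1.05 * L + Real.log 2) (1.15 * L) (by linarith) (by linarith) (by linarith)
  have w4 := hU1 S hS (1.15 * L - 1) (1.15 * L + 1 + Real.log 2) (by linarith) (by linarith) (by linarith)
  clear hU1 hL1
  have herr : (J : ℝ) * (K / (1.05 * L) ^ 2) ≤ η / 2 := by
    calc (J : ℝ) * (K / (1.05 * L) ^ 2) ≤ (17 * L) * (K / (1.05 * L) ^ 2) :=
          mul_le_mul_of_nonneg_right hJ2 (by positivity)
      _ = 17 * K / (1.1025 * L) := by field_simp; ring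
      _ ≤ η / 2 := by
          rw [div_le_iff₀ (by positivity)]
          linarith
  have hLen : 1.15 * L - 1.05 * L = 0.1 * L := by ring
  rw [hLen] at f1 f2
  have v1 := comb_long hε0 hε1 hεL hc1 (by linarith) (by linarith : Real.log 2 ≤ 0.7)
    (by linarith : 0 ≤ Hm y m S + CU / (m : ℝ) ^ B) (by linarith : Hm y m S + CU / (m : ℝ) ^ B ≤ 2 + CU + CL)
    (by linarith) w1
  have v2 := comb_short hε0 hε1 hεL hc1 (by linarith : Real.log 2 ≤ 0.7)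
    (by linarith : 0 ≤ Hm y m S + CU / (m : ℝ) ^ B) (by linarith : Hm y m S + CU / (m : ℝ) ^ B ≤ 2 + CU + CL)
    (by linarith) w2
  have v4 := comb_short hε0 hε1 hεL hc1 (by linarith : Real.log 2 ≤ 0.7)
    (by linarith : 0 ≤ Hm y m S + CU / (m : ℝ) ^ B) (by linarith : Hm y m S + CU / (m : ℝ) ^ B ≤ 2 + CU + CL)
    (by linarith) w4
  have v3 := comb_low hε0 hε1 hεL hc1 (by linarith) (by linarith : Real.log 2 ≤ 0.7)
    (by rw [abs_le]; constructor <;> linarith : |Hm y m S - CL / (m : ℝ) ^ B| ≤ 2 + CU + CL)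
    (by linarith) w3
  have hfin := comb_fin hL0 hη hc1 hεη herr hU1'.le hL1'.le rfl rfl f1 f2 v1 v2 v3 v4 (by positivity)
  rw [hηη] at hfin
  refine hfin.trans (le_of_eq ?_)
  rw [mul_div_assoc, add_div]

end Pool.Agent.V11311.PD
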