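import Pool.Agent.V11311.PD.P8

/-! Predecessor densities, part 14: the normalised masses and the distribution of `T^N` modulo `3^m`. -/

set_option autoImplicit false

namespace Pool.Agent.V11311.PD

open Finset Filter Topology Pool.Agent.H320R2.PD

open Pool.Agent.Helper894.Collatz (T od period)

/-- words ending a trajectory with at least `m` odd terms -/
theorem end_word (N v m : ℕ) (hv : 0 < T^[N] v) (hm : m ≤ od N v) : ∃ (w : List ℕ) (z : ℕ),
    (∀ e ∈ w, 1 ≤ e) ∧ w.length = m ∧ w.sum ≤ N ∧ T^[N - w.sum] v = z ∧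
    3 ^ m * z + Wo w = 2 ^ w.sum * T^[N] v := by
  obtain ⟨w, j0, x', w1, w2, w3, w4, w5⟩ := conv N v (T^[N] v) rfl
  set a := T^[N] v with ha
  set u := w.take m with hu
  set u' := w.drop m with hu'
  have hw : w = u ++ u' := (List.take_append_drop m w).symm
  have hul : u.length = m := by rw [hu, List.length_take, w2]; omega
  have hu1 : ∀ e ∈ u, 1 ≤ e := fun e he => w1 e (by rw [hw]; exact List.mem_append_left _ he)
  have hu1' : ∀ e ∈ u', 1 ≤ e := fun e he => w1 e (by rw [hw]; exact List.mem_append_right _ he)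
  have hlen : w.length = m + u'.length := by rw [hw, List.length_append, hul]
  have hsum : w.sum = u.sum + u'.sum := by rw [hw, List.sum_append]
  have hWo : Wo w = 2 ^ u'.sum * Wo u + 3 ^ m * Wo u' := by rw [hw, Wo_append, hul]
  rw [hlen, hsum, hWo] at w5
  -- validity of u at a
  have hV : Vd u.length a u := by
    unfold Vd
    rw [hul]
    have h1 : (3 : ℤ) ^ m ∣ 2 ^ u'.sum * ((Wo u : ℤ) - 2 ^ u.sum * a) := by
      have h2 : (3 : ℤ) ^ (m + u'.length) * x' + (2 ^ u'.sum * Wo u + 3 ^ m * Wo u') = 2 ^ (u.sum + u'.sum) * a := by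
        exact_mod_cast w5
      refine ⟨-(3 ^ u'.length * x' + Wo u'), ?_⟩
      rw [pow_add, pow_add] at h2
      linear_combination h2
    have hc : IsCoprime ((3 : ℤ) ^ m) (2 ^ u'.sum) := by
      apply IsCoprime.pow
      exact ⟨1, -1, by norm_num⟩
    exact hc.dvd_of_dvd_mul_left h1
  obtain ⟨z, z1, z2, z3, z4, z5⟩ := path hu1 a hv hV
  rw [hul] at z1
  have h3 : 3 ^ u'.length * x' + Wo u' = 2 ^ u'.sum * z := by
    have h4 : 3 ^ m * (3 ^ u'.length * x' + Wo u') = 3 ^ m * (2 ^ u'.sum * z) := by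
      have h5 : 3 ^ m * (3 ^ u'.length * x' + Wo u') + 2 ^ u'.sum * Wo u
          = 3 ^ m * (2 ^ u'.sum * z) + 2 ^ u'.sum * Wo u := by
        calc 3 ^ m * (3 ^ u'.length * x' + Wo u') + 2 ^ u'.sum * Wo u
            = 3 ^ (m + u'.length) * x' + (2 ^ u'.sum * Wo u + 3 ^ m * Wo u') := by ring
          _ = 2 ^ (u.sum + u'.sum) * a := w5
          _ = 2 ^ u'.sum * (3 ^ m * z + Wo u) := by rw [z1]; ring
          _ = _ := by ring
      exact Nat.add_right_cancel h5
    exact Nat.eq_of_mul_eq_mul_left (by positivity) h4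
  obtain ⟨x, x1, x2, x3, _, _⟩ := path hu1' z z2 (Vd_of_eq h3)
  have hxx : x = x' := by
    have h4 : 3 ^ u'.length * x = 3 ^ u'.length * x' := by omega
    exact Nat.eq_of_mul_eq_mul_left (by positivity) h4
  subst hxx
  refine ⟨u, z, hu1, hul, by omega, ?_, z1⟩
  have h5 : N - u.sum = u'.sum + j0 := by omega
  rw [h5, Function.iterate_add_apply, w3, T_two_pow, x3]

/-- number of `v < 2^N` whose term number `N - s` lies in a given class modulo `2^s` -/
theorem count_class (N s m : ℕ) (hs : s ≤ N) (c : ℤ) (V : Finset ℕ) (hV : V ⊆ range (2 ^ N))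
    (h : ∀ v ∈ V, (2 : ℤ) ^ s ∣ 3 ^ m * (T^[N - s] v : ℕ) + c) : V.card ≤ 2 ^ (N - s) := by
  have h1 : V.card ≤ (range (2 ^ (N - s))).card := by
    apply card_le_card_of_injOn (fun v => v % 2 ^ (N - s))
    · intro v _
      rw [mem_coe, mem_range]
      exact Nat.mod_lt _ (by positivity)
    · intro v hv v' hv' hvv
      have hv := mem_coe.1 hv
      have hv' := mem_coe.1 hv'
      simp only at hvv
      have hlt := mem_range.1 (hV hv)
      have hlt' := mem_range.1 (hV hv')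
      have hsplit : 2 ^ N = 2 ^ (N - s) * 2 ^ s := by rw [← pow_add, Nat.sub_add_cancel hs]
      set r := v % 2 ^ (N - s) with hr
      have e1 : v = r + 2 ^ (N - s) * (v / 2 ^ (N - s)) := (Nat.mod_add_div v _).symm
      have e2 : v' = r + 2 ^ (N - s) * (v' / 2 ^ (N - s)) := by rw [hvv]; exact (Nat.mod_add_div v' _).symm
      set q := v / 2 ^ (N - s) with hq
      set q' := v' / 2 ^ (N - s) with hq'
      have hq1 : q < 2 ^ s := Nat.div_lt_of_lt_mul (by rw [← hsplit]; exact hlt)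
      have hq1' : q' < 2 ^ s := Nat.div_lt_of_lt_mul (by rw [← hsplit]; exact hlt')
      have h2 := h v hv
      have h3 := h v' hv'
      rw [e1, (period (N - s) r q).1] at h2
      rw [e2, (period (N - s) r q').1] at h3
      have h4 := h2.sub h3
      push_cast at h4
      have h5 : (3 : ℤ) ^ m * ((T^[N - s] r : ℕ) + 3 ^ od (N - s) r * q) + c
          - (3 ^ m * ((T^[N - s] r : ℕ) + 3 ^ od (N - s) r * q') + c)
          = (3 ^ m * 3 ^ od (N - s) r) * ((q : ℤ) - q') := by ring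
      rw [h5] at h4
      have hc : IsCoprime ((2 : ℤ) ^ s) (3 ^ m * 3 ^ od (N - s) r) := by
        rw [← pow_add]
        apply IsCoprime.pow
        exact ⟨-1, 1, by norm_num⟩
      have h6 := hc.dvd_of_dvd_mul_left h4
      have h7 : (q : ℤ) - q' = 0 := by
        apply Int.eq_zero_of_abs_lt_dvd h6
        rw [abs_lt]
        have b1 : (q : ℤ) < 2 ^ s := by exact_mod_cast hq1
        have b2 : (q' : ℤ) < 2 ^ s := by exact_mod_cast hq1'
        have b3 : (0 : ℤ) ≤ q := Int.natCast_nonneg q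
        have b4 : (0 : ℤ) ≤ q' := Int.natCast_nonneg q'
        constructor <;> linarith
      have h8 : q = q' := by omega
      rw [e1, e2, h8]
  rwa [card_range] at h1

open scoped Classical in
/-- proportion of the `v < 2^N` with `T^N v ≡ a mod 3^m` -/
noncomputable def pN (N m : ℕ) (a : ℤ) : ℝ :=
  (((range (2 ^ N)).filter fun v => (3 : ℤ) ^ m ∣ (T^[N] v : ℕ) - a).card : ℝ) / 2 ^ N

open scoped Classical in
/-- the same, with at least `m` odd terms -/
noncomputable def pN' (N m : ℕ) (a : ℤ) : ℝ :=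
  (((range (2 ^ N)).filter fun v => (3 : ℤ) ^ m ∣ (T^[N] v : ℕ) - a ∧ (0 < v ∧ m ≤ od N v)).card : ℝ) / 2 ^ N

theorem pN'_le (N m cap : ℕ) (hcap : N ≤ cap) (a : ℤ) : pN' N m a ≤ cW cap m m a := by
  classical
  unfold pN'
  rw [div_le_iff₀ (by positivity)]
  set F := (FW cap m).filter (fun w => Vd m a w ∧ w.sum ≤ N) with hF
  set VV : List ℕ → Finset ℕ := fun w => (range (2 ^ N)).filter
    (fun v => (2 : ℤ) ^ w.sum ∣ 3 ^ m * (T^[N - w.sum] v : ℕ) + Wo w) with hVV
  have hsub : (range (2 ^ N)).filter (fun v => (3 : ℤ) ^ m ∣ (T^[N] v : ℕ) - a ∧ (0 < v ∧ m ≤ od N v))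
      ⊆ F.biUnion VV := by
    intro v hv
    rw [mem_filter] at hv
    obtain ⟨h1, h2, h3, h4⟩ := hv
    obtain ⟨w, z, w1, w2, w3, w4, w5⟩ := end_word N v m (Pool.Agent.H377R2.iter_pos h3 N) h4
    rw [mem_biUnion]
    refine ⟨w, ?_, ?_⟩
    · rw [hF, mem_filter]
      refine ⟨?_, ?_, w3⟩
      · rw [← w2]; exact mem_FW_of w1 (by omega)
      · have h5 : Vd m ((T^[N] v : ℕ) : ℤ) w := by
          rw [← w2] at w5 ⊢
          exact Vd_of_eq w5
        unfold Vd at h5 ⊢
        have h6 := h5.add ((h2.mul_left (2 ^ w.sum)))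
        have h7 : (Wo w : ℤ) - 2 ^ w.sum * (T^[N] v : ℕ) + 2 ^ w.sum * ((T^[N] v : ℕ) - a)
            = (Wo w : ℤ) - 2 ^ w.sum * a := by ring
        rwa [h7] at h6
    · simp only [hVV]
      rw [mem_filter]
      refine ⟨h1, ?_⟩
      rw [w4]
      have h8 : (3 : ℤ) ^ m * z + Wo w = 2 ^ w.sum * (T^[N] v : ℕ) := by exact_mod_cast w5
      rw [h8]
      exact Dvd.intro _ rfl
  have h1 : (((range (2 ^ N)).filter fun v => (3 : ℤ) ^ m ∣ (T^[N] v : ℕ) - a ∧ (0 < v ∧ m ≤ od N v)).card : ℝ)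
      ≤ ∑ w ∈ F, ((VV w).card : ℝ) := by
    exact_mod_cast (card_le_card hsub).trans card_biUnion_le
  refine h1.trans ?_
  have h2 : ∀ w ∈ F, ((VV w).card : ℝ) ≤ wwt w * 2 ^ N := by
    intro w hw
    rw [hF, mem_filter] at hw
    have h3 : (VV w).card ≤ 2 ^ (N - w.sum) := by
      apply count_class N w.sum m hw.2.2 (Wo w) (VV w) (filter_subset _ _)
      intro v hv
      exact (mem_filter.1 hv).2
    have h4 : ((VV w).card : ℝ) ≤ 2 ^ (N - w.sum) := by exact_mod_cast h3
    refine h4.trans (le_of_eq ?_)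
    unfold wwt
    have h5 : (2 : ℝ) ^ N = 2 ^ (N - w.sum) * 2 ^ w.sum := by rw [← pow_add, Nat.sub_add_cancel hw.2.2]
    rw [h5, one_div, inv_pow]
    field_simp
  refine (sum_le_sum h2).trans ?_
  rw [← sum_mul]
  apply mul_le_mul_of_nonneg_right _ (by positivity)
  unfold cW
  rw [hF, sum_filter]
  apply sum_le_sum
  intro w _
  by_cases hV : Vd m a w
  · rw [if_pos hV]
    split_ifs
    · exact le_rfl
    · exact (wwt_pos w).le
  · rw [if_neg hV, if_neg (fun h => hV h.1)]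

/-- sum over the classes of an indicator -/
theorem sum_class_one (m : ℕ) (b : ℤ) : ∑ c ∈ range (3 ^ m), (if (3 : ℤ) ^ m ∣ b - (c : ℤ) then (1 : ℝ) else 0) = 1 := by
  have h3 : (0 : ℤ) < 3 ^ m := by positivity
  have hr0 := Int.emod_nonneg b h3.ne'
  have hr1 := Int.emod_lt_of_pos b h3
  rw [sum_eq_single (b % 3 ^ m).toNat]
  · rw [if_pos]
    rw [Int.toNat_of_nonneg hr0]
    exact Int.dvd_self_sub_emod
  · intro c hc hne
    rw [if_neg]
    intro hd
    apply hne
    rw [mem_range] at hc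
    have hc' : (c : ℤ) < 3 ^ m := by exact_mod_cast hc
    have h1 : b % 3 ^ m = c := by
      have h2 : (c : ℤ) % 3 ^ m = c := Int.emod_eq_of_lt (by positivity) hc'
      have h4 : b % 3 ^ m = (c : ℤ) % 3 ^ m :=
        (Int.emod_eq_emod_iff_emod_sub_eq_zero).2 (Int.emod_eq_zero_of_dvd hd)
      rw [h4, h2]
    rw [h1]; simp
  · intro hn
    exfalso
    apply hn
    rw [mem_range]
    have : ((b % 3 ^ m).toNat : ℤ) < ((3 ^ m : ℕ) : ℤ) := by
      rw [Int.toNat_of_nonneg hr0]; push_cast; exact hr1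
    exact_mod_cast this

theorem sum_pN (N m : ℕ) : ∑ c ∈ range (3 ^ m), pN N m (c : ℤ) = 1 := by
  classical
  unfold pN
  rw [← sum_div]
  have h1 : ∀ c ∈ range (3 ^ m), (((range (2 ^ N)).filter fun v => (3 : ℤ) ^ m ∣ (T^[N] v : ℕ) - (c : ℤ)).card : ℝ)
      = ∑ v ∈ range (2 ^ N), (if (3 : ℤ) ^ m ∣ (T^[N] v : ℕ) - (c : ℤ) then (1 : ℝ) else 0) := by
    intro c _
    rw [card_filter]
    push_cast
    rfl
  rw [sum_congr rfl h1, sum_comm]
  simp only [sum_class_one]
  simp

end Pool.Agent.V11311.PD
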