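import Pool.Agent.V11311.PD.P14
import Pool.Agent.V11311.PD.P13

/-! Predecessor densities, part 15: the normalised masses and the proportions `pN`, on average. -/

set_option autoImplicit false

namespace Pool.Agent.V11311.PD

open Finset Filter Topology Pool.Agent.H320R2.PD

open Pool.Agent.Helper894.Collatz (T od)

open scoped Classical in
theorem Vd_sum (m : ℕ) (w : List ℕ) : ∑ c ∈ range (3 ^ m), (if Vd m (c : ℤ) w then (1 : ℝ) else 0) ≤ 1 := by
  rw [← sum_filter, sum_const, nsmul_eq_mul, mul_one]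
  have h : ((range (3 ^ m)).filter fun c : ℕ => Vd m (c : ℤ) w).card ≤ 1 := by
    rw [card_le_one]
    intro c hc c' hc'
    rw [mem_filter, mem_range] at hc hc'
    have h1 := hc.2.sub hc'.2
    have h2 : (Wo w : ℤ) - 2 ^ w.sum * c - ((Wo w : ℤ) - 2 ^ w.sum * c') = 2 ^ w.sum * ((c' : ℤ) - c) := by ring
    rw [h2] at h1
    have hcp : IsCoprime ((3 : ℤ) ^ m) (2 ^ w.sum) := by
      apply IsCoprime.pow
      exact ⟨1, -1, by norm_num⟩
    have h3 := hcp.dvd_of_dvd_mul_left h1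
    have b1 : (c : ℤ) < 3 ^ m := by exact_mod_cast hc.1
    have b2 : (c' : ℤ) < 3 ^ m := by exact_mod_cast hc'.1
    have b3 : (0 : ℤ) ≤ c := Int.natCast_nonneg c
    have b4 : (0 : ℤ) ≤ c' := Int.natCast_nonneg c'
    have h4 : (c' : ℤ) - c = 0 := by
      apply Int.eq_zero_of_abs_lt_dvd h3
      rw [abs_lt]
      constructor <;> linarith
    omega
  exact_mod_cast h

theorem sum_cW_le (cap m : ℕ) : ∑ c ∈ range (3 ^ m), cW cap m m (c : ℤ) ≤ 1 := by
  classical
  unfold cW
  rw [sum_comm]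
  refine le_trans (sum_le_sum fun w _ => ?_) (sum_wwt_le cap m)
  have h1 : ∑ c ∈ range (3 ^ m), (if Vd m (c : ℤ) w then wwt w else 0)
      = wwt w * ∑ c ∈ range (3 ^ m), (if Vd m (c : ℤ) w then (1 : ℝ) else 0) := by
    rw [mul_sum]
    apply sum_congr rfl
    intro c _
    split_ifs <;> simp
  rw [h1]
  have h2 := Vd_sum m w
  have hw := wwt_pos w
  calc wwt w * ∑ c ∈ range (3 ^ m), (if Vd m (c : ℤ) w then (1 : ℝ) else 0) ≤ wwt w * 1 := by
        apply mul_le_mul_of_nonneg_left h2 hw.le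
    _ = wwt w := mul_one _

theorem pN'_le_pN (N m : ℕ) (a : ℤ) : pN' N m a ≤ pN N m a := by
  classical
  unfold pN' pN
  apply div_le_div_of_nonneg_right _ (by positivity)
  have h : (range (2 ^ N)).filter (fun v => (3 : ℤ) ^ m ∣ (T^[N] v : ℕ) - a ∧ (0 < v ∧ m ≤ od N v))
      ⊆ (range (2 ^ N)).filter (fun v => (3 : ℤ) ^ m ∣ (T^[N] v : ℕ) - a) := by
    intro v hv
    rw [mem_filter] at hv ⊢
    exact ⟨hv.1, hv.2.1⟩
  exact_mod_cast card_le_card h

theorem sum_pN' (N m : ℕ) (hm : 1 ≤ m) : 1 - (((range (2 ^ N)).filter fun v => od N v < m).card : ℝ) / 2 ^ N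
    ≤ ∑ c ∈ range (3 ^ m), pN' N m (c : ℤ) := by
  classical
  unfold pN'
  rw [← sum_div]
  have h1 : ∀ c ∈ range (3 ^ m), (((range (2 ^ N)).filter fun v => (3 : ℤ) ^ m ∣ (T^[N] v : ℕ) - (c : ℤ) ∧
      (0 < v ∧ m ≤ od N v)).card : ℝ)
      = ∑ v ∈ (range (2 ^ N)).filter (fun v => 0 < v ∧ m ≤ od N v),
        (if (3 : ℤ) ^ m ∣ (T^[N] v : ℕ) - (c : ℤ) then (1 : ℝ) else 0) := by
    intro c _
    rw [← sum_filter, filter_filter, sum_const, nsmul_eq_mul, mul_one]
    congr 2
    ext v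
    rw [mem_filter, mem_filter]
    tauto
  rw [sum_congr rfl h1, sum_comm]
  simp only [sum_class_one]
  rw [sum_const, nsmul_eq_mul, mul_one]
  have h2 : ((range (2 ^ N)).filter fun v => od N v < m).card
      + ((range (2 ^ N)).filter (fun v => 0 < v ∧ m ≤ od N v)).card = 2 ^ N := by
    have h3 : (range (2 ^ N)).filter (fun v => 0 < v ∧ m ≤ od N v)
        = (range (2 ^ N)).filter (fun v => ¬ od N v < m) := by
      ext v
      rw [mem_filter, mem_filter]
      constructor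
      · rintro ⟨a, b, c⟩; exact ⟨a, by omega⟩
      · rintro ⟨a, b⟩
        refine ⟨a, ?_, by omega⟩
        rcases Nat.eq_zero_or_pos v with rfl | h
        · exfalso
          apply b
          have : od N 0 = 0 := by
            have h0 : ∀ i, T^[i] 0 = 0 := by
              intro i
              induction i with
              | zero => rfl
              | succ i ih => rw [Function.iterate_succ_apply', ih]; rfl
            unfold od
            simp [h0]
          omega
        · exact h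
    rw [h3, card_filter_add_card_filter_not, card_range]
  have h3 : (((range (2 ^ N)).filter fun v => od N v < m).card : ℝ)
      + (((range (2 ^ N)).filter (fun v => 0 < v ∧ m ≤ od N v)).card : ℝ) = 2 ^ N := by exact_mod_cast h2
  have h4 : (0 : ℝ) < 2 ^ N := by positivity
  rw [le_div_iff₀ h4, sub_mul, div_mul_cancel₀ _ h4.ne']
  linarith

theorem few_odd (m : ℕ) : (((range (2 ^ (4 * m))).filter fun v => od (4 * m) v < m).card : ℝ) / 2 ^ (4 * m)
    ≤ Real.exp (-((m : ℝ) / 2)) := by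
  rw [div_le_iff₀ (by positivity)]
  have h := Pool.Agent.H319R2.Lln.tail (4 * m) (4 * m) le_rfl (1 / 4) (-1) (by norm_num) (by norm_num)
  have h2 : (((range (2 ^ (4 * m))).filter fun v => od (4 * m) v < m).card : ℝ)
      ≤ ((((range (2 ^ (4 * m))).filter fun y => 1 / 4 * ((4 * m : ℕ) : ℝ) ≤ (-1) * ((od (4 * m) y : ℝ) - ((4 * m : ℕ) : ℝ) / 2)).card : ℕ) : ℝ) := by
    have : (range (2 ^ (4 * m))).filter (fun v => od (4 * m) v < m)
        ⊆ (range (2 ^ (4 * m))).filter (fun y => 1 / 4 * ((4 * m : ℕ) : ℝ) ≤ (-1) * ((od (4 * m) y : ℝ) - ((4 * m : ℕ) : ℝ) / 2)) := by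
      intro v hv
      rw [mem_filter] at hv ⊢
      refine ⟨hv.1, ?_⟩
      have : (od (4 * m) v : ℝ) ≤ m := by exact_mod_cast hv.2.le
      push_cast
      linarith
    exact_mod_cast card_le_card this
  refine h2.trans (h.trans (le_of_eq ?_))
  rw [mul_comm]
  congr 2
  push_cast
  ring

/-- total variation between the normalised masses and the proportions -/
theorem cW_pN (m cap : ℕ) (hm : 1 ≤ m) (hcap : 4 * m ≤ cap) :
    ∑ c ∈ range (3 ^ m), |cW cap m m (c : ℤ) - pN (4 * m) m (c : ℤ)| ≤ 2 * Real.exp (-((m : ℝ) / 2)) := by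
  have h1 : ∀ c ∈ range (3 ^ m), |cW cap m m (c : ℤ) - pN (4 * m) m (c : ℤ)|
      ≤ (cW cap m m (c : ℤ) + pN (4 * m) m (c : ℤ)) - 2 * pN' (4 * m) m (c : ℤ) := by
    intro c _
    have a1 := pN'_le (4 * m) m cap hcap (c : ℤ)
    have a2 := pN'_le_pN (4 * m) m (c : ℤ)
    rw [abs_le]; constructor <;> linarith
  refine (sum_le_sum h1).trans ?_
  rw [sum_sub_distrib, sum_add_distrib, ← mul_sum, sum_pN]
  have a1 := sum_cW_le cap m
  have a2 := sum_pN' (4 * m) m hm
  have a3 := few_odd m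
  linarith

theorem pN_congr (N m : ℕ) {c c' : ℤ} (h : (3 : ℤ) ^ m ∣ c - c') : pN N m c = pN N m c' := by
  classical
  unfold pN
  congr 2
  apply congrArg
  apply filter_congr
  intro v _
  constructor
  · intro h1
    have := h1.add h
    rwa [show ((T^[N] v : ℕ) : ℤ) - c + (c - c') = (T^[N] v : ℕ) - c' by ring] at this
  · intro h1
    have := h1.sub h
    rwa [show ((T^[N] v : ℕ) : ℤ) - c' - (c - c') = (T^[N] v : ℕ) - c by ring] at this

theorem cW_congr (cap k m : ℕ) {c c' : ℤ} (h : (3 : ℤ) ^ m ∣ c - c') : cW cap k m c = cW cap k m c' := by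
  rw [cW_cnt, cW_cnt]
  apply sum_congr rfl
  intro T _
  apply Pool.Agent.H499R2.ND.cnt_congr
  rw [← mul_sub]
  exact h.mul_left _

theorem cW_pN_block {y : ℝ} (hy : 0 < y) (S : Finset ℕ) (hS : ∀ a ∈ S, y < a ∧ (a : ℝ) ≤ 2 * y) (m cap : ℕ)
    (hm : 1 ≤ m) (hcap : 4 * m ≤ cap) (hky : (3 : ℝ) ^ m ≤ y) :
    ∑ a ∈ S, (1 / (a : ℝ)) * (3 ^ m * |cW cap m m a - pN (4 * m) m a|) ≤ 4 * Real.exp (-((m : ℝ) / 2)) := by
  have h1 := block_sum_le hy S hS m hky ({0} : Finset ℕ) (fun _ => 0)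
    (fun _ c => |cW cap m m c - pN (4 * m) m c|) (fun _ _ => abs_nonneg _) (by
      intro _ c c' h
      rw [cW_congr cap m m h, pN_congr (4 * m) m h])
  simp only [sum_singleton, pow_zero, one_mul] at h1
  have h2 := cW_pN m cap hm hcap
  linarith

end Pool.Agent.V11311.PD
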