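import Pool.Agent.V11311.PD.P1
import Pool.Agent.H499R2.LT.B2

/-! Predecessor densities, part 2: equidistribution mod 3 of all elements, the harmonic relation with
uniform constants. -/

set_option autoImplicit false

namespace Pool.Agent.V11311.PD

open Pool.Agent.H320R2.PD Finset Filter Topology

open Pool.Agent.H499R2.ND hiding La Ea Me FC

open Pool.Agent.H499R2.CZ Pool.Agent.H499R2.LT Pool.Agent.H499R2.LT.B1

theorem wc_Rg {Y A : ℝ} (h : Y < A) (b : ℝ) (q c : ℤ) : (wc (Rg Y) A b q c).card = 0 := by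
  rw [card_eq_zero, Finset.eq_empty_iff_forall_notMem]
  intro x hx
  rw [mem_wc] at hx
  have h1 : (x : ℝ) ≤ Y := hx.2.1
  linarith [hx.1.1]

theorem AI_GF {d : ℤ} {R S : Set ℤ} (hS : AI d R S) : GF d R (fun _ _ => S) := fun _ _ x hx => hS x hx

theorem halving {Y : ℝ} {S : Set ℤ} (hS : AI 1 (Rg Y) S) {τ E : ℝ} (hτ : 0 ≤ τ) (hE : 0 ≤ E)
    (hY : ∀ A : ℝ, 0 < A → τ ≤ Real.log A → Y < A)
    (hodd : ∀ A : ℝ, 0 < A → τ ≤ Real.log A → ∀ c c' : ℤ,
      ((cls S A (2 * A) 1 1 c).card : ℝ) ≤ (cls S A (2 * A) 1 1 c').card + E * A) (n : ℕ) :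
    ∀ A : ℝ, 0 < A → τ + n * Real.log 2 ≤ Real.log A → ∀ c c' : ℤ,
      ((wc S A (2 * A) 3 c).card : ℝ) ≤ (wc S A (2 * A) 3 c').card + (2 * E + 2 * (1 / 2) ^ n) * A := by
  induction n with
  | zero =>
    intro A hA h1 c c'
    have h2 : τ ≤ Real.log A := by simpa using h1
    have h3 := wc_card_le S (by linarith : A ≤ 2 * A) (q := 3) (by norm_num) c
    have h4 : 1 ≤ A := by
      rw [← Real.exp_log hA]
      exact Real.one_le_exp (hτ.trans h2)
    have h5 : (0 : ℝ) ≤ (wc S A (2 * A) 3 c').card := Nat.cast_nonneg _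
    push_cast at h3
    rw [pow_zero]
    nlinarith
  | succ n ih =>
    intro A hA h1 c c'
    have hl2 : 0 < Real.log 2 := Real.log_pos (by norm_num)
    have hlog : Real.log (A / 2) = Real.log A - Real.log 2 := Real.log_div hA.ne' (by norm_num)
    push_cast at h1
    have hn : 0 ≤ (n : ℝ) * Real.log 2 := by positivity
    have hih := ih (A / 2) (by linarith) (by rw [hlog]; linarith) (2 * c) (2 * c')
    have hτA : τ ≤ Real.log A := by linarith
    have ho := hodd A hA hτA c c'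
    have hr := wc_Rg (hY A hA hτA) (2 * A) 1 0
    have e1 : ((wc S A (2 * A) 3 c).card : ℝ)
        ≤ (cls S A (2 * A) 1 1 c).card +
          (wc S (A / 2) (2 * (A / 2)) 3 (2 * c)).card := by
      have := B2_parity_le (AI_GF hS) 0 0 A c
      rw [hr, add_zero] at this
      exact_mod_cast this
    have e2 : ((cls S A (2 * A) 1 1 c').card : ℝ) +
          (wc S (A / 2) (2 * (A / 2)) 3 (2 * c')).card ≤
        (wc S A (2 * A) 3 c').card := by
      have := B2_parity_ge (AI_GF hS) 0 0 A c'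
      rw [hr, add_zero] at this
      exact_mod_cast this
    have e3 : (2 * E + 2 * (1 / 2) ^ (n + 1)) * A = E * A + (2 * E + 2 * (1 / 2) ^ n) * (A / 2) := by
      rw [pow_succ]; ring
    rw [e3]
    linarith

/-- EQUIDISTRIBUTION mod 3 -/
theorem equi_all (B : ℕ) : ∃ K : ℝ, 0 < K ∧ ∀ (Y : ℝ) (S : Set ℤ), AI 1 (Rg Y) S → ∀ A : ℝ, 0 < A →
    27000 ≤ Real.log A → Y < Real.exp (0.96 * Real.log A) → ∀ c c' : ℤ,
      ((wc S A (2 * A) 3 c).card : ℝ) ≤ (wc S A (2 * A) 3 c').card + K / (Real.log A) ^ B * A := by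
  obtain ⟨C, hC, he⟩ := equi_odd B
  refine ⟨C * 2 ^ B + 4 * (B.factorial * 100 ^ B), by positivity, ?_⟩
  intro Y S hS A hA ht hY c c'
  set t := Real.log A with htdef
  have htpos : 0 < t := by linarith
  have hl2 := Real.log_two_gt_d9
  have hl2' := Real.log_two_lt_d9
  have hl20 : 0 < Real.log 2 := by linarith
  obtain ⟨n, hn⟩ : ∃ n : ℕ, n = ⌊t / 100 / Real.log 2⌋₊ := ⟨_, rfl⟩
  have hn1 : (n : ℝ) * Real.log 2 ≤ t / 100 := by
    have : (n : ℝ) ≤ t / 100 / Real.log 2 := by rw [hn]; exact Nat.floor_le (by positivity)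
    rwa [le_div_iff₀ hl20] at this
  have hn2 : t / 100 < ((n : ℝ) + 1) * Real.log 2 := by
    have : t / 100 / Real.log 2 < n + 1 := by rw [hn]; exact Nat.lt_floor_add_one _
    rwa [div_lt_iff₀ hl20] at this
  set τ := 0.99 * t with hτ
  have hτpos : 0 < τ := by positivity
  have hYlt : ∀ A' : ℝ, 0 < A' → τ ≤ Real.log A' → Y < Real.exp (0.97 * Real.log A') := by
    intro A' _ h1
    refine lt_of_lt_of_le hY ?_
    apply Real.exp_le_exp.2
    have : 0.97 * τ ≤ 0.97 * Real.log A' := by linarith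
    rw [hτ] at this
    linarith
  have hhalf := halving hS (τ := τ) (E := C / τ ^ B / 6) hτpos.le (by positivity)
    (fun A' hA' h1 => by
      refine lt_of_lt_of_le (hYlt A' hA' h1) ?_
      calc Real.exp (0.97 * Real.log A') ≤ Real.exp (Real.log A') := by
            apply Real.exp_le_exp.2
            linarith
        _ = A' := Real.exp_log hA')
    (fun A' hA' h1 c c' => by
      have h2 := he Y S hS A' hA' (by rw [hτ] at h1; linarith) (hYlt A' hA' h1) 1 (le_refl _) c c'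
      have h3 : C / (Real.log A') ^ B * (A' / (2 * 3 ^ 1)) ≤ C / τ ^ B / 6 * A' := by
        have h4 : τ ^ B ≤ (Real.log A') ^ B := pow_le_pow_left₀ hτpos.le h1 B
        have h5 : C / (Real.log A') ^ B ≤ C / τ ^ B :=
          div_le_div_of_nonneg_left hC.le (by positivity) h4
        have h6 := mul_le_mul_of_nonneg_right h5 (by positivity : 0 ≤ A' / 6)
        calc C / (Real.log A') ^ B * (A' / (2 * 3 ^ 1)) = C / (Real.log A') ^ B * (A' / 6) := by norm_num
          _ ≤ C / τ ^ B * (A' / 6) := h6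
          _ = _ := by ring
      linarith) n
  have h1 := hhalf A hA (by rw [hτ]; linarith) c c'
  refine h1.trans ?_
  apply add_le_add_right
  apply mul_le_mul_of_nonneg_right _ hA.le
  have h2 : 2 * (C / τ ^ B / 6) ≤ C * 2 ^ B / t ^ B := by
    have h3 : (t / 2) ^ B ≤ τ ^ B := pow_le_pow_left₀ (by positivity) (by rw [hτ]; linarith) B
    have h4 : C / τ ^ B ≤ C / (t / 2) ^ B := div_le_div_of_nonneg_left hC.le (by positivity) h3
    have h5 : C / (t / 2) ^ B = C * 2 ^ B / t ^ B := by rw [div_pow]; field_simp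
    rw [h5] at h4
    have h6 : 0 < C / τ ^ B := by positivity
    linarith
  have h3 : 2 * (1 / 2 : ℝ) ^ n ≤ 4 * (B.factorial * 100 ^ B) / t ^ B := by
    have h4 := exp_neg_le B (by norm_num : (0 : ℝ) < 100) htpos
    have h5 : (1 / 2 : ℝ) ^ n ≤ 2 * Real.exp (-(t / 100)) := by
      have h6 : (1 / 2 : ℝ) ^ n = 2 * Real.exp (-(((n : ℝ) + 1) * Real.log 2)) := by
        rw [Real.exp_neg, show ((n : ℝ) + 1) * Real.log 2 = ((n + 1 : ℕ) : ℝ) * Real.log 2 by push_cast; ring,
          Real.exp_nat_mul, Real.exp_log (by norm_num), pow_succ, one_div, inv_pow, mul_inv]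
        ring
      rw [h6]
      have : Real.exp (-(((n : ℝ) + 1) * Real.log 2)) ≤ Real.exp (-(t / 100)) := by
        apply Real.exp_le_exp.2; linarith
      linarith
    rw [mul_div_assoc]
    linarith
  rw [add_div]
  linarith

/-- the harmonic relation with uniform constants -/
theorem harm_unif (B : ℕ) : ∃ K : ℝ, 0 < K ∧ ∀ (Y : ℝ) (S : Set ℤ), AI 1 (Rg Y) S → ∀ A : ℝ, 0 < A →
    27000 ≤ Real.log A → Y < Real.exp (0.96 * Real.log A) →
      |((wc S A (2 * A) 1 0).card : ℝ) - (wc S (A / 2) (2 * (A / 2)) 1 0).card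
        - (wc S (3 * A / 2) (2 * (3 * A / 2)) 1 0).card / 3| ≤ K / (Real.log A) ^ B * A := by
  obtain ⟨K, hK, he⟩ := equi_all B
  refine ⟨2 * K + 2 * (B.factorial * 1 ^ B), by positivity, ?_⟩
  intro Y S hS A hA ht hY
  have hYA : Y < A := by
    refine lt_of_lt_of_le hY ?_
    calc Real.exp (0.96 * Real.log A) ≤ Real.exp (Real.log A) := by
          apply Real.exp_le_exp.2
          linarith
      _ = A := Real.exp_log hA
  have hr := wc_Rg hYA (2 * A) 1 0
  have h1 : ((wc S A (2 * A) 1 0).card : ℝ)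
      ≤ (cls S A (2 * A) 0 1 0).card + (wc S (A / 2) (2 * (A / 2)) 1 0).card := by
    have := hS.parity_le A
    rw [hr, add_zero] at this
    exact_mod_cast this
  have h1' : ((cls S A (2 * A) 0 1 0).card : ℝ) + (wc S (A / 2) (2 * (A / 2)) 1 0).card
      ≤ (wc S A (2 * A) 1 0).card := by
    have := hS.parity_ge A
    rw [hr, add_zero] at this
    exact_mod_cast this
  have h2 : ((cls S A (2 * A) 0 1 0).card : ℝ)
      ≤ (wc S (3 * A / 2 + ((1 : ℤ) : ℝ) / 2) (2 * (3 * A / 2) + ((1 : ℤ) : ℝ) / 2) 3 (2 * 1)).card := by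
    have := hS.odd_le odd_one A
    rw [hr, add_zero] at this
    exact_mod_cast this
  have h2' : ((wc S (3 * A / 2 + ((1 : ℤ) : ℝ) / 2) (2 * (3 * A / 2) + ((1 : ℤ) : ℝ) / 2) 3 (2 * 1)).card : ℝ)
      ≤ (cls S A (2 * A) 0 1 0).card := by
    have := hS.odd_ge odd_one A
    rw [hr, add_zero] at this
    exact_mod_cast this
  set L := 3 * A / 2 with hL
  have hLpos : 0 < L := by positivity
  have hlogL : Real.log A ≤ Real.log L := Real.log_le_log hA (by rw [hL]; linarith)
  have h3 := wc_shift_le S L (((1 : ℤ) : ℝ) / 2) 3 (2 * 1)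
  have h4 := wc_shift_ge S L (((1 : ℤ) : ℝ) / 2) 3 (2 * 1)
  have hthree : ((wc S L (2 * L) 1 0).card : ℝ)
      = (wc S L (2 * L) 3 0).card + (wc S L (2 * L) 3 1).card + (wc S L (2 * L) 3 2).card := by
    exact_mod_cast wc_three S L (2 * L)
  have he' : ∀ c c' : ℤ, ((wc S L (2 * L) 3 c).card : ℝ)
        ≤ (wc S L (2 * L) 3 c').card + K / (Real.log L) ^ B * L :=
    fun c c' => he Y S hS L hLpos (by linarith) (lt_of_lt_of_le hY (Real.exp_le_exp.2 (by linarith))) c c'
  set D := K / (Real.log L) ^ B * L with hD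
  have u0 := he' (2 * 1) 0
  have u1 := he' (2 * 1) 1
  have u2 := he' (2 * 1) 2
  have v0 := he' 0 (2 * 1)
  have v1 := he' 1 (2 * 1)
  have v2 := he' 2 (2 * 1)
  have htpos : 0 < Real.log A := by linarith
  have hDle : D ≤ 3 / 2 * (K / (Real.log A) ^ B * A) := by
    rw [hD, hL]
    have : K / (Real.log (3 * A / 2)) ^ B ≤ K / (Real.log A) ^ B := by
      apply div_le_div_of_nonneg_left hK.le (by positivity)
      exact pow_le_pow_left₀ htpos.le hlogL B
    calc K / (Real.log (3 * A / 2)) ^ B * (3 * A / 2) ≤ K / (Real.log A) ^ B * (3 * A / 2) :=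
          mul_le_mul_of_nonneg_right this (by positivity)
      _ = _ := by ring
  have hlLpos : 0 < Real.log L := by linarith
  have hD0 : 0 ≤ D := by positivity
  have hd2 : |((1 : ℤ) : ℝ) / 2| = 1 / 2 := by norm_num
  rw [hd2] at h3 h4
  -- the constant is absorbed
  have habs : 2 * (B.factorial * 1 ^ B) / (Real.log A) ^ B * A ≥ 2 := by
    have h5 := exp_neg_le B (by norm_num : (0 : ℝ) < 1) htpos
    rw [div_one, Real.exp_neg, Real.exp_log hA] at h5
    have h6 := mul_le_mul_of_nonneg_right h5 hA.le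
    rw [inv_mul_cancel₀ hA.ne'] at h6
    have h7 : 2 * ((B.factorial : ℝ) * 1 ^ B) / (Real.log A) ^ B * A
        = 2 * ((B.factorial : ℝ) * 1 ^ B / (Real.log A) ^ B * A) := by ring
    rw [h7]
    linarith
  have hfin : (2 * K + 2 * (B.factorial * 1 ^ B)) / (Real.log A) ^ B * A
      = 2 * (K / (Real.log A) ^ B * A) + 2 * (B.factorial * 1 ^ B) / (Real.log A) ^ B * A := by ring
  rw [hfin]
  have hKA : 0 ≤ K / (Real.log A) ^ B * A := by positivity
  rw [abs_le]
  constructor <;> linarith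

theorem Fd_harm_unif (B : ℕ) : ∃ K : ℝ, 0 < K ∧ ∀ (Y : ℝ) (S : Set ℤ), AI 1 (Rg Y) S → ∀ t : ℝ,
    27000 ≤ t → Y < Real.exp (0.96 * t) →
      |Fd S t - (Fd S (t - Real.log 2) + Fd S (t + Real.log (3 / 2))) / 2| ≤ K / t ^ B := by
  obtain ⟨K, hK, h⟩ := harm_unif B
  refine ⟨K, hK, fun Y S hS t ht hY => ?_⟩
  have he := Real.exp_pos t
  have h1 := h Y S hS (Real.exp t) he (by rw [Real.log_exp]; exact ht) (by rw [Real.log_exp]; exact hY)
  rw [Real.log_exp] at h1
  have e1 : Real.exp (t - Real.log 2) = Real.exp t / 2 := by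
    rw [Real.exp_sub, Real.exp_log (by norm_num)]
  have e2 : Real.exp (t + Real.log (3 / 2)) = 3 * Real.exp t / 2 := by
    rw [Real.exp_add, Real.exp_log (by norm_num)]; ring
  have w0 := Fd_win S t
  have w1 := Fd_win S (t - Real.log 2)
  have w2 := Fd_win S (t + Real.log (3 / 2))
  rw [e1] at w1
  rw [e2] at w2
  rw [← w0, ← w1, ← w2] at h1
  set A := Real.exp t with hA
  have hrel : Fd S t * (3 * A) - Fd S (t - Real.log 2) * (3 * (A / 2))
      - Fd S (t + Real.log (3 / 2)) * (3 * (3 * A / 2)) / 3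
      = (Fd S t - (Fd S (t - Real.log 2) + Fd S (t + Real.log (3 / 2))) / 2) * (3 * A) := by ring
  rw [hrel, abs_mul, abs_of_pos (by positivity : (0 : ℝ) < 3 * A)] at h1
  have hX := abs_nonneg (Fd S t - (Fd S (t - Real.log 2) + Fd S (t + Real.log (3 / 2))) / 2)
  have htpos : 0 < t := by linarith
  have hKt : 0 < K / t ^ B := by positivity
  by_contra hcon
  push Not at hcon
  nlinarith

end Pool.Agent.V11311.PD
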