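import Pool.Agent.V11311.PD.P2

/-! Predecessor densities, part 3: the conservation law. -/

set_option autoImplicit false

namespace Pool.Agent.V11311.PD

open Pool.Agent.H320R2.PD Finset Filter Topology MeasureTheory

open Pool.Agent.H499R2.ND hiding La Ea Me FC

open Pool.Agent.H499R2.CZ Pool.Agent.H499R2.LT Pool.Agent.H499R2.HL

theorem intbl {F : ℝ → ℝ} (hF : Measurable F) {M : ℝ} (h0 : ∀ t, 0 ≤ F t) (h1 : ∀ t, F t ≤ M) (a b : ℝ) :
    IntervalIntegrable F volume a b := by
  rw [intervalIntegrable_iff]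
  apply Measure.integrableOn_of_bounded (M := M)
  · simp [Set.uIoc, Real.volume_Ioc]
  · exact hF.aestronglyMeasurable
  · filter_upwards with x
    rw [Real.norm_eq_abs, abs_of_nonneg (h0 x)]; exact h1 x

/-- the sum of the window densities of a family -/
noncomputable def FF (N : ℕ) (S : ℕ → Set ℤ) (t : ℝ) : ℝ := ∑ i ∈ range N, Fd (S i) t

theorem FF_meas (N : ℕ) (S : ℕ → Set ℤ) : Measurable (FF N S) := by
  unfold FF
  exact Finset.measurable_sum _ fun i _ => Fd_meas (S i)

theorem FF_nonneg (N : ℕ) (S : ℕ → Set ℤ) (t : ℝ) : 0 ≤ FF N S t :=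
  sum_nonneg fun i _ => Fd_nonneg (S i) t

theorem FF_le (N : ℕ) (S : ℕ → Set ℤ) (t : ℝ) : FF N S t ≤ N := by
  unfold FF
  calc ∑ i ∈ range N, Fd (S i) t ≤ ∑ i ∈ range N, (1 : ℝ) := sum_le_sum fun i _ => Fd_le_one (S i) t
    _ = N := by simp

theorem FF_int (N : ℕ) (S : ℕ → Set ℤ) (a b : ℝ) : IntervalIntegrable (FF N S) volume a b :=
  intbl (FF_meas N S) (FF_nonneg N S) (FF_le N S) a b

theorem II_FF (N : ℕ) (S : ℕ → Set ℤ) (t : ℝ) : II (FF N S) t = ∑ i ∈ range N, II (Fd (S i)) t := by
  have h : ∀ a b : ℝ, ∫ u in a..b, FF N S u = ∑ i ∈ range N, ∫ u in a..b, Fd (S i) u := by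
    intro a b
    unfold FF
    rw [intervalIntegral.integral_finsetSum]
    intro i _
    exact intble (Fd_meas (S i)) (Fd_nonneg (S i)) (Fd_le_one (S i)) a b
  unfold II
  rw [h, h, ← sum_sub_distrib]

theorem II_const_sub {F : ℝ → ℝ} {l ε t : ℝ} (hF : ∀ a b : ℝ, IntervalIntegrable F volume a b)
    (h : ∀ u, t - Real.log 2 ≤ u → |F u - l| ≤ ε) : |II F t - Real.log (4 / 3) * l| ≤ 2 * ε := by
  have ha : 0 < Real.log 2 := Real.log_pos (by norm_num)
  have hb : 0 < Real.log (3 / 2) := Real.log_pos (by norm_num)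
  have hl2 := Real.log_two_lt_d9
  have hb1 : Real.log (3 / 2) ≤ 1 := by
    have := Real.log_le_sub_one_of_pos (by norm_num : (0 : ℝ) < 3 / 2)
    linarith
  have hab : Real.log (4 / 3) = Real.log 2 - Real.log (3 / 2) := by
    rw [← Real.log_div (by norm_num) (by norm_num)]; norm_num
  have key : ∀ a b : ℝ, t - Real.log 2 ≤ a → a ≤ b → |(∫ u in a..b, F u) - (b - a) * l| ≤ ε * (b - a) := by
    intro a b hta hab'
    have h1 : (∫ u in a..b, F u) - (b - a) * l = ∫ u in a..b, (F u - l) := by
      rw [intervalIntegral.integral_sub (hF a b) intervalIntegrable_const, intervalIntegral.integral_const,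
        smul_eq_mul]
    rw [h1]
    have h2 := intervalIntegral.norm_integral_le_of_norm_le_const (a := a) (b := b) (f := fun u => F u - l)
      (C := ε) (by
        intro u hu
        rw [Set.uIoc_of_le hab'] at hu
        rw [Real.norm_eq_abs]
        exact h u (by linarith [hu.1]))
    rw [Real.norm_eq_abs, abs_of_nonneg (by linarith : 0 ≤ b - a)] at h2
    exact h2
  have k1 := key (t - Real.log 2) t (le_refl _) (by linarith)
  have k2 := key t (t + Real.log (3 / 2)) (by linarith) (by linarith)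
  have hε : 0 ≤ ε := (abs_nonneg _).trans (h t (by linarith))
  unfold II
  rw [hab]
  rw [abs_le] at k1 k2 ⊢
  constructor <;> nlinarith [k1.1, k1.2, k2.1, k2.2]

/-- THE CONSERVATION LAW with uniform constants -/
theorem cons_unif (B : ℕ) : ∃ K : ℝ, 0 < K ∧ ∀ (Y : ℝ) (N : ℕ) (S : ℕ → Set ℤ),
    (∀ i < N, AI 1 (Rg Y) (S i)) → ∀ t : ℝ, 27000 ≤ t → Y < Real.exp (0.96 * t) → ∀ l : ℝ,
    Tendsto (FF N S) atTop (𝓝 l) → |II (FF N S) t - Real.log (4 / 3) * l| ≤ N * (K / t ^ B) := by
  obtain ⟨K, hK, h⟩ := Fd_harm_unif (B + 2)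
  refine ⟨2 * K, by positivity, ?_⟩
  intro Y N S hS t ht hY l hl
  have htpos : 0 < t := by linarith
  have hcau : ∀ t' : ℝ, t ≤ t' → |II (FF N S) t' - II (FF N S) t| ≤ N * (2 * K / t ^ B) := by
    intro t' htt
    rw [II_FF, II_FF, ← sum_sub_distrib]
    refine (abs_sum_le_sum_abs _ _).trans ?_
    calc ∑ i ∈ range N, |II (Fd (S i)) t' - II (Fd (S i)) t| ≤ ∑ i ∈ range N, 2 * K / t ^ B := by
          apply sum_le_sum
          intro i hi
          rw [mem_range] at hi
          have hh : ∀ u, t ≤ u → |Fd (S i) u - (Fd (S i) (u - Real.log 2) + Fd (S i) (u + Real.log (3 / 2))) / 2|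
              ≤ (K / t ^ B) / u ^ 2 := by
            intro u hu
            have hupos : 0 < u := by linarith
            refine (h Y (S i) (hS i hi) u (by linarith) (lt_of_lt_of_le hY
              (Real.exp_le_exp.2 (by linarith)))).trans ?_
            rw [pow_add, ← div_div]
            apply div_le_div_of_nonneg_right _ (by positivity)
            apply div_le_div_of_nonneg_left hK.le (by positivity)
            exact pow_le_pow_left₀ htpos.le hu B
          have h2 := II_cauchy (F := Fd (S i)) (t0 := t) (C := K / t ^ B) (Fd_meas (S i))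
            (Fd_nonneg (S i)) (Fd_le_one (S i)) hh (by positivity) (le_refl _) htpos htt
          refine h2.trans ?_
          rw [div_le_iff₀ htpos]
          have h3 : 0 < K / t ^ B := by positivity
          have h4 : 2 * K / t ^ B * t = 2 * (K / t ^ B) * t := by ring
          rw [h4]
          nlinarith
      _ = N * (2 * K / t ^ B) := by simp
  apply le_of_forall_pos_le_add
  intro ε hε
  rw [Metric.tendsto_atTop] at hl
  obtain ⟨T, hT⟩ := hl (ε / 2) (by positivity)
  set t' := max t (T + Real.log 2) with ht'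
  have h1 := hcau t' (le_max_left _ _)
  have h2 := II_const_sub (F := FF N S) (l := l) (ε := ε / 2) (t := t') (FF_int N S) (fun u hu => by
    have := hT u (by
      have := le_max_right t (T + Real.log 2)
      rw [← ht'] at this
      linarith)
    rw [Real.dist_eq] at this
    exact this.le)
  have h3 : II (FF N S) t - Real.log (4 / 3) * l
      = (II (FF N S) t' - Real.log (4 / 3) * l) - (II (FF N S) t' - II (FF N S) t) := by ring
  rw [h3]
  refine (abs_sub _ _).trans ?_
  linarith

/-- average of the conserved quantity over an interval -/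
theorem II_average {F : ℝ → ℝ} (hF : Measurable F) {M : ℝ} (h0 : ∀ t, 0 ≤ F t) (h1 : ∀ t, F t ≤ M)
    {t1 t2 : ℝ} (_h12 : t1 ≤ t2) :
    Real.log (4 / 3) * (∫ u in t1..t2, F u) - (∫ u in (t2 - 1)..(t2 + 1), F u) ≤ ∫ t in t1..t2, II F t ∧
    (∫ t in t1..t2, II F t) ≤ Real.log (4 / 3) * (∫ u in t1..t2, F u) + ∫ u in (t1 - 1)..(t1 + 1), F u := by
  have hi := intbl hF h0 h1
  set a := Real.log 2 with ha
  set b := Real.log (3 / 2) with hb
  have ha0 : 0 < a := Real.log_pos (by norm_num)
  have hb0 : 0 < b := Real.log_pos (by norm_num)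
  have ha1 : a ≤ 1 := by have := Real.log_two_lt_d9; linarith
  have hb1 : b ≤ 1 := by
    have := Real.log_le_sub_one_of_pos (by norm_num : (0 : ℝ) < 3 / 2)
    linarith
  have hab : Real.log (4 / 3) = a - b := by
    rw [ha, hb, ← Real.log_div (by norm_num) (by norm_num)]; norm_num
  set P : ℝ → ℝ := fun t => ∫ u in t1..t, F u with hP
  have hPc : Continuous P := intervalIntegral.continuous_primitive hi t1
  have hPi : ∀ c d : ℝ, IntervalIntegrable P volume c d := fun c d => hPc.intervalIntegrable c d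
  have hPd : ∀ c d : ℝ, P d - P c = ∫ u in c..d, F u := by
    intro c d
    simp only [hP]
    rw [intervalIntegral.integral_interval_sub_left (hi _ _) (hi _ _)]
  have hmono : Monotone P := by
    intro c d hcd
    have : 0 ≤ ∫ u in c..d, F u := intervalIntegral.integral_nonneg hcd fun u _ => h0 u
    rw [← hPd] at this
    linarith
  have hbd : ∀ c d : ℝ, c ≤ d → (d - c) * P c ≤ ∫ u in c..d, P u ∧ (∫ u in c..d, P u) ≤ (d - c) * P d := by
    intro c d hcd
    constructor
    · have := intervalIntegral.integral_mono_on (μ := volume) hcd intervalIntegrable_const (hPi c d)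
        (fun u hu => hmono hu.1)
      rwa [intervalIntegral.integral_const, smul_eq_mul] at this
    · have := intervalIntegral.integral_mono_on (μ := volume) hcd (hPi c d) intervalIntegrable_const
        (fun u hu => hmono hu.2)
      rwa [intervalIntegral.integral_const, smul_eq_mul] at this
  have hII : ∀ t, II F t = (P t - P (t - a)) - (P (t + b) - P t) := by
    intro t
    unfold II
    rw [hPd, hPd]
  have hca : Continuous fun t => P (t - a) := hPc.comp (continuous_id.sub continuous_const)
  have hcb : Continuous fun t => P (t + b) := hPc.comp (continuous_id.add continuous_const)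
  have hint : ∫ t in t1..t2, II F t = ((∫ u in t1..t2, P u) - ∫ u in (t1 - a)..(t2 - a), P u)
      - ((∫ u in (t1 + b)..(t2 + b), P u) - ∫ u in t1..t2, P u) := by
    simp only [hII]
    rw [intervalIntegral.integral_sub ((hPi _ _).sub (hca.intervalIntegrable _ _))
      ((hcb.intervalIntegrable _ _).sub (hPi _ _)), intervalIntegral.integral_sub (hPi _ _)
      (hca.intervalIntegrable _ _), intervalIntegral.integral_sub (hcb.intervalIntegrable _ _) (hPi _ _),
      intervalIntegral.integral_comp_sub_right (fun u => P u), intervalIntegral.integral_comp_add_right (fun u => P u)]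
  have s1 : (∫ u in t1..t2, P u) - ∫ u in (t1 - a)..(t2 - a), P u
      = (∫ u in (t2 - a)..t2, P u) - ∫ u in (t1 - a)..t1, P u := by
    have e1 := intervalIntegral.integral_add_adjacent_intervals (hPi (t1 - a) t1) (hPi t1 t2)
    have e2 := intervalIntegral.integral_add_adjacent_intervals (hPi (t1 - a) (t2 - a)) (hPi (t2 - a) t2)
    linarith
  have s2 : (∫ u in (t1 + b)..(t2 + b), P u) - ∫ u in t1..t2, P u
      = (∫ u in t2..(t2 + b), P u) - ∫ u in t1..(t1 + b), P u := by
    have e1 := intervalIntegral.integral_add_adjacent_intervals (hPi t1 t2) (hPi t2 (t2 + b))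
    have e2 := intervalIntegral.integral_add_adjacent_intervals (hPi t1 (t1 + b)) (hPi (t1 + b) (t2 + b))
    linarith
  rw [hint, s1, s2, hab]
  have hP1 : P t1 = 0 := by simp only [hP]; rw [intervalIntegral.integral_same]
  have hPt : ∫ u in t1..t2, F u = P t2 := rfl
  obtain ⟨k1, k1'⟩ := hbd (t2 - a) t2 (by linarith)
  obtain ⟨k2, k2'⟩ := hbd (t1 - a) t1 (by linarith)
  obtain ⟨k3, k3'⟩ := hbd t2 (t2 + b) (by linarith)
  obtain ⟨k4, k4'⟩ := hbd t1 (t1 + b) (by linarith)
  rw [sub_sub_cancel] at k1 k1' k2 k2'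
  rw [add_sub_cancel_left] at k3 k3' k4 k4'
  rw [hP1, mul_zero] at k2' k4
  rw [← hPd (t2 - 1) (t2 + 1), ← hPd (t1 - 1) (t1 + 1), hPt]
  have m1 := hmono (by linarith : t2 - 1 ≤ t2 - a)
  have m2 := hmono (by linarith : t2 - a ≤ t2)
  have m3 := hmono (by linarith : t2 ≤ t2 + b)
  have m4 := hmono (by linarith : t2 + b ≤ t2 + 1)
  have m5 := hmono (by linarith : t1 - 1 ≤ t1 - a)
  have m6 := hmono (by linarith : t1 - a ≤ t1)
  have m7 := hmono (by linarith : t1 ≤ t1 + b)
  have m8 := hmono (by linarith : t1 + b ≤ t1 + 1)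
  rw [hP1] at m6 m7
  constructor
  · have q1 : a * (P t2 - P (t2 - a)) ≤ 1 * (P t2 - P (t2 - a)) :=
      mul_le_mul_of_nonneg_right ha1 (by linarith)
    have q2 : b * (P (t2 + b) - P t2) ≤ 1 * (P (t2 + b) - P t2) :=
      mul_le_mul_of_nonneg_right hb1 (by linarith)
    nlinarith
  · have q1 : a * (-P (t1 - a)) ≤ 1 * (-P (t1 - a)) :=
      mul_le_mul_of_nonneg_right ha1 (by linarith)
    have q2 : b * (P (t1 + b)) ≤ 1 * (P (t1 + b)) :=
      mul_le_mul_of_nonneg_right hb1 (by linarith)
    nlinarith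

end Pool.Agent.V11311.PD
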