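import Pool.Agent.V11311.PD.P3

/-! Predecessor densities, part 4: window densities and logarithmic sums; level sets. -/

set_option autoImplicit false

namespace Pool.Agent.V11311.PD

open Pool.Agent.H320R2.PD Finset Filter Topology MeasureTheory

open Pool.Agent.H499R2.ND hiding La Ea Me FC

open Pool.Agent.H499R2.CZ Pool.Agent.H499R2.LT Pool.Agent.H499R2.HL

/-- logarithmic sum of a set over a window -/
noncomputable def LSm (S : Set ℤ) (X1 X2 : ℝ) : ℝ := ∑ x ∈ wc S X1 X2 1 0, (1 : ℝ) / x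

theorem wc_one {S : Set ℤ} {a b : ℝ} {x : ℤ} : x ∈ wc S a b 1 0 ↔ (a ≤ x ∧ (x : ℝ) < b) ∧ x ∈ S := by
  rw [mem_wc]
  simp

theorem exp_int {α β : ℝ} : ∫ t in α..β, Real.exp (-t) = Real.exp (-α) - Real.exp (-β) := by
  have h := intervalIntegral.integral_eq_sub_of_hasDerivAt (a := α) (b := β)
    (f := fun t => -Real.exp (-t)) (f' := fun t => Real.exp (-t)) (by
      intro x _
      have h := ((hasDerivAt_neg x).exp).neg
      rw [mul_neg_one, neg_neg] at h
      exact h) ((Real.continuous_exp.comp continuous_neg).intervalIntegrable _ _)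
  rw [h]; ring

theorem full_int {x : ℝ} (hx : 0 < x) :
    ∫ t in Set.Ioc (Real.log x - Real.log 2) (Real.log x), Real.exp (-t) = 1 / x := by
  rw [← intervalIntegral.integral_of_le (by have := Real.log_pos (by norm_num : (1 : ℝ) < 2); linarith),
    exp_int, neg_sub, Real.exp_sub, Real.exp_neg, Real.exp_log (by norm_num), Real.exp_log hx]
  field_simp
  norm_num

theorem exp_intOn (α β : ℝ) : IntegrableOn (fun t : ℝ => Real.exp (-t)) (Set.Ioc α β) := by
  exact ((Real.continuous_exp.comp continuous_neg).integrableOn_Icc).mono_set Set.Ioc_subset_Icc_self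

/-- the kernel of one integer -/
noncomputable def kr (x t : ℝ) : ℝ :=
  Set.indicator (Set.Ioc (Real.log x - Real.log 2) (Real.log x)) (fun t => Real.exp (-t)) t

theorem kr_eq {x : ℝ} (hx : 0 < x) (t : ℝ) :
    kr x t = if Real.exp t ≤ x ∧ x < 2 * Real.exp t then Real.exp (-t) else 0 := by
  unfold kr
  rw [Set.indicator_apply]
  congr 1
  rw [Set.mem_Ioc, ← Real.le_log_iff_exp_le hx]
  apply propext
  constructor
  · rintro ⟨h1, h2⟩
    refine ⟨h2, ?_⟩
    have : Real.log x < Real.log (2 * Real.exp t) := by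
      rw [Real.log_mul (by norm_num) (Real.exp_pos t).ne', Real.log_exp]
      linarith
    exact (Real.log_lt_log_iff hx (by positivity)).1 this
  · rintro ⟨h1, h2⟩
    refine ⟨?_, h1⟩
    have := (Real.log_lt_log_iff hx (by positivity)).2 h2
    rw [Real.log_mul (by norm_num) (Real.exp_pos t).ne', Real.log_exp] at this
    linarith

theorem kr_int {t1 t2 : ℝ} (h12 : t1 ≤ t2) (x : ℝ) : ∫ t in t1..t2, kr x t
    = ∫ t in Set.Ioc t1 t2 ∩ Set.Ioc (Real.log x - Real.log 2) (Real.log x), Real.exp (-t) := by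
  rw [intervalIntegral.integral_of_le h12]
  unfold kr
  rw [MeasureTheory.setIntegral_indicator measurableSet_Ioc]

theorem kr_intble {t1 t2 : ℝ} (x : ℝ) : IntervalIntegrable (kr x) volume t1 t2 := by
  rw [intervalIntegrable_iff]
  unfold kr
  rw [MeasureTheory.integrableOn_indicator_iff measurableSet_Ioc]
  exact (exp_intOn _ _).mono_set Set.inter_subset_left

theorem kr_int_le {t1 t2 x : ℝ} (h12 : t1 ≤ t2) (hx : 0 < x) : ∫ t in t1..t2, kr x t ≤ 1 / x := by
  rw [kr_int h12, ← full_int hx]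
  apply MeasureTheory.setIntegral_mono_set (exp_intOn _ _)
  · filter_upwards with t; exact (Real.exp_pos _).le
  · exact Set.inter_subset_right.eventuallyLE

theorem kr_int_eq {t1 t2 x : ℝ} (h12 : t1 ≤ t2) (hx : 0 < x) (h1 : 2 * Real.exp t1 ≤ x)
    (h2 : x ≤ Real.exp t2) : ∫ t in t1..t2, kr x t = 1 / x := by
  rw [kr_int h12, ← full_int hx, Set.inter_eq_self_of_subset_right]
  intro t ht
  have e1 : Real.log (2 * Real.exp t1) ≤ Real.log x := Real.log_le_log (by positivity) h1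
  rw [Real.log_mul (by norm_num) (Real.exp_pos t1).ne', Real.log_exp] at e1
  have e2 : Real.log x ≤ Real.log (Real.exp t2) := Real.log_le_log hx h2
  rw [Real.log_exp] at e2
  exact ⟨by linarith [ht.1], by linarith [ht.2]⟩

/-- the window density is a sum of kernels -/
theorem Fd_kr (S : Set ℤ) {t1 t2 t : ℝ} (h1 : t1 ≤ t) (h2 : t ≤ t2) :
    Fd S t = (1 / 3) * ∑ x ∈ wc S (Real.exp t1) (2 * Real.exp t2) 1 0, kr x t := by
  have he := Real.exp_pos t
  have hw := Fd_win S t
  have h3 : Fd S t = ((wc S (Real.exp t) (2 * Real.exp t) 1 0).card : ℝ) / (3 * Real.exp t) := by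
    rw [eq_div_iff (by positivity)]; exact hw
  have hsub : wc S (Real.exp t) (2 * Real.exp t) 1 0 ⊆ wc S (Real.exp t1) (2 * Real.exp t2) 1 0 := by
    intro x hx
    rw [wc_one] at hx ⊢
    have e1 := Real.exp_le_exp.2 h1
    have e2 := Real.exp_le_exp.2 h2
    exact ⟨⟨by linarith [hx.1.1], by linarith [hx.1.2]⟩, hx.2⟩
  rw [← sum_subset hsub (f := fun x : ℤ => kr x t)]
  · have h4 : ∀ x ∈ wc S (Real.exp t) (2 * Real.exp t) 1 0, kr x t = Real.exp (-t) := by
      intro x hx
      rw [wc_one] at hx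
      rw [kr_eq (by linarith [hx.1.1]), if_pos hx.1]
    rw [sum_congr rfl h4, sum_const, nsmul_eq_mul, h3, Real.exp_neg]
    field_simp
  · intro x hx hnx
    rw [wc_one] at hx
    have hx0 : (0 : ℝ) < x := by
      have := Real.exp_pos t1
      linarith [hx.1.1]
    rw [kr_eq hx0, if_neg]
    intro hc
    exact hnx (wc_one.2 ⟨hc, hx.2⟩)

theorem Fd_integral (S : Set ℤ) {t1 t2 : ℝ} (h12 : t1 ≤ t2) : ∫ t in t1..t2, Fd S t
    = (1 / 3) * ∑ x ∈ wc S (Real.exp t1) (2 * Real.exp t2) 1 0, ∫ t in t1..t2, kr x t := by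
  rw [← intervalIntegral.integral_finsetSum (fun x _ => kr_intble _), ← intervalIntegral.integral_const_mul]
  apply intervalIntegral.integral_congr
  intro t ht
  rw [Set.uIcc_of_le h12] at ht
  exact Fd_kr S ht.1 ht.2

theorem Fd_integral_le (S : Set ℤ) {t1 t2 : ℝ} (h12 : t1 ≤ t2) :
    ∫ t in t1..t2, Fd S t ≤ (1 / 3) * LSm S (Real.exp t1) (2 * Real.exp t2) := by
  rw [Fd_integral S h12]
  apply mul_le_mul_of_nonneg_left _ (by norm_num)
  apply sum_le_sum
  intro x hx
  rw [wc_one] at hx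
  have := Real.exp_pos t1
  exact kr_int_le h12 (by linarith [hx.1.1])

theorem le_Fd_integral (S : Set ℤ) {t1 t2 : ℝ} (h12 : t1 ≤ t2) :
    (1 / 3) * LSm S (2 * Real.exp t1) (Real.exp t2) ≤ ∫ t in t1..t2, Fd S t := by
  rw [Fd_integral S h12]
  apply mul_le_mul_of_nonneg_left _ (by norm_num)
  have hp1 := Real.exp_pos t1
  have hp2 := Real.exp_pos t2
  unfold LSm
  have h1 : ∑ x ∈ wc S (2 * Real.exp t1) (Real.exp t2) 1 0, (1 : ℝ) / x
      = ∑ x ∈ wc S (2 * Real.exp t1) (Real.exp t2) 1 0, ∫ t in t1..t2, kr x t := by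
    apply sum_congr rfl
    intro x hx
    rw [wc_one] at hx
    rw [kr_int_eq h12 (by linarith [hx.1.1]) hx.1.1 hx.1.2.le]
  rw [h1]
  apply sum_le_sum_of_subset_of_nonneg
  · intro x hx
    rw [wc_one] at hx ⊢
    exact ⟨⟨by linarith [hx.1.1], by linarith [hx.1.2]⟩, hx.2⟩
  · intro x _ _
    apply intervalIntegral.integral_nonneg h12
    intro u _
    unfold kr
    exact Set.indicator_nonneg (fun _ _ => (Real.exp_pos _).le) _

/-! ### level sets -/

/-- the predecessors of `a` -/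
def Pr (a : ℤ) : Set ℤ := {x : ℤ | ∃ k : ℕ, (Td 1)^[k] x = a}

theorem Pr_step {a x : ℤ} (h : x ≠ a) : x ∈ Pr a ↔ Td 1 x ∈ Pr a := by
  constructor
  · rintro ⟨k, hk⟩
    cases k with
    | zero => exact absurd hk h
    | succ k => exact ⟨k, by rwa [Function.iterate_succ_apply] at hk⟩
  · rintro ⟨k, hk⟩
    exact ⟨k + 1, by rwa [Function.iterate_succ_apply]⟩

open scoped Classical in
/-- number of elements of `S1` on the trajectory of `x` -/
noncomputable def fc (S1 : Finset ℤ) (x : ℤ) : ℕ := (S1.filter fun a => x ∈ Pr a).card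

/-- level sets -/
def Lv (S1 : Finset ℤ) (i : ℕ) : Set ℤ := {x : ℤ | i < fc S1 x}

theorem fc_step {S1 : Finset ℤ} {x : ℤ} (hx : x ∉ S1) : fc S1 x = fc S1 (Td 1 x) := by
  classical
  unfold fc
  congr 1
  apply filter_congr
  intro a ha
  exact Pr_step (by rintro rfl; exact hx ha)

theorem Lv_AI {S1 : Finset ℤ} {Y : ℝ} (hY : ∀ a ∈ S1, (a : ℝ) ≤ Y) (i : ℕ) : AI 1 (Rg Y) (Lv S1 i) := by
  intro x hx
  have : x ∉ S1 := fun h => hx (hY x h)
  unfold Lv
  rw [Set.mem_ofPred_eq, Set.mem_ofPred_eq, fc_step this]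

theorem sum_level (N m : ℕ) (h : m ≤ N) : ∑ i ∈ range N, (if i < m then 1 else 0) = m := by
  rw [← sum_filter, sum_const, smul_eq_mul, mul_one]
  have : (range N).filter (fun i => i < m) = range m := by
    ext i
    rw [mem_filter, mem_range, mem_range]
    omega
  rw [this, card_range]

theorem wc_card_sum (S : Set ℤ) (a b : ℝ) : (wc S a b 1 0).card
    = ∑ x ∈ Ico ⌈a⌉ ⌈b⌉, (Set.indicator S (fun _ => (1 : ℕ)) x) := by
  classical
  have : wc S a b 1 0 = (Ico ⌈a⌉ ⌈b⌉).filter (fun x => x ∈ S) := by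
    ext x
    rw [wc_one, mem_filter, mem_win]
  rw [this, card_filter]
  apply sum_congr rfl
  intro x _
  rw [Set.indicator_apply]

theorem sum_wc (S1 : Finset ℤ) {N : ℕ} (hN : ∀ x : ℤ, 0 < x → fc S1 x ≤ N) {a : ℝ} (ha : 0 < a) (b : ℝ) :
    ∑ i ∈ range N, (wc (Lv S1 i) a b 1 0).card = ∑ c ∈ S1, (wc (Pr c) a b 1 0).card := by
  classical
  simp only [wc_card_sum]
  rw [sum_comm, sum_comm (s := S1)]
  apply sum_congr rfl
  intro x hx
  rw [mem_win] at hx
  have hx0 : 0 < x := by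
    have : (0 : ℝ) < x := by linarith [hx.1]
    exact_mod_cast this
  have h1 : ∑ i ∈ range N, (Lv S1 i).indicator (fun _ => (1 : ℕ)) x = fc S1 x := by
    rw [← sum_level N (fc S1 x) (hN x hx0)]
    apply sum_congr rfl
    intro i _
    rw [Set.indicator_apply]
    by_cases h : i < fc S1 x
    · rw [if_pos h, if_pos (show x ∈ Lv S1 i from h)]
    · rw [if_neg h, if_neg (show x ∉ Lv S1 i from h)]
  rw [h1]
  unfold fc
  rw [card_filter]
  apply sum_congr rfl
  intro c _
  rw [Set.indicator_apply]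

theorem FF_eq (S1 : Finset ℤ) {N : ℕ} (hN : ∀ x : ℤ, 0 < x → fc S1 x ≤ N) (t : ℝ) :
    FF N (Lv S1) t = ∑ c ∈ S1, Fd (Pr c) t := by
  have he := Real.exp_pos t
  have h1 : ∀ S : Set ℤ, Fd S t = ((wc S (Real.exp t) (2 * Real.exp t) 1 0).card : ℝ) / (3 * Real.exp t) := by
    intro S
    rw [eq_div_iff (by positivity)]; exact Fd_win S t
  unfold FF
  simp only [h1]
  rw [← sum_div, ← sum_div]
  congr 1
  exact_mod_cast sum_wc S1 hN he (2 * Real.exp t)

end Pool.Agent.V11311.PD
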