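import Pool.Agent.H319R2.LlnFinal

/-! Predecessor densities, part 6: typical integers, and the good elements of a dyadic block. -/

set_option autoImplicit false

namespace Pool.Agent.V11311.PD

open Finset Filter Topology Pool.Agent.Helper894.Collatz Pool.Agent.H377R2

open Pool.Agent.H319R2.Lln (mu Prof lln mu_lower mu_upper mu_eq)

/-- the trajectory of `n` descends to at most `Y` along the expected profile -/
def Typ (ε Y : ℝ) (n : ℕ) : Prop :=
  ∃ m0 : ℕ, ((T^[m0] n : ℕ) : ℝ) ≤ Y ∧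
    ∀ m ≤ m0, |Real.log (T^[m] n : ℕ) - Real.log n + mu * m| ≤ ε * Real.log n

theorem Typ.mono {ε Y Y' : ℝ} {n : ℕ} (h : Typ ε Y n) (hY : Y ≤ Y') : Typ ε Y' n := by
  obtain ⟨m0, h1, h2⟩ := h
  exact ⟨m0, h1.trans hY, h2⟩

theorem typ_card (ε A : ℝ) (hε : 0 < ε) (hA : 0 ≤ A) : ∀ᶠ X : ℝ in atTop, ∀ S : Finset ℕ,
    (∀ n ∈ S, 1 ≤ n ∧ (n : ℝ) ≤ X ∧ ¬ Typ ε (X ^ (1 / 4 : ℝ)) n) →
    (S.card : ℝ) ≤ 2 * (X / Real.log X ^ A) := by
  obtain ⟨B, hB, hl⟩ := lln ε A hε hA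
  have e1 : ∀ᶠ X : ℝ in atTop, ‖Real.log X ^ B‖ ≤ 1 * ‖X ^ (1 / 4 : ℝ)‖ :=
    (isLittleO_log_rpow_rpow_atTop B (by norm_num : (0 : ℝ) < 1 / 4)).bound one_pos
  have e2 : ∀ᶠ X : ℝ in atTop, ‖Real.log X ^ (A + 4)‖ ≤ 1 * ‖X ^ (2 : ℝ)‖ :=
    (isLittleO_log_rpow_rpow_atTop (A + 4) (by norm_num : (0 : ℝ) < 2)).bound one_pos
  filter_upwards [hl, e1, e2, eventually_ge_atTop 3] with X h1 h2 h3 h4
  intro S hS
  have hX0 : 0 < X := by linarith
  have hlog : 0 < Real.log X := Real.log_pos (by linarith)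
  rw [Real.norm_of_nonneg (by positivity), Real.norm_of_nonneg (by positivity), one_mul] at h2 h3
  have hV : X ≤ X ^ 3 := by nlinarith [sq_nonneg X, sq_nonneg (X - 1)]
  have h5 := h1 (X ^ 3) hV S (fun n hn => by
    obtain ⟨a1, a2, a3⟩ := hS n hn
    refine ⟨a1, a2, fun hp => a3 ?_⟩
    obtain ⟨m0, b1, b2⟩ := hp
    exact ⟨m0, b1.trans h2, fun m hm => (b2 m hm).1⟩)
  refine h5.trans ?_
  have h6 : X ^ 2 * Real.log X ^ 4 / X ^ 3 ≤ X / Real.log X ^ A := by
    rw [div_le_div_iff₀ (by positivity) (by positivity)]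
    have h7 : Real.log X ^ (4 : ℕ) * Real.log X ^ A = Real.log X ^ (A + 4) := by
      rw [Real.rpow_add hlog, mul_comm]
      congr 1
      rw [← Real.rpow_natCast]
      norm_num
    have h8 : X ^ (2 : ℝ) = X ^ (2 : ℕ) := by norm_cast
    rw [h8] at h3
    calc X ^ 2 * Real.log X ^ 4 * Real.log X ^ A = X ^ 2 * (Real.log X ^ 4 * Real.log X ^ A) := by ring
      _ = X ^ 2 * Real.log X ^ (A + 4) := by rw [h7]
      _ ≤ X ^ 2 * X ^ 2 := mul_le_mul_of_nonneg_left h3 (by positivity)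
      _ = X * X ^ 3 := by ring
  linarith

/-- the time needed by a typical integer -/
theorem Typ.time {ε Y : ℝ} {n : ℕ} (h : Typ ε Y n) (_hn : 0 < n) (hε : ε ≤ 1 / 10) :
    ∃ m0 : ℕ, (m0 : ℝ) ≤ 8 * Real.log n ∧ ((T^[m0] n : ℕ) : ℝ) ≤ Y ∧
    ∀ m ≤ m0, |Real.log (T^[m] n : ℕ) - Real.log n + mu * m| ≤ ε * Real.log n := by
  obtain ⟨m0, h1, h2⟩ := h
  refine ⟨m0, ?_, h1, h2⟩
  have h3 := (abs_le.1 (h2 m0 le_rfl)).2
  have h4 : 0 ≤ Real.log (T^[m0] n : ℕ) := Real.log_natCast_nonneg _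
  have h5 := mu_lower
  have h6 := Real.log_two_gt_d9
  have h7 : 0.142 ≤ mu := by linarith
  have h8 : 0 ≤ Real.log n := Real.log_natCast_nonneg n
  have h9 : (0 : ℝ) ≤ m0 := Nat.cast_nonneg _
  nlinarith

/-- a set of integers which fall to `Y` within `J` steps and which are not reached from `[1,Y]` -/
def Nice2 (Y : ℝ) (J : ℕ) (G : Set ℕ) : Prop :=
  (∀ a ∈ G, ∃ i ≤ J, ((T^[i] a : ℕ) : ℝ) ≤ Y) ∧
  (∀ a ∈ G, ∀ b : ℕ, 0 < b → (b : ℝ) ≤ Y → ∀ j : ℕ, T^[j] b ≠ a)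

/-- a trajectory visits at most `J` elements of such a set -/
theorem visits {Y : ℝ} {J : ℕ} {G : Set ℕ} (hG : Nice2 Y J G) (S : Finset ℕ) (hS : ∀ a ∈ S, a ∈ G)
    (hpos : ∀ a ∈ S, 0 < a) (x : ℕ) (hx : ∀ a ∈ S, ∃ j : ℕ, T^[j] x = a) : S.card ≤ J := by
  classical
  rcases S.eq_empty_or_nonempty with h0 | hne
  · rw [h0]; simp
  have hex : ∃ j : ℕ, T^[j] x ∈ S := by
    obtain ⟨a, ha⟩ := hne
    obtain ⟨j, hj⟩ := hx a ha
    exact ⟨j, by rw [hj]; exact ha⟩
  set j0 := Nat.find hex with hj0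
  have h1 : T^[j0] x ∈ S := Nat.find_spec hex
  set a0 := T^[j0] x with ha0
  obtain ⟨i0, hi0, h2⟩ := hG.1 a0 (hS a0 h1)
  have hsub : S ⊆ (range i0).image (fun i => T^[i] a0) := by
    intro a ha
    obtain ⟨j, hj⟩ := hx a ha
    have h3 : j0 ≤ j := Nat.find_min' hex (by rw [hj]; exact ha)
    rw [mem_image]
    refine ⟨j - j0, ?_, ?_⟩
    · rw [mem_range]
      by_contra hcon
      push Not at hcon
      have h4 : T^[j - j0 - i0] (T^[i0] a0) = a := by
        rw [← Function.iterate_add_apply, show j - j0 - i0 + i0 = j - j0 by omega, ha0,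
          ← Function.iterate_add_apply, show j - j0 + j0 = j by omega, hj]
      exact hG.2 a (hS a ha) (T^[i0] a0) (iter_pos (hpos a0 h1) i0) h2 _ h4
    · show T^[j - j0] a0 = a
      rw [ha0, ← Function.iterate_add_apply, show j - j0 + j0 = j by omega, hj]
  calc S.card ≤ ((range i0).image (fun i => T^[i] a0)).card := card_le_card hsub
    _ ≤ (range i0).card := card_image_le
    _ = i0 := card_range _
    _ ≤ J := hi0

/-- elements falling to `Y` within `J` steps, above `Y`, which are reached from `[1,Y]`, are few -/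
theorem reached_card {Y : ℝ} (hY : 0 ≤ Y) {J : ℕ} (S : Finset ℕ) (hSY : ∀ a ∈ S, Y < (a : ℝ))
    (hJ : ∀ a ∈ S, ∃ i ≤ J, ((T^[i] a : ℕ) : ℝ) ≤ Y)
    (hr : ∀ a ∈ S, ∃ b : ℕ, 0 < b ∧ (b : ℝ) ≤ Y ∧ ∃ j : ℕ, T^[j] b = a) : (S.card : ℝ) ≤ Y * J := by
  classical
  set E : ℕ → Finset ℕ := fun b => S.filter fun a => ∃ j : ℕ, T^[j] b = a ∧
    ∀ i, 0 < i → i ≤ j → Y < ((T^[i] b : ℕ) : ℝ) with hE
  have hsub : S ⊆ (Icc 1 ⌊Y⌋₊).biUnion E := by
    intro a ha
    obtain ⟨b, hb0, hbY, j, hj⟩ := hr a ha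
    -- the last time below Y
    have hex : ∃ i, i ≤ j ∧ ((T^[i] b : ℕ) : ℝ) ≤ Y := ⟨0, Nat.zero_le _, by simpa using hbY⟩
    obtain ⟨i, ⟨hi1, hi2⟩, hmax⟩ : ∃ i, (i ≤ j ∧ ((T^[i] b : ℕ) : ℝ) ≤ Y) ∧
        ∀ i', i < i' → i' ≤ j → Y < ((T^[i'] b : ℕ) : ℝ) := by
      refine ⟨Nat.findGreatest (fun i => ((T^[i] b : ℕ) : ℝ) ≤ Y) j, ⟨Nat.findGreatest_le j, ?_⟩, ?_⟩
      · exact Nat.findGreatest_spec (P := fun i => ((T^[i] b : ℕ) : ℝ) ≤ Y) (Nat.zero_le j) (by simpa using hbY)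
      · intro i' h1 h2
        exact not_le.1 (Nat.findGreatest_is_greatest (P := fun i => ((T^[i] b : ℕ) : ℝ) ≤ Y) h1 h2)
    rw [mem_biUnion]
    refine ⟨T^[i] b, ?_, ?_⟩
    · rw [mem_Icc]
      exact ⟨iter_pos hb0 i, Nat.le_floor hi2⟩
    · simp only [hE]
      rw [mem_filter]
      refine ⟨ha, j - i, ?_, ?_⟩
      · rw [← Function.iterate_add_apply, show j - i + i = j by omega, hj]
      · intro i' h1 h2
        rw [← Function.iterate_add_apply]
        exact hmax (i' + i) (by omega) (by omega)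
  have hEc : ∀ b ∈ Icc 1 ⌊Y⌋₊, (E b).card ≤ J := by
    intro b _
    rcases (E b).eq_empty_or_nonempty with h0 | hne
    · rw [h0]; simp
    have hex : ∃ j : ℕ, T^[j] b ∈ S ∧ ∀ i, 0 < i → i ≤ j → Y < ((T^[i] b : ℕ) : ℝ) := by
      obtain ⟨a, ha⟩ := hne
      simp only [hE] at ha
      rw [mem_filter] at ha
      obtain ⟨h1, j, hj, h2⟩ := ha
      exact ⟨j, by rw [hj]; exact h1, h2⟩
    set j0 := Nat.find hex with hj0
    obtain ⟨h1, h1'⟩ := Nat.find_spec hex
    set a0 := T^[j0] b with ha0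
    obtain ⟨i0, hi0, h2⟩ := hJ a0 h1
    have hsub : E b ⊆ (range i0).image (fun i => T^[i] a0) := by
      intro a ha
      simp only [hE] at ha
      rw [mem_filter] at ha
      obtain ⟨haS, j, hj, h5⟩ := ha
      have h3 : j0 ≤ j := Nat.find_min' hex ⟨by rw [hj]; exact haS, h5⟩
      rw [mem_image]
      refine ⟨j - j0, ?_, ?_⟩
      · rw [mem_range]
        by_contra hcon
        push Not at hcon
        have hi0pos : 0 < i0 := by
          rcases Nat.eq_zero_or_pos i0 with h | h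
          · exfalso
            rw [h] at h2
            have := hSY a0 h1
            simp only [Function.iterate_zero, id] at h2
            linarith
          · exact h
        have h4 := h5 (i0 + j0) (by omega) (by omega)
        rw [Function.iterate_add_apply, ← ha0] at h4
        linarith
      · show T^[j - j0] a0 = a
        rw [ha0, ← Function.iterate_add_apply, show j - j0 + j0 = j by omega, hj]
    calc (E b).card ≤ ((range i0).image (fun i => T^[i] a0)).card := card_le_card hsub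
      _ ≤ (range i0).card := card_image_le
      _ = i0 := card_range _
      _ ≤ J := hi0
  have h1 : S.card ≤ ⌊Y⌋₊ * J := by
    calc S.card ≤ ((Icc 1 ⌊Y⌋₊).biUnion E).card := card_le_card hsub
      _ ≤ ∑ b ∈ Icc 1 ⌊Y⌋₊, (E b).card := card_biUnion_le
      _ ≤ ∑ b ∈ Icc 1 ⌊Y⌋₊, J := sum_le_sum hEc
      _ = ⌊Y⌋₊ * J := by simp
  calc (S.card : ℝ) ≤ (⌊Y⌋₊ * J : ℕ) := by exact_mod_cast h1
    _ = (⌊Y⌋₊ : ℝ) * J := by push_cast; ring
    _ ≤ Y * J := mul_le_mul_of_nonneg_right (Nat.floor_le hY) (Nat.cast_nonneg _)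

/-- the good integers of the block `(y, 2y]` -/
def Gd (ε y : ℝ) : Set ℕ := {a : ℕ | y < a ∧ (a : ℝ) ≤ 2 * y ∧ Typ ε (Real.sqrt y) a ∧
  ∀ b : ℕ, 0 < b → (b : ℝ) ≤ Real.sqrt y → ∀ j : ℕ, T^[j] b ≠ a}

theorem Gd_nice {ε y : ℝ} (hε : ε ≤ 1 / 10) (hy : 2 ≤ y) {J : ℕ} (hJ : 16 * Real.log y ≤ J) :
    Nice2 (Real.sqrt y) J (Gd ε y) := by
  constructor
  · rintro a ⟨h1, h2, h3, _⟩
    have ha : 0 < a := by
      have : (0 : ℝ) < a := by linarith
      exact_mod_cast this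
    obtain ⟨m0, h4, h5, _⟩ := h3.time ha hε
    refine ⟨m0, ?_, h5⟩
    have h6 : Real.log a ≤ Real.log 2 + Real.log y := by
      rw [← Real.log_mul (by norm_num) (by linarith)]
      exact Real.log_le_log (by exact_mod_cast ha) h2
    have h7 : Real.log 2 ≤ Real.log y := Real.log_le_log (by norm_num) hy
    have : (m0 : ℝ) ≤ J := by linarith
    exact_mod_cast this
  · rintro a ⟨_, _, _, h4⟩ b hb hbY j
    exact h4 b hb hbY j

/-- almost all integers of the block are good -/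
theorem bad_card (ε : ℝ) (hε : 0 < ε) (hε1 : ε ≤ 1 / 10) (A : ℝ) (hA : 0 ≤ A) : ∀ᶠ y : ℝ in atTop,
    ∀ S : Finset ℕ, (∀ a ∈ S, y < a ∧ (a : ℝ) ≤ 2 * y ∧ a ∉ Gd ε y) →
    (S.card : ℝ) ≤ 5 * (y / Real.log y ^ A) := by
  have h2 : Tendsto (fun y : ℝ => 2 * y) atTop atTop := tendsto_id.const_mul_atTop (by norm_num)
  have e1 := h2.eventually (typ_card ε A hε hA)
  have e2 : ∀ᶠ y : ℝ in atTop, ‖Real.log y ^ (A + 2)‖ ≤ 1 * ‖y ^ (1 / 2 : ℝ)‖ :=
    (isLittleO_log_rpow_rpow_atTop (A + 2) (by norm_num : (0 : ℝ) < 1 / 2)).bound one_pos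
  have e3 : ∀ᶠ y : ℝ in atTop, 18 ≤ Real.log y := Real.tendsto_log_atTop.eventually_ge_atTop 18
  filter_upwards [e1, e2, e3, eventually_ge_atTop 4] with y h1 h3 h4 h5
  intro S hS
  classical
  have hy0 : 0 < y := by linarith
  have hlog : 0 < Real.log y := by linarith
  rw [Real.norm_of_nonneg (by positivity), Real.norm_of_nonneg (by positivity), one_mul] at h3
  obtain ⟨J, hJ⟩ : ∃ J : ℕ, J = ⌈16 * Real.log y⌉₊ := ⟨_, rfl⟩
  have hJ1 : 16 * Real.log y ≤ J := by rw [hJ]; exact Nat.le_ceil _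
  have hJ2 : (J : ℝ) ≤ 17 * Real.log y := by
    rw [hJ]
    have := Nat.ceil_lt_add_one (by positivity : 0 ≤ 16 * Real.log y)
    linarith
  set S1 := S.filter fun a => ¬ Typ ε (Real.sqrt y) a with hS1
  set S2 := S.filter fun a => Typ ε (Real.sqrt y) a with hS2
  have hcard : S1.card + S2.card = S.card := by
    rw [hS1, hS2, add_comm]
    exact card_filter_add_card_filter_not (fun a => Typ ε (Real.sqrt y) a)
  have hq : (2 * y) ^ (1 / 4 : ℝ) ≤ Real.sqrt y := by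
    rw [Real.sqrt_eq_rpow]
    have h6 : 2 * y ≤ y ^ (2 : ℝ) := by
      rw [show y ^ (2 : ℝ) = y ^ (2 : ℕ) by norm_cast]; nlinarith
    calc (2 * y) ^ (1 / 4 : ℝ) ≤ (y ^ (2 : ℝ)) ^ (1 / 4 : ℝ) :=
          Real.rpow_le_rpow (by positivity) h6 (by norm_num)
      _ = y ^ (1 / 2 : ℝ) := by rw [← Real.rpow_mul hy0.le]; norm_num
  have c1 : (S1.card : ℝ) ≤ 4 * (y / Real.log y ^ A) := by
    have := h1 S1 (fun n hn => by
      rw [hS1, mem_filter] at hn
      obtain ⟨a1, a2, a3⟩ := hS n hn.1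
      refine ⟨?_, a2, fun h => hn.2 (h.mono hq)⟩
      have : (0 : ℝ) < n := by linarith
      exact_mod_cast this)
    refine this.trans ?_
    have h7 : Real.log y ^ A ≤ Real.log (2 * y) ^ A :=
      Real.rpow_le_rpow hlog.le (Real.log_le_log hy0 (by linarith)) hA
    calc 2 * (2 * y / Real.log (2 * y) ^ A) ≤ 2 * (2 * y / Real.log y ^ A) := by
          apply mul_le_mul_of_nonneg_left _ (by norm_num)
          exact div_le_div_of_nonneg_left (by positivity) (by positivity) h7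
      _ = _ := by ring
  have c2 : (S2.card : ℝ) ≤ y / Real.log y ^ A := by
    have hsq : Real.sqrt y < y := by
      rw [Real.sqrt_lt' hy0]
      nlinarith
    have := reached_card (Real.sqrt_nonneg y) (J := J) S2 (fun a ha => by
        rw [hS2, mem_filter] at ha
        linarith [(hS a ha.1).1])
      (fun a ha => by
        rw [hS2, mem_filter] at ha
        obtain ⟨a1, a2, a3⟩ := hS a ha.1
        have ha0 : 0 < a := by
          have : (0 : ℝ) < a := by linarith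
          exact_mod_cast this
        obtain ⟨m0, b1, b2, _⟩ := ha.2.time ha0 hε1
        refine ⟨m0, ?_, b2⟩
        have h6 : Real.log a ≤ Real.log 2 + Real.log y := by
          rw [← Real.log_mul (by norm_num) hy0.ne']
          exact Real.log_le_log (by exact_mod_cast ha0) a2
        have h7 : Real.log 2 ≤ Real.log y := Real.log_le_log (by norm_num) (by linarith)
        have : (m0 : ℝ) ≤ J := by linarith
        exact_mod_cast this)
      (fun a ha => by
        rw [hS2, mem_filter] at ha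
        obtain ⟨a1, a2, a3⟩ := hS a ha.1
        by_contra hcon
        push Not at hcon
        exact a3 ⟨a1, a2, ha.2, fun b hb hbY j hj => hcon b hb hbY j hj⟩)
    refine this.trans ?_
    rw [le_div_iff₀ (by positivity)]
    have h8 : Real.log y ^ A * (17 * Real.log y) ≤ Real.sqrt y := by
      rw [Real.sqrt_eq_rpow]
      refine le_trans ?_ h3
      rw [Real.rpow_add hlog]
      apply mul_le_mul_of_nonneg_left _ (by positivity)
      rw [show Real.log y ^ (2 : ℝ) = Real.log y ^ (2 : ℕ) by norm_cast]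
      nlinarith
    calc Real.sqrt y * J * Real.log y ^ A ≤ Real.sqrt y * (17 * Real.log y) * Real.log y ^ A := by
          apply mul_le_mul_of_nonneg_right _ (by positivity)
          exact mul_le_mul_of_nonneg_left hJ2 (Real.sqrt_nonneg _)
      _ = Real.sqrt y * (Real.log y ^ A * (17 * Real.log y)) := by ring
      _ ≤ Real.sqrt y * Real.sqrt y := mul_le_mul_of_nonneg_left h8 (Real.sqrt_nonneg _)
      _ = y := Real.mul_self_sqrt hy0.le
  have : (S.card : ℝ) = S1.card + S2.card := by exact_mod_cast hcard.symm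
  rw [this]
  linarith

end Pool.Agent.V11311.PD
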