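import Pool.Agent.V11311.PD.P6
import Pool.Agent.H320R2.PDWords

/-! Predecessor densities, part 7: words and trajectories of natural numbers. -/

set_option autoImplicit false

namespace Pool.Agent.V11311.PD

open Finset Filter Topology Pool.Agent.Helper894.Collatz Pool.Agent.H377R2 Pool.Agent.H320R2.PD

/-- the word is valid at `a` modulo `3^m` -/
def Vd (m : ℕ) (a : ℤ) (w : List ℕ) : Prop := (3 : ℤ) ^ m ∣ (Wo w : ℤ) - 2 ^ w.sum * a

theorem od_succ' (j x : ℕ) : od (j + 1) x = x % 2 + od j (T x) := by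
  rw [add_comm j 1, od_add]
  simp [od]

theorem od_zero' (x : ℕ) : od 0 x = 0 := by simp [od]

theorem T_two_mul (x : ℕ) : T (2 * x) = x := by
  unfold T; rw [if_pos (by omega)]; omega

theorem T_two_pow (e x : ℕ) : T^[e] (2 ^ e * x) = x := by
  induction e with
  | zero => simp
  | succ e ih =>
    rw [Function.iterate_succ_apply, show 2 ^ (e + 1) * x = 2 * (2 ^ e * x) by ring, T_two_mul, ih]

theorem od_two_pow (e x : ℕ) : od e (2 ^ e * x) = 0 := by
  induction e with
  | zero => rw [od_zero']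
  | succ e ih =>
    rw [od_succ', show 2 ^ (e + 1) * x = 2 * (2 ^ e * x) by ring, T_two_mul, ih]
    omega

/-- a valid word gives a backward path -/
theorem path {w : List ℕ} (hw : ∀ e ∈ w, 1 ≤ e) : ∀ a : ℕ, 0 < a → Vd w.length a w →
    ∃ x : ℕ, 3 ^ w.length * x + Wo w = 2 ^ w.sum * a ∧ 0 < x ∧ T^[w.sum] x = a ∧
      od w.sum x = w.length ∧ (w ≠ [] → x % 2 = 1) := by
  induction w with
  | nil =>
    intro a ha _
    exact ⟨a, by simp [Wo], ha, by simp, by simp [od], by simp⟩
  | cons e w ih =>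
    intro a ha hV
    have he : 1 ≤ e := hw e (by simp)
    have hw' : ∀ e ∈ w, 1 ≤ e := fun e' h => hw e' (by simp [h])
    unfold Vd at hV
    rw [List.length_cons, List.sum_cons, Wo] at hV
    push_cast at hV
    -- 3 divides 2^e a - 1
    have h1 : (3 : ℤ) ∣ 2 ^ e * a - 1 := by
      have h2 : (3 : ℤ) ∣ 2 ^ w.sum * (2 ^ e * a - 1) := by
        have h3 : (3 : ℤ) ∣ (3 : ℤ) ^ (w.length + 1) := dvd_pow_self 3 (by omega)
        have h4 := h3.trans hV
        have h5 : (2 : ℤ) ^ w.sum * (2 ^ e * a - 1)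
            = 3 * Wo w - (2 ^ w.sum + 3 * (Wo w : ℤ) - 2 ^ (e + w.sum) * a) := by
          rw [pow_add]; ring
        rw [h5]
        exact (Dvd.intro _ rfl).sub h4
      have hc : IsCoprime (3 : ℤ) (2 ^ w.sum) := by
        apply IsCoprime.pow_right
        exact ⟨1, -1, by norm_num⟩
      exact hc.dvd_of_dvd_mul_left h2
    obtain ⟨b', hb'⟩ := h1
    have h2a : 2 ≤ 2 ^ e * a := by
      have : 2 ^ 1 ≤ 2 ^ e := Nat.pow_le_pow_right (by norm_num) he
      nlinarith
    have h2aZ : (2 : ℤ) ≤ 2 ^ e * a := by exact_mod_cast h2a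
    have hb0 : 0 < b' := by omega
    obtain ⟨b, rfl⟩ : ∃ b : ℕ, b' = b := ⟨b'.toNat, (Int.toNat_of_nonneg hb0.le).symm⟩
    have hb : 0 < b := by exact_mod_cast hb0
    have hbe : 2 ^ e * a = 3 * b + 1 := by
      have : (2 : ℤ) ^ e * a = 3 * b + 1 := by linarith
      exact_mod_cast this
    have hV' : Vd w.length b w := by
      unfold Vd
      have h3 : (3 : ℤ) * ((Wo w : ℤ) - 2 ^ w.sum * b)
          = 2 ^ w.sum + 3 * (Wo w : ℤ) - 2 ^ (e + w.sum) * a := by
        rw [pow_add]
        have : (2 : ℤ) ^ e * 2 ^ w.sum * a = 2 ^ w.sum * (2 ^ e * a) := by ring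
        rw [this, show (2 : ℤ) ^ e * a = 3 * b + 1 by linarith]
        ring
      rw [← h3, pow_succ, mul_comm ((3 : ℤ) ^ w.length) 3] at hV
      exact (mul_dvd_mul_iff_left (by norm_num)).1 hV
    obtain ⟨x, hx1, hx2, hx3, hx4, hx5⟩ := ih hw' b hb hV'
    obtain ⟨e', rfl⟩ : ∃ e', e = e' + 1 := ⟨e - 1, by omega⟩
    have hbodd : b % 2 = 1 := by
      have : 2 ^ (e' + 1) * a = 2 * (2 ^ e' * a) := by ring
      omega
    have hTb : T b = 2 ^ e' * a := by
      have h1 := T_odd hbodd
      have : 2 ^ (e' + 1) * a = 2 * (2 ^ e' * a) := by ring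
      omega
    refine ⟨x, ?_, hx2, ?_, ?_, ?_⟩
    · rw [List.length_cons, List.sum_cons, Wo, pow_succ, pow_add]
      have : 2 ^ (e' + 1) * 2 ^ w.sum * a = 2 ^ w.sum * (2 ^ (e' + 1) * a) := by ring
      rw [this, hbe]
      have h3 : 3 ^ w.length * 3 * x + (2 ^ w.sum + 3 * Wo w)
          = 3 * (3 ^ w.length * x + Wo w) + 2 ^ w.sum := by ring
      rw [h3, hx1]; ring
    · rw [List.sum_cons, Function.iterate_add_apply, hx3, Function.iterate_succ_apply, hTb, T_two_pow]
    · rw [List.sum_cons, add_comm, od_add, hx3, hx4, od_succ', hTb, od_two_pow, hbodd, List.length_cons]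
    · intro _
      rcases eq_or_ne w [] with rfl | hne
      · simp [Wo] at hx1
        rw [hx1]; exact hbodd
      · exact hx5 hne

/-- every trajectory gives a valid word -/
theorem conv (j : ℕ) : ∀ x a : ℕ, T^[j] x = a → ∃ (w : List ℕ) (j0 x' : ℕ), (∀ e ∈ w, 1 ≤ e) ∧
    w.length = od j x ∧ x = 2 ^ j0 * x' ∧ w.sum + j0 = j ∧ 3 ^ w.length * x' + Wo w = 2 ^ w.sum * a := by
  induction j with
  | zero =>
    intro x a h
    refine ⟨[], 0, x, by simp, by simp [od], by simp, by simp, ?_⟩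
    simp only [Function.iterate_zero, id] at h
    simp [Wo, h]
  | succ j ih =>
    intro x a h
    rw [Function.iterate_succ_apply] at h
    obtain ⟨w, j0, x', h1, h2, h3, h4, h5⟩ := ih (T x) a h
    rcases Nat.mod_two_eq_zero_or_one x with hx | hx
    · have h6 := T_even hx
      refine ⟨w, j0 + 1, x', h1, ?_, ?_, by omega, h5⟩
      · rw [od_succ', hx, h2]; omega
      · rw [← h6, h3]; ring
    · have h6 := T_odd hx
      refine ⟨w ++ [j0 + 1], 0, x, ?_, ?_, by simp, ?_, ?_⟩
      · intro e he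
        rw [List.mem_append, List.mem_singleton] at he
        rcases he with he | rfl
        · exact h1 e he
        · omega
      · rw [od_succ', hx, List.length_append, List.length_singleton, h2]; omega
      · rw [List.sum_append, List.sum_singleton]; omega
      · rw [List.sum_append, List.sum_singleton, List.length_append, List.length_singleton, Wo_snoc]
        have e1 : 2 ^ (j0 + 1) * x' = 3 * x + 1 := by
          rw [← h6, h3]; ring
        calc 3 ^ (w.length + 1) * x + (2 ^ (j0 + 1) * Wo w + 3 ^ w.length)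
            = 3 ^ w.length * (3 * x + 1) + 2 ^ (j0 + 1) * Wo w := by ring
          _ = 2 ^ (j0 + 1) * (3 ^ w.length * x' + Wo w) := by rw [← e1]; ring
          _ = 2 ^ (w.sum + (j0 + 1)) * a := by rw [h5]; ring

/-- letters and words -/
theorem le_sum_of_mem : ∀ {w : List ℕ} {e : ℕ}, e ∈ w → e ≤ w.sum := fun {_ _} h => List.single_le_sum (by simp) _ h

theorem mem_FW_of {w : List ℕ} (hw : ∀ e ∈ w, 1 ≤ e) {cap : ℕ} (h : w.sum ≤ cap) : w ∈ FW cap w.length := by
  rw [mem_FW]
  exact ⟨rfl, fun e he => ⟨hw e he, (le_sum_of_mem he).trans h⟩⟩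

theorem Vd_of_eq {w : List ℕ} {x a : ℕ} (h : 3 ^ w.length * x + Wo w = 2 ^ w.sum * a) : Vd w.length a w := by
  unfold Vd
  have : (3 : ℤ) ^ w.length * x + Wo w = 2 ^ w.sum * a := by exact_mod_cast h
  exact ⟨-(x : ℤ), by linarith⟩

/-- words of the same length and size with the same offset are equal -/
theorem Wo_inj : ∀ (w w' : List ℕ), (∀ e ∈ w, 1 ≤ e) → (∀ e ∈ w', 1 ≤ e) → w.length = w'.length →
    w.sum = w'.sum → Wo w = Wo w' → w = w' := by
  intro w
  induction w using List.reverseRecOn with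
  | nil =>
    intro w' _ _ hl _ _
    exact (List.length_eq_zero_iff.1 hl.symm).symm
  | append_singleton u e ih =>
    intro w' hw hw' hl hs hW
    rcases List.eq_nil_or_concat' w' with rfl | ⟨u', e', rfl⟩
    · simp at hl
    have hu : ∀ a ∈ u, 1 ≤ a := fun a ha => hw a (by simp [ha])
    have hu' : ∀ a ∈ u', 1 ≤ a := fun a ha => hw' a (by simp [ha])
    have hll : u.length = u'.length := by simp at hl; exact hl
    rw [Wo_snoc, Wo_snoc, hll] at hW
    have h1 : 2 ^ e * Wo u = 2 ^ e' * Wo u' := by omega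
    rw [List.sum_append, List.sum_append, List.sum_singleton, List.sum_singleton] at hs
    rcases eq_or_ne u [] with rfl | hne
    · have : u' = [] := List.length_eq_zero_iff.1 (by rw [← hll]; rfl)
      subst this
      simp at hs
      rw [hs]
    · have hne' : u' ≠ [] := by
        rintro rfl
        exact hne (List.length_eq_zero_iff.1 hll)
      have o1 := Wo_odd hu hne
      have o2 := Wo_odd hu' hne'
      have key : ∀ {e e' A B : ℕ}, 2 ^ e * A = 2 ^ e' * B → A % 2 = 1 → B % 2 = 1 → e ≤ e' → e = e' ∧ A = B := by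
        intro e e' A B h hA hB hle
        obtain ⟨t, rfl⟩ := Nat.exists_eq_add_of_le hle
        rw [pow_add, mul_assoc] at h
        have h1 := Nat.eq_of_mul_eq_mul_left (by positivity) h
        rcases Nat.eq_zero_or_pos t with rfl | ht
        · simp at h1; exact ⟨rfl, h1⟩
        · exfalso
          obtain ⟨t', rfl⟩ : ∃ t', t = t' + 1 := ⟨t - 1, by omega⟩
          have : 2 ^ (t' + 1) * B = 2 * (2 ^ t' * B) := by ring
          omega
      obtain ⟨he, hWu⟩ : e = e' ∧ Wo u = Wo u' := by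
        rcases le_total e e' with hle | hle
        · exact key h1 o1 o2 hle
        · obtain ⟨h2, h3⟩ := key h1.symm o2 o1 hle
          exact ⟨h2.symm, h3.symm⟩
      rw [ih u' hu hu' hll (by omega) hWu, he]

/-- growth along a trajectory which stays above `Y` -/
theorem growth {Y : ℝ} (hY : 0 < Y) (j : ℕ) : ∀ x : ℕ, (∀ i < j, Y ≤ ((T^[i] x : ℕ) : ℝ)) →
    (2 : ℝ) ^ j * (T^[j] x : ℕ) ≤ 3 ^ od j x * x * (1 + 1 / Y) ^ j := by
  induction j with
  | zero => intro x _; simp [od]
  | succ j ih =>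
    intro x h
    have h1 := ih (T x) (fun i hi => by
      have := h (i + 1) (by omega)
      rwa [Function.iterate_succ_apply] at this)
    have hx : Y ≤ (x : ℝ) := by simpa using h 0 (by omega)
    rw [Function.iterate_succ_apply, od_succ']
    have h2 : (2 : ℝ) * (T x : ℕ) ≤ 3 ^ (x % 2) * x * (1 + 1 / Y) := by
      rcases Nat.mod_two_eq_zero_or_one x with h0 | h0
      · have h3 := T_even h0
        have h4 : (2 : ℝ) * (T x : ℕ) = x := by exact_mod_cast h3
        rw [h4, h0, pow_zero, one_mul]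
        have : 0 ≤ (x : ℝ) * (1 / Y) := by positivity
        linarith
      · have h3 := T_odd h0
        have h4 : (2 : ℝ) * (T x : ℕ) = 3 * x + 1 := by exact_mod_cast h3
        rw [h4, h0, pow_one]
        have : 1 ≤ (x : ℝ) * (1 / Y) := by
          rw [mul_one_div, le_div_iff₀ hY]; linarith
        linarith
    have h3 : (0 : ℝ) ≤ 3 ^ od j (T x) * (1 + 1 / Y) ^ j := by positivity
    calc (2 : ℝ) ^ (j + 1) * (T^[j] (T x) : ℕ) = 2 * (2 ^ j * (T^[j] (T x) : ℕ)) := by ring
      _ ≤ 2 * (3 ^ od j (T x) * (T x : ℕ) * (1 + 1 / Y) ^ j) := by linarith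
      _ = (3 ^ od j (T x) * (1 + 1 / Y) ^ j) * (2 * (T x : ℕ)) := by ring
      _ ≤ (3 ^ od j (T x) * (1 + 1 / Y) ^ j) * (3 ^ (x % 2) * x * (1 + 1 / Y)) :=
          mul_le_mul_of_nonneg_left h2 h3
      _ = _ := by rw [pow_add, pow_succ]; ring

theorem growth_low (j x : ℕ) : (3 : ℝ) ^ od j x * x ≤ 2 ^ j * (T^[j] x : ℕ) := by
  have := iter_eq j x
  have h : 3 ^ od j x * x ≤ 2 ^ j * T^[j] x := by omega
  exact_mod_cast h

end Pool.Agent.V11311.PD
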