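import Pool.Agent.V11311.PD.P7
import Pool.Agent.H499R2.NDStep3

/-! Predecessor densities, part 8: the normalised masses of the residue classes, averaged over a block. -/

set_option autoImplicit false

namespace Pool.Agent.V11311.PD

open Finset Filter Topology Pool.Agent.H320R2.PD Pool.Agent.H499R2.ND

open scoped Classical in
/-- mass of the words of length `k` which are valid at `a` modulo `3^m` -/
noncomputable def cW (cap k m : ℕ) (a : ℤ) : ℝ := ∑ w ∈ FW cap k, if Vd m a w then wwt w else 0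

theorem wwt_pos (w : List ℕ) : 0 < wwt w := by unfold wwt; positivity

theorem class_card {y : ℝ} (hy : 0 ≤ y) (S : Finset ℕ) (hS : ∀ a ∈ S, y < a ∧ (a : ℝ) ≤ 2 * y)
    (k T : ℕ) (c : ℤ) (S' : Finset ℕ) (hS' : S' ⊆ S) (h : ∀ a ∈ S', (3 : ℤ) ^ k ∣ 2 ^ T * a - c) :
    (S'.card : ℝ) ≤ y / 3 ^ k + 1 := by
  rcases S'.eq_empty_or_nonempty with h0 | ⟨a0, ha0⟩
  · rw [h0]; simp; positivity
  have hc : IsCoprime ((3 : ℤ) ^ k) (2 ^ T) := by
    apply IsCoprime.pow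
    exact ⟨1, -1, by norm_num⟩
  have h1 : ∀ a ∈ S', (3 : ℤ) ^ k ∣ (a : ℤ) - a0 := by
    intro a ha
    have h2 := (h a ha).sub (h a0 ha0)
    have h3 : (2 : ℤ) ^ T * a - c - (2 ^ T * a0 - c) = 2 ^ T * ((a : ℤ) - a0) := by ring
    rw [h3] at h2
    exact hc.dvd_of_dvd_mul_left h2
  have h2 : S'.card ≤ (ap (-(2 * y)) (-y) ((3 : ℤ) ^ k) (-(a0 : ℤ))).card := by
    apply card_le_card_of_injOn (fun a : ℕ => -(a : ℤ))
    · intro a ha
      have ha := mem_coe.1 ha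
      have h3 := hS a (hS' ha)
      rw [mem_coe, mem_ap]
      refine ⟨⟨?_, ?_⟩, ?_⟩
      · push_cast; linarith
      · push_cast; linarith
      · have := h1 a ha
        rw [show -(a : ℤ) - -(a0 : ℤ) = -((a : ℤ) - a0) by ring]
        exact (dvd_neg).2 this
    · intro a _ b _ hab
      simpa using hab
  have h3 := ap_card_le (by linarith : -(2 * y) ≤ -y) (q := (3 : ℤ) ^ k) (by positivity) (-(a0 : ℤ))
  have h4 : (S'.card : ℝ) ≤ (ap (-(2 * y)) (-y) ((3 : ℤ) ^ k) (-(a0 : ℤ))).card := by exact_mod_cast h2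
  refine h4.trans (h3.trans (le_of_eq ?_))
  push_cast
  ring

theorem class_sum {y : ℝ} (hy : 0 ≤ y) (S : Finset ℕ) (hS : ∀ a ∈ S, y < a ∧ (a : ℝ) ≤ 2 * y)
    (k T : ℕ) (g : ℤ → ℝ) (hg : ∀ c, 0 ≤ g c) (hper : ∀ c c', (3 : ℤ) ^ k ∣ c - c' → g c = g c') :
    ∑ a ∈ S, g (2 ^ T * a) ≤ (y / 3 ^ k + 1) * ∑ c ∈ range (3 ^ k), g (c : ℤ) := by
  classical
  set r : ℕ → ℕ := fun a => ((2 ^ T * (a : ℤ)) % 3 ^ k).toNat with hr
  have h3 : (0 : ℤ) < 3 ^ k := by positivity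
  have hrc : ∀ a, ((r a : ℕ) : ℤ) = (2 ^ T * (a : ℤ)) % 3 ^ k := fun a =>
    Int.toNat_of_nonneg (Int.emod_nonneg _ h3.ne')
  have hrl : ∀ a ∈ S, r a ∈ range (3 ^ k) := by
    intro a _
    rw [mem_range]
    have := Int.emod_lt_of_pos (2 ^ T * (a : ℤ)) h3
    rw [← hrc] at this
    exact_mod_cast this
  rw [← sum_fiberwise_of_maps_to hrl, mul_sum]
  apply sum_le_sum
  intro c _
  have h4 : ∀ a ∈ S.filter (fun a => r a = c), g (2 ^ T * a) = g c := by
    intro a ha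
    rw [mem_filter] at ha
    apply hper
    have := hrc a
    rw [ha.2] at this
    rw [this]
    exact Int.dvd_self_sub_emod
  rw [sum_congr rfl h4, sum_const, nsmul_eq_mul]
  apply mul_le_mul_of_nonneg_right _ (hg _)
  apply class_card hy S hS k T c _ (filter_subset _ _)
  intro a ha
  rw [mem_filter] at ha
  have := hrc a
  rw [ha.2] at this
  rw [this]
  exact Int.dvd_self_sub_emod

theorem cW_cnt (cap k m : ℕ) (a : ℤ) :
    cW cap k m a = ∑ T ∈ range (k * cap + 1), cnt (FWT cap k T) wwt (fun w => (Wo w : ℤ)) m (2 ^ T * a) := by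
  classical
  unfold cW
  rw [← sum_fiberwise_of_maps_to (g := fun w : List ℕ => w.sum) (t := range (k * cap + 1))]
  · apply sum_congr rfl
    intro T _
    unfold cnt FWT
    apply sum_congr rfl
    intro w hw
    rw [mem_filter] at hw
    unfold Vd
    rw [hw.2]
    by_cases h : (3 : ℤ) ^ m ∣ (Wo w : ℤ) - 2 ^ T * a
    · rw [if_pos h, if_pos h]
    · rw [if_neg h, if_neg h]
  · intro w hw
    have := (sum_le_of_mem hw).2
    simp only [mem_range]
    omega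

theorem cW_nonneg (cap k m : ℕ) (a : ℤ) : 0 ≤ cW cap k m a := by
  classical
  unfold cW
  apply sum_nonneg
  intro w _
  split_ifs
  · exact (wwt_pos w).le
  · exact le_rfl

/-- weight `1/a` over a subset of the block -/
theorem block_sum_le {y : ℝ} (hy : 0 < y) (S : Finset ℕ) (hS : ∀ a ∈ S, y < a ∧ (a : ℝ) ≤ 2 * y) (k : ℕ)
    (hk : (3 : ℝ) ^ k ≤ y) {I : Type*} (s : Finset I) (T : I → ℕ) (g : I → ℤ → ℝ)
    (hg : ∀ i c, 0 ≤ g i c) (hper : ∀ i c c', (3 : ℤ) ^ k ∣ c - c' → g i c = g i c') :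
    ∑ a ∈ S, (1 / (a : ℝ)) * (3 ^ k * ∑ i ∈ s, g i (2 ^ T i * a))
      ≤ 2 * ∑ i ∈ s, ∑ c ∈ range (3 ^ k), g i (c : ℤ) := by
  have h1 : ∀ a ∈ S, (1 / (a : ℝ)) * (3 ^ k * ∑ i ∈ s, g i (2 ^ T i * a))
      ≤ (1 / y) * (3 ^ k * ∑ i ∈ s, g i (2 ^ T i * a)) := by
    intro a ha
    have h2 : 0 ≤ ∑ i ∈ s, g i (2 ^ T i * (a : ℤ)) := sum_nonneg fun i _ => hg i _
    apply mul_le_mul_of_nonneg_right _ (by positivity)
    exact one_div_le_one_div_of_le hy (hS a ha).1.le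
  refine (sum_le_sum h1).trans ?_
  rw [← mul_sum, ← mul_sum, sum_comm]
  have h2 : ∀ i ∈ s, ∑ a ∈ S, g i (2 ^ T i * (a : ℤ)) ≤ (2 * (y / 3 ^ k)) * ∑ c ∈ range (3 ^ k), g i (c : ℤ) := by
    intro i _
    refine (class_sum hy.le S hS k (T i) (g i) (hg i) (hper i)).trans ?_
    apply mul_le_mul_of_nonneg_right _ (sum_nonneg fun c _ => hg i _)
    have : 1 ≤ y / 3 ^ k := by rw [le_div_iff₀ (by positivity)]; linarith
    linarith
  have h3 := sum_le_sum h2
  rw [← mul_sum] at h3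
  have h4 : (1 / y) * ((3 : ℝ) ^ k * ∑ i ∈ s, ∑ a ∈ S, g i (2 ^ T i * (a : ℤ)))
      ≤ (1 / y) * ((3 : ℝ) ^ k * ((2 * (y / 3 ^ k)) * ∑ i ∈ s, ∑ c ∈ range (3 ^ k), g i (c : ℤ))) := by
    apply mul_le_mul_of_nonneg_left _ (by positivity)
    exact mul_le_mul_of_nonneg_left h3 (by positivity)
  refine h4.trans (le_of_eq ?_)
  field_simp

/-- the average of the deviations -/
theorem cW_diff {y : ℝ} (hy : 0 < y) (S : Finset ℕ) (hS : ∀ a ∈ S, y < a ∧ (a : ℝ) ≤ 2 * y) (cap k m : ℕ)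
    (hk : (3 : ℝ) ^ k ≤ y) (hmk : m ≤ k) :
    ∑ a ∈ S, (1 / (a : ℝ)) * |3 ^ k * cW cap k k a - 3 ^ m * cW cap k m a|
      ≤ 2 * ∑ T ∈ range (k * cap + 1), dev (FWT cap k T) wwt (fun w => (Wo w : ℤ)) k m := by
  set g : ℕ → ℤ → ℝ := fun T c => |cnt (FWT cap k T) wwt (fun w => (Wo w : ℤ)) k c
    - cnt (FWT cap k T) wwt (fun w => (Wo w : ℤ)) m c / 3 ^ (k - m)| with hg
  have h1 := block_sum_le hy S hS k hk (range (k * cap + 1)) id g (fun _ _ => abs_nonneg _) (by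
    intro T c c' h
    simp only [hg]
    rw [cnt_congr _ k h, cnt_congr _ m ((pow_dvd_pow 3 hmk).trans h)])
  refine le_trans (sum_le_sum fun a _ => ?_) h1
  apply mul_le_mul_of_nonneg_left _ (by positivity)
  have h3 : (3 : ℝ) ^ k = 3 ^ (k - m) * 3 ^ m := by rw [← pow_add, Nat.sub_add_cancel hmk]
  have h2 : 3 ^ k * cW cap k k a - 3 ^ m * cW cap k m a
      = 3 ^ k * ∑ T ∈ range (k * cap + 1), (cnt (FWT cap k T) wwt (fun w => (Wo w : ℤ)) k (2 ^ T * a)
        - cnt (FWT cap k T) wwt (fun w => (Wo w : ℤ)) m (2 ^ T * a) / 3 ^ (k - m)) := by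
    rw [sum_sub_distrib, ← sum_div, ← cW_cnt, ← cW_cnt, mul_sub, h3]
    field_simp
  rw [h2, abs_mul, abs_of_pos (by positivity : (0 : ℝ) < 3 ^ k)]
  exact mul_le_mul_of_nonneg_left (abs_sum_le_sum_abs _ _) (by positivity)

theorem cW_mass {y : ℝ} (hy : 0 < y) (S : Finset ℕ) (hS : ∀ a ∈ S, y < a ∧ (a : ℝ) ≤ 2 * y) (cap k : ℕ)
    (hk : (3 : ℝ) ^ k ≤ y) : ∑ a ∈ S, (1 / (a : ℝ)) * (3 ^ k * cW cap k k a) ≤ 2 := by
  have h1 := block_sum_le hy S hS k hk (range (k * cap + 1)) id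
    (fun T c => cnt (FWT cap k T) wwt (fun w => (Wo w : ℤ)) k c)
    (fun T c => cnt_nonneg _ (fun w _ => (wwt_pos w).le) k c)
    (fun T c c' h => cnt_congr _ k h)
  have h2 : ∑ T ∈ range (k * cap + 1), ∑ c ∈ range (3 ^ k), cnt (FWT cap k T) wwt (fun w => (Wo w : ℤ)) k (c : ℤ)
      ≤ 1 := by
    simp only [Pool.Agent.H499R2.ND.sum_cnt]
    unfold FWT
    rw [sum_fiberwise_of_maps_to (g := fun w : List ℕ => w.sum)]
    · exact sum_wwt_le cap k
    · intro w hw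
      have := (sum_le_of_mem hw).2
      simp only [mem_range]
      omega
  simp only [cW_cnt]
  simp only [id] at h1
  linarith

/-- the last letter does not matter -/
theorem cW_step (cap m : ℕ) (a : ℤ) : cW cap (m + 1) m a = (1 - (1 / 2) ^ cap) * cW cap m m a := by
  classical
  unfold cW
  rw [sum_FW_snoc, mul_sum]
  apply sum_congr rfl
  intro u hu
  have hlen : u.length = m := (mem_FW.1 hu).1
  have h1 : ∀ e ∈ Icc 1 cap, (if Vd m a (u ++ [e]) then wwt (u ++ [e]) else 0)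
      = (1 / 2 : ℝ) ^ e * (if Vd m a u then wwt u else 0) := by
    intro e _
    have h2 : Vd m a (u ++ [e]) ↔ Vd m a u := by
      unfold Vd
      rw [Wo_snoc, List.sum_append, List.sum_singleton, hlen]
      push_cast
      have h3 : (2 : ℤ) ^ e * Wo u + 3 ^ m - 2 ^ (u.sum + e) * a = 2 ^ e * ((Wo u : ℤ) - 2 ^ u.sum * a) + 3 ^ m := by
        rw [pow_add]; ring
      rw [h3]
      have hc : IsCoprime ((3 : ℤ) ^ m) (2 ^ e) := by
        apply IsCoprime.pow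
        exact ⟨1, -1, by norm_num⟩
      constructor
      · intro h
        have h4 : (3 : ℤ) ^ m ∣ 2 ^ e * ((Wo u : ℤ) - 2 ^ u.sum * a) := (dvd_add_left (dvd_refl _)).1 h
        exact hc.dvd_of_dvd_mul_left h4
      · intro h
        exact (h.mul_left _).add (dvd_refl _)
    by_cases hV : Vd m a u
    · rw [if_pos (h2.2 hV), if_pos hV]
      unfold wwt
      rw [List.sum_append, List.sum_singleton, pow_add]; ring
    · rw [if_neg (fun h => hV (h2.1 h)), if_neg hV, mul_zero]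
  rw [sum_congr rfl h1, ← sum_mul, sum_Icc_half]

/-- THE CHAIN: the normalised masses form a Cauchy sequence on average -/
theorem chain (B : ℕ) : ∃ C : ℝ, 0 < C ∧ ∀ (y : ℝ), 0 < y → ∀ S : Finset ℕ,
    (∀ a ∈ S, y < a ∧ (a : ℝ) ≤ 2 * y) → ∀ cap m k : ℕ, 1 ≤ m → m ≤ k → 3 * k ≤ cap → (3 : ℝ) ^ k ≤ y →
    ∑ a ∈ S, (1 / (a : ℝ)) * |3 ^ k * cW cap k k a - 3 ^ m * cW cap m m a|
      ≤ C / (m : ℝ) ^ B * (1 + 1 / (m : ℝ) - 1 / (k : ℝ)) - C / (m : ℝ) ^ B + 2 * k * (1 / 2) ^ cap := by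
  obtain ⟨C, hC, hmix⟩ := mix (B + 3)
  refine ⟨8 * C, by positivity, ?_⟩
  intro y hy S hS cap m k hm hmk
  induction k, hmk using Nat.le_induction with
  | base =>
    intro _ _
    simp
  | succ k hmk ih =>
    intro hcap hky
    have h3k : (3 : ℝ) ^ k ≤ y := by
      refine le_trans ?_ hky
      exact pow_le_pow_right₀ (by norm_num) (by omega)
    have ih' := ih (by omega) h3k
    have hk1 : 1 ≤ k := hm.trans hmk
    have hkR : (1 : ℝ) ≤ k := by exact_mod_cast hk1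
    have hmR : (1 : ℝ) ≤ m := by exact_mod_cast hm
    have hmkR : (m : ℝ) ≤ k := by exact_mod_cast hmk
    have hd := cW_diff hy S hS cap (k + 1) k hky (by omega)
    have hmx := hmix (k + 1) 0 k cap (by omega) hk1 (by omega) hcap
    have hmass := cW_mass hy S hS cap k h3k
    have hcap0 : (0 : ℝ) < (1 / 2 : ℝ) ^ cap := by positivity
    -- triangle inequality
    have htri : ∀ a ∈ S, (1 / (a : ℝ)) * |3 ^ (k + 1) * cW cap (k + 1) (k + 1) a - 3 ^ m * cW cap m m a|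
        ≤ (1 / (a : ℝ)) * |3 ^ (k + 1) * cW cap (k + 1) (k + 1) a - 3 ^ k * cW cap (k + 1) k a|
          + (1 / 2) ^ cap * ((1 / (a : ℝ)) * (3 ^ k * cW cap k k a))
          + (1 / (a : ℝ)) * |3 ^ k * cW cap k k a - 3 ^ m * cW cap m m a| := by
      intro a _
      have e1 : 3 ^ (k + 1) * cW cap (k + 1) (k + 1) a - 3 ^ m * cW cap m m a
          = (3 ^ (k + 1) * cW cap (k + 1) (k + 1) a - 3 ^ k * cW cap (k + 1) k a)
            - (1 / 2) ^ cap * (3 ^ k * cW cap k k a) + (3 ^ k * cW cap k k a - 3 ^ m * cW cap m m a) := by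
        rw [cW_step]; ring
      have h0 : 0 ≤ (1 / 2 : ℝ) ^ cap * (3 ^ k * cW cap k k a) := by
        have := cW_nonneg cap k k a
        positivity
      have e2 : |3 ^ (k + 1) * cW cap (k + 1) (k + 1) a - 3 ^ m * cW cap m m a|
          ≤ |3 ^ (k + 1) * cW cap (k + 1) (k + 1) a - 3 ^ k * cW cap (k + 1) k a|
            + (1 / 2) ^ cap * (3 ^ k * cW cap k k a) + |3 ^ k * cW cap k k a - 3 ^ m * cW cap m m a| := by
        rw [e1]
        refine (abs_add_le _ _).trans ?_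
        apply add_le_add_left
        refine (abs_sub _ _).trans ?_
        rw [abs_of_nonneg h0]
      have h1 := mul_le_mul_of_nonneg_left e2 (by positivity : 0 ≤ (1 / (a : ℝ)))
      refine h1.trans (le_of_eq ?_)
      ring
    refine (sum_le_sum htri).trans ?_
    rw [sum_add_distrib, sum_add_distrib, ← mul_sum]
    -- one step
    have hstep : 2 * ∑ T ∈ range ((k + 1) * cap + 1), dev (FWT cap (k + 1) T) wwt (fun w => (Wo w : ℤ)) (k + 1) k
        ≤ 8 * C / (m : ℝ) ^ B * (1 / (k : ℝ) - 1 / ((k : ℝ) + 1)) := by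
      push_cast at hmx
      rw [add_zero, zero_div, zero_pow (by omega : B + 3 ≠ 0), add_zero] at hmx
      rw [add_zero] at hmx
      refine (mul_le_mul_of_nonneg_left hmx (by norm_num)).trans ?_
      have e1 : (1 / (k : ℝ)) ^ (B + 3) ≤ (1 / (m : ℝ) ^ B) * (1 / (k : ℝ) ^ 3) := by
        rw [pow_add, one_div_pow, one_div_pow]
        apply mul_le_mul_of_nonneg_right _ (by positivity)
        apply one_div_le_one_div_of_le (by positivity)
        exact pow_le_pow_left₀ (by positivity) hmkR B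
      have e2 : (1 : ℝ) / k - 1 / ((k : ℝ) + 1) = 1 / (k * (k + 1)) := by
        field_simp
        ring
      rw [e2]
      calc 2 * (((k : ℝ) + 1) * (C * (1 / (k : ℝ)) ^ (B + 3)))
          ≤ 2 * (((k : ℝ) + 1) * (C * ((1 / (m : ℝ) ^ B) * (1 / (k : ℝ) ^ 3)))) := by
            apply mul_le_mul_of_nonneg_left _ (by norm_num)
            apply mul_le_mul_of_nonneg_left _ (by positivity)
            exact mul_le_mul_of_nonneg_left e1 hC.le
        _ = (C / (m : ℝ) ^ B) * (2 * ((k : ℝ) + 1) / (k : ℝ) ^ 3) := by ring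
        _ ≤ (C / (m : ℝ) ^ B) * (8 / (k * (k + 1))) := by
            apply mul_le_mul_of_nonneg_left _ (by positivity)
            rw [div_le_div_iff₀ (by positivity) (by positivity)]
            have h1 : ((k : ℝ) + 1) ^ 2 ≤ 4 * (k : ℝ) ^ 2 := by nlinarith
            have h2 : 2 * ((k : ℝ) + 1) * (k * (k + 1)) = 2 * k * ((k : ℝ) + 1) ^ 2 := by ring
            rw [h2]
            nlinarith
        _ = 8 * C / (m : ℝ) ^ B * (1 / (k * (k + 1))) := by ring
    have hm2 : (1 / 2 : ℝ) ^ cap * ∑ a ∈ S, (1 / (a : ℝ)) * (3 ^ k * cW cap k k a) ≤ (1 / 2) ^ cap * 2 :=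
      mul_le_mul_of_nonneg_left hmass hcap0.le
    push_cast
    have hfin : 8 * C / (m : ℝ) ^ B * (1 + 1 / (m : ℝ) - 1 / ((k : ℝ) + 1)) - 8 * C / (m : ℝ) ^ B
        + 2 * ((k : ℝ) + 1) * (1 / 2) ^ cap
        = 8 * C / (m : ℝ) ^ B * (1 / (k : ℝ) - 1 / ((k : ℝ) + 1)) + (1 / 2) ^ cap * 2
          + (8 * C / (m : ℝ) ^ B * (1 + 1 / (m : ℝ) - 1 / (k : ℝ)) - 8 * C / (m : ℝ) ^ B + 2 * k * (1 / 2) ^ cap) := by
      ring
    rw [hfin]
    linarith

end Pool.Agent.V11311.PD
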