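import Pool.Agent.V11311.PD.P8

/-! Predecessor densities, part 9: the logarithmic sum of the predecessors in a window, upper bound. -/

set_option autoImplicit false

namespace Pool.Agent.V11311.PD

open Finset Filter Topology Pool.Agent.H320R2.PD

open Pool.Agent.Helper894.Collatz (T od)

open Pool.Agent.H377R2 (iter_pos)

open Pool.Agent.H319R2.Lln (mu mu_lower mu_upper mu_eq)

/-- the trajectory of `x` passes through `a` -/
def Vis (x a : ℕ) : Prop := ∃ j : ℕ, T^[j] x = a

theorem c43 : Real.log (4 / 3) = 2 * mu := by unfold mu; ring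

theorem c43_low : 0.284 ≤ Real.log (4 / 3) := by
  rw [c43]
  have h5 := mu_lower
  have h6 := Real.log_two_gt_d9
  linarith

theorem c43_up : Real.log (4 / 3) ≤ 0.289 := by
  rw [c43]
  have h5 := mu_upper
  have h6 := Real.log_two_lt_d9
  linarith

/-- the data of a hit of a good element -/
theorem typ_hit {ε ε' y : ℝ} (hε0 : 0 ≤ ε) (hε : ε ≤ 1 / 10) (hy : 4 ≤ y) {a x j : ℕ} (ha : a ∈ Gd ε' y)
    (hx : 0 < x) (hT : Typ ε (Real.sqrt y) x) (hj : T^[j] x = a) (hlog : 8 * Real.log x ≤ Real.sqrt y) :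
    (j : ℝ) ≤ 8 * Real.log x ∧
    |Real.log (4 / 3) * (od j x) - (Real.log x - Real.log a)| ≤ 2 * ε * Real.log x + 1 ∧
    (2 : ℝ) ^ j * a ≤ 3 ^ od j x * x * (1 + 1 / Real.sqrt y) ^ j := by
  obtain ⟨m0, h1, h2, h3⟩ := hT.time hx hε
  obtain ⟨a1, a2, a3, a4⟩ := ha
  have hsq : 0 < Real.sqrt y := Real.sqrt_pos.2 (by linarith)
  have hlow : ∀ i ≤ j, Real.sqrt y < ((T^[i] x : ℕ) : ℝ) := by
    intro i hi
    by_contra hcon
    push Not at hcon
    apply a4 (T^[i] x) (iter_pos hx i) hcon (j - i)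
    rw [← Function.iterate_add_apply, Nat.sub_add_cancel hi, hj]
  have hjm : j ≤ m0 := by
    by_contra hcon
    push Not at hcon
    have := hlow m0 hcon.le
    linarith
  have hjR : (j : ℝ) ≤ 8 * Real.log x := by
    have : (j : ℝ) ≤ m0 := by exact_mod_cast hjm
    linarith
  have hgr := growth hsq j x (fun i hi => (hlow i hi.le).le)
  rw [hj] at hgr
  refine ⟨hjR, ?_, hgr⟩
  have hpr := h3 j hjm
  rw [hj] at hpr
  have hgl := growth_low j x
  rw [hj] at hgl
  have hxR : (0 : ℝ) < x := by exact_mod_cast hx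
  have haR : (0 : ℝ) < a := by linarith
  set k := od j x with hk
  -- logarithms
  have l1 : (k : ℝ) * Real.log 3 + Real.log x ≤ j * Real.log 2 + Real.log a := by
    have := Real.log_le_log (by positivity) hgl
    rwa [Real.log_mul (by positivity) hxR.ne', Real.log_mul (by positivity) haR.ne', Real.log_pow,
      Real.log_pow] at this
  have l2 : j * Real.log 2 + Real.log a ≤ k * Real.log 3 + Real.log x + 1 := by
    have := Real.log_le_log (by positivity) hgr
    rw [Real.log_mul (by positivity) haR.ne', Real.log_mul (by positivity) (by positivity),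
      Real.log_mul (by positivity) hxR.ne', Real.log_pow, Real.log_pow, Real.log_pow] at this
    have h4 : Real.log (1 + 1 / Real.sqrt y) ≤ 1 / Real.sqrt y := by
      have := Real.log_le_sub_one_of_pos (by positivity : 0 < 1 + 1 / Real.sqrt y)
      linarith
    have h5 : (j : ℝ) * Real.log (1 + 1 / Real.sqrt y) ≤ 1 := by
      calc (j : ℝ) * Real.log (1 + 1 / Real.sqrt y) ≤ j * (1 / Real.sqrt y) :=
            mul_le_mul_of_nonneg_left h4 (Nat.cast_nonneg _)
        _ = j / Real.sqrt y := by ring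
        _ ≤ 1 := by rw [div_le_one hsq]; linarith
    linarith
  rw [c43]
  have hmu := mu_eq
  have hmul := mu_lower
  have hmuu := mu_upper
  have hl2 := Real.log_two_gt_d9
  have hl2' := Real.log_two_lt_d9
  have hl3 : 1.08 ≤ Real.log 3 := by
    have := Pool.Agent.H319R2.Lln.log3_lower
    linarith
  have hmu0 : 0 < mu := by linarith
  set e1 := Real.log a - Real.log x + mu * j with he1
  have he1b := abs_le.1 hpr
  set θ := j * Real.log 2 + Real.log a - (k * Real.log 3 + Real.log x) with hθ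
  have hθ0 : 0 ≤ θ := by rw [hθ]; linarith
  have hθ1 : θ ≤ 1 := by rw [hθ]; linarith
  -- k log 3 = e1 + j log 3 / 2 - θ
  have hkey : (2 * mu * k - (Real.log x - Real.log a)) * Real.log 3
      = e1 * Real.log 3 + 2 * mu * (e1 - θ) := by
    have h6 : (k : ℝ) * Real.log 3 = e1 + j * Real.log 3 / 2 - θ := by
      rw [he1, hθ]
      have : Real.log 2 = mu + Real.log 3 / 2 := by linarith
      rw [this]; ring
    have h7 : 2 * mu * k * Real.log 3 = 2 * mu * (e1 + j * Real.log 3 / 2 - θ) := by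
      rw [← h6]; ring
    have h8 : mu * j = e1 + (Real.log x - Real.log a) := by rw [he1]; ring
    calc (2 * mu * k - (Real.log x - Real.log a)) * Real.log 3
        = 2 * mu * k * Real.log 3 - (Real.log x - Real.log a) * Real.log 3 := by ring
      _ = 2 * mu * (e1 - θ) + mu * j * Real.log 3 - (Real.log x - Real.log a) * Real.log 3 := by
          rw [h7]; ring
      _ = _ := by rw [h8]; ring
  have hεx : 0 ≤ ε * Real.log x := mul_nonneg hε0 (Real.log_natCast_nonneg x)
  have hmu3 : 2 * mu ≤ 0.3 * Real.log 3 := by linarith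
  rw [abs_le]
  have hl3pos : 0 < Real.log 3 := by linarith
  constructor
  · -- lower
    have h9 : -(2 * ε * Real.log x + 1) * Real.log 3
        ≤ (2 * mu * k - (Real.log x - Real.log a)) * Real.log 3 := by
      rw [hkey]
      have b1 : -(ε * Real.log x) * Real.log 3 ≤ e1 * Real.log 3 :=
        mul_le_mul_of_nonneg_right he1b.1 hl3pos.le
      have b2 : 2 * mu * (-(ε * Real.log x) - 1) ≤ 2 * mu * (e1 - θ) :=
        mul_le_mul_of_nonneg_left (by linarith [he1b.1]) (by linarith)
      have b3 : 2 * mu * (ε * Real.log x + 1) ≤ 0.3 * Real.log 3 * (ε * Real.log x + 1) :=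
        mul_le_mul_of_nonneg_right hmu3 (by linarith)
      nlinarith
    exact le_of_mul_le_mul_right h9 hl3pos
  · have h9 : (2 * mu * k - (Real.log x - Real.log a)) * Real.log 3
        ≤ (2 * ε * Real.log x + 1) * Real.log 3 := by
      rw [hkey]
      have b1 : e1 * Real.log 3 ≤ (ε * Real.log x) * Real.log 3 :=
        mul_le_mul_of_nonneg_right he1b.2 hl3pos.le
      have b2 : 2 * mu * (e1 - θ) ≤ 2 * mu * (ε * Real.log x) :=
        mul_le_mul_of_nonneg_left (by linarith [he1b.2]) (by linarith)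
      have b3 : 2 * mu * (ε * Real.log x) ≤ 0.3 * Real.log 3 * (ε * Real.log x) :=
        mul_le_mul_of_nonneg_right hmu3 hεx
      nlinarith
    exact le_of_mul_le_mul_right h9 hl3pos

/-- covering of a sum -/
theorem sum_cover {α β : Type*} [Nonempty β] (A : Finset α) (Bs : Finset β) (g : α → ℝ) (h : β → ℝ) (r : β → α)
    (hh : ∀ p ∈ Bs, 0 ≤ h p) (H : ∀ x ∈ A, ∃ p ∈ Bs, r p = x ∧ g x ≤ h p) :
    ∑ x ∈ A, g x ≤ ∑ p ∈ Bs, h p := by
  classical
  choose! P hP using H
  have hinj : Set.InjOn P (A : Set α) := by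
    intro x hx x' hx' hxx
    rw [← (hP x hx).2.1, ← (hP x' hx').2.1, hxx]
  calc ∑ x ∈ A, g x ≤ ∑ x ∈ A, h (P x) := sum_le_sum fun x hx => (hP x hx).2.2
    _ = ∑ p ∈ A.image P, h p := by rw [sum_image hinj]
    _ ≤ ∑ p ∈ Bs, h p := by
        apply sum_le_sum_of_subset_of_nonneg
        · intro p hp
          rw [mem_image] at hp
          obtain ⟨x, hx, rfl⟩ := hp
          exact (hP x hx).1
        · intro p hp _
          exact hh p hp

/-- the numbers of odd steps compatible with a window -/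
noncomputable def KS (cap : ℕ) (α β : ℝ) : Finset ℕ :=
  (range (cap + 1)).filter fun k => α ≤ Real.log (4 / 3) * k ∧ Real.log (4 / 3) * k ≤ β

theorem mem_KS {cap : ℕ} {α β : ℝ} {k : ℕ} : k ∈ KS cap α β ↔
    k ≤ cap ∧ α ≤ Real.log (4 / 3) * k ∧ Real.log (4 / 3) * k ≤ β := by
  unfold KS
  rw [mem_filter, mem_range, Nat.lt_succ_iff]

theorem KS_card_le (cap : ℕ) {α β : ℝ} (h : α ≤ β) :
    ((KS cap α β).card : ℝ) ≤ (β - α) / Real.log (4 / 3) + 1 := by
  have hc : 0 < Real.log (4 / 3) := Real.log_pos (by norm_num)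
  rcases (KS cap α β).eq_empty_or_nonempty with h0 | hne
  · rw [h0]; simp
    have : 0 ≤ (β - α) / Real.log (4 / 3) := div_nonneg (by linarith) hc.le
    linarith
  set m := (KS cap α β).min' hne with hm
  set M := (KS cap α β).max' hne with hM
  have h1 : KS cap α β ⊆ Icc m M := fun k hk => mem_Icc.2 ⟨min'_le _ k hk, le_max' _ k hk⟩
  have h2 := card_le_card h1
  rw [Nat.card_Icc] at h2
  have hmM : m ≤ M := min'_le _ _ (max'_mem _ hne)
  have h3 : ((KS cap α β).card : ℝ) ≤ (M : ℝ) - m + 1 := by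
    have : ((KS cap α β).card : ℝ) ≤ ((M + 1 - m : ℕ) : ℝ) := by exact_mod_cast h2
    rw [Nat.cast_sub (by omega)] at this
    push_cast at this
    linarith
  have h4 := (mem_KS.1 (min'_mem _ hne)).2.1
  have h5 := (mem_KS.1 (max'_mem _ hne)).2.2
  rw [← hm] at h4
  rw [← hM] at h5
  have h6 : (M : ℝ) - m ≤ (β - α) / Real.log (4 / 3) := by
    rw [le_div_iff₀ hc]; nlinarith
  linarith

open scoped Classical in
/-- upper bound for one good element, typical predecessors -/
theorem upper_one {ε ε' y : ℝ} (hε0 : 0 ≤ ε) (hε : ε ≤ 1 / 10) (hy : 4 ≤ y) {a : ℕ} (ha : a ∈ Gd ε' y)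
    {X1 X2 : ℝ} (hX1 : 1 ≤ X1) {cap : ℕ} (hcap : 8 * Real.log X2 ≤ cap)
    (hlog : 8 * Real.log X2 ≤ Real.sqrt y) {η : ℝ}
    (hη : (1 + 1 / Real.sqrt y) ^ cap ≤ 1 + η) :
    ∑ x ∈ (Ico ⌈X1⌉₊ ⌈X2⌉₊).filter (fun x => Vis x a ∧ Typ ε (Real.sqrt y) x), (1 : ℝ) / x
      ≤ (1 + η) * (2 * ((1 / (a : ℝ)) * ∑ k ∈ KS cap (Real.log X1 - Real.log y - 2 - 2 * ε * Real.log X2)
          (Real.log X2 - Real.log y + 2 + 2 * ε * Real.log X2), 3 ^ k * cW cap k k a)) := by
  set K := KS cap (Real.log X1 - Real.log y - 2 - 2 * ε * Real.log X2)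
          (Real.log X2 - Real.log y + 2 + 2 * ε * Real.log X2) with hK
  have haR : (0 : ℝ) < a := by linarith [ha.1]
  have haN : 0 < a := by exact_mod_cast haR
  have hsq : 0 < Real.sqrt y := Real.sqrt_pos.2 (by linarith)
  have h1η : 0 < 1 + η := lt_of_lt_of_le (by positivity) hη
  set WD := K.biUnion fun k => (FW cap k).filter fun w => Vd k a w with hWD
  have hbd := sum_cover ((Ico ⌈X1⌉₊ ⌈X2⌉₊).filter (fun x => Vis x a ∧ Typ ε (Real.sqrt y) x))
    (WD ×ˢ range (cap + 1)) (fun x => (1 : ℝ) / x)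
    (fun p : List ℕ × ℕ => (1 + η) * (3 ^ p.1.length / (2 ^ p.1.sum * a) * (1 / 2) ^ p.2))
    (fun p : List ℕ × ℕ => 2 ^ p.2 * ((2 ^ p.1.sum * a - Wo p.1) / 3 ^ p.1.length))
    (fun p _ => by positivity) (by
      intro x hx
      rw [mem_filter, mem_Ico] at hx
      obtain ⟨⟨hx1, hx2⟩, ⟨j, hj⟩, hT⟩ := hx
      have hxX1 : X1 ≤ (x : ℝ) := (Nat.le_ceil X1).trans (by exact_mod_cast hx1)
      have hxX2 : (x : ℝ) < X2 := Nat.lt_ceil.1 hx2
      have hxR : (0 : ℝ) < x := by linarith
      have hxN : 0 < x := by exact_mod_cast hxR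
      have hlx : Real.log x ≤ Real.log X2 := Real.log_le_log hxR hxX2.le
      have hlx1 : Real.log X1 ≤ Real.log x := Real.log_le_log (by linarith) hxX1
      obtain ⟨d1, d2, d3⟩ := typ_hit hε0 hε hy ha hxN hT hj (by linarith)
      obtain ⟨w, j0, x', w1, w2, w3, w4, w5⟩ := conv j x a hj
      have hjcap : j ≤ cap := by
        have : (j : ℝ) ≤ cap := by linarith
        exact_mod_cast this
      have hodj : od j x ≤ j := by
        unfold od
        calc ∑ i ∈ range j, (T^[i] x) % 2 ≤ ∑ i ∈ range j, 1 :=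
              sum_le_sum fun i _ => by omega
          _ = j := by simp
      have hwFW : w ∈ FW cap w.length := mem_FW_of w1 (by omega)
      have hVd : Vd w.length a w := Vd_of_eq w5
      refine ⟨(w, j0), ?_, ?_, ?_⟩
      · rw [mem_product, hWD, mem_biUnion, mem_range]
        refine ⟨⟨w.length, ?_, ?_⟩, by omega⟩
        · rw [hK, mem_KS, w2]
          have hla : Real.log y ≤ Real.log a := Real.log_le_log (by linarith) ha.1.le
          have hla2 : Real.log a ≤ Real.log 2 + Real.log y := by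
            rw [← Real.log_mul (by norm_num) (by linarith)]
            exact Real.log_le_log haR ha.2.1
          have hl2 := Real.log_two_lt_d9
          have hεx : ε * Real.log x ≤ ε * Real.log X2 := mul_le_mul_of_nonneg_left hlx hε0
          obtain ⟨b1, b2⟩ := abs_le.1 d2
          refine ⟨by omega, by linarith, by linarith⟩
        · rw [mem_filter]
          exact ⟨hwFW, hVd⟩
      · simp only
        have h6 : 2 ^ w.sum * a - Wo w = 3 ^ w.length * x' := by omega
        rw [h6, Nat.mul_div_cancel_left _ (by positivity), ← w3]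
      · simp only
        have h7 : (2 : ℝ) ^ j * a ≤ 3 ^ w.length * x * (1 + η) := by
          rw [w2]
          refine d3.trans ?_
          apply mul_le_mul_of_nonneg_left _ (by positivity)
          refine le_trans ?_ hη
          exact pow_le_pow_right₀ (by have : 0 < 1 / Real.sqrt y := by positivity
                                      linarith) hjcap
        have h8 : (1 + η) * (3 ^ w.length / (2 ^ w.sum * (a : ℝ)) * (1 / 2) ^ j0)
            = (3 ^ w.length * (1 + η)) / (2 ^ j * a) := by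
          rw [← w4, pow_add, one_div, inv_pow]
          field_simp
        rw [h8, div_le_div_iff₀ hxR (by positivity)]
        linarith)
  refine hbd.trans ?_
  rw [sum_product]
  have hgeo : ∀ w : List ℕ, ∑ j0 ∈ range (cap + 1), (1 + η) * (3 ^ w.length / (2 ^ w.sum * (a : ℝ)) * (1 / 2) ^ j0)
      ≤ (1 + η) * (2 * ((1 / (a : ℝ)) * (3 ^ w.length * wwt w))) := by
    intro w
    rw [← mul_sum, ← mul_sum]
    have h9 : ∑ i ∈ range (cap + 1), (1 / 2 : ℝ) ^ i ≤ 2 := by
      have := geom_sum_eq (by norm_num : (1 / 2 : ℝ) ≠ 1) (cap + 1)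
      rw [this]
      have : 0 < (1 / 2 : ℝ) ^ (cap + 1) := by positivity
      rw [div_le_iff_of_neg (by norm_num)]
      linarith
    apply mul_le_mul_of_nonneg_left _ h1η.le
    have h10 : 3 ^ w.length / (2 ^ w.sum * (a : ℝ)) = (1 / (a : ℝ)) * (3 ^ w.length * wwt w) := by
      unfold wwt
      rw [one_div, one_div, inv_pow]
      field_simp
    rw [h10]
    have h11 : 0 ≤ (1 / (a : ℝ)) * (3 ^ w.length * wwt w) := by
      have := wwt_pos w
      positivity
    calc (1 / (a : ℝ)) * (3 ^ w.length * wwt w) * ∑ i ∈ range (cap + 1), (1 / 2 : ℝ) ^ i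
        ≤ (1 / (a : ℝ)) * (3 ^ w.length * wwt w) * 2 := mul_le_mul_of_nonneg_left h9 h11
      _ = _ := by ring
  refine (sum_le_sum fun w _ => hgeo w).trans ?_
  rw [← mul_sum, ← mul_sum, ← mul_sum]
  apply mul_le_mul_of_nonneg_left _ h1η.le
  apply mul_le_mul_of_nonneg_left _ (by norm_num)
  apply mul_le_mul_of_nonneg_left _ (by positivity)
  rw [hWD, sum_biUnion]
  · apply sum_le_sum
    intro k _
    unfold cW
    rw [sum_filter, mul_sum]
    apply sum_le_sum
    intro w hw
    rw [(mem_FW.1 hw).1]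
    split_ifs
    · exact le_rfl
    · simp
  · intro k _ k' _ hkk
    rw [Function.onFun, Finset.disjoint_left]
    intro w hw hw'
    rw [mem_filter] at hw hw'
    apply hkk
    rw [← (mem_FW.1 hw.1).1, (mem_FW.1 hw'.1).1]

end Pool.Agent.V11311.PD
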